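import Mathlib

/-!
# The Whitehead group of a discrete group, and the colimit over the finite cyclic subgroups

* `GLn R n`: the general linear group `GL_n(R)`.
* `K1 R`: the colimit `K₁(R)` of the abelianisations of the groups `GL_n(R)`, that is, the
  abelianisation of the stable general linear group, written additively.
* `Wh G = K₁(ℤ[G]) / ⟨± g⟩`.
* `ColimK1 G`: the colimit of `K₁(ℤ[C]) = ℤ[C]ˣ` over the finite cyclic subgroups `C` of `G`, the
  maps being induced by inclusions and by conjugation in `G`.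
* `assembly G : ColimK1 G → Wh G`.
-/

set_option autoImplicit false

universe u

namespace Pool.Agent.WhK

section StableGL

variable (R : Type u) [Ring R]

/-- The general linear group `GL_n(R)`. -/
def GLn (n : ℕ) : Type u := (Matrix (Fin n) (Fin n) R)ˣ

instance (n : ℕ) : Group (GLn R n) := (inferInstance : Group (Matrix (Fin n) (Fin n) R)ˣ)

/-- The block matrix `diag(X, 1)` of size `n`, for a matrix `X` of size `m ≤ n`. -/
def stabMat (m n : ℕ) (X : Matrix (Fin m) (Fin m) R) : Matrix (Fin n) (Fin n) R :=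
  Matrix.of fun i j =>
    if h : i.val < m ∧ j.val < m then X ⟨i.val, h.1⟩ ⟨j.val, h.2⟩ else if i = j then 1 else 0

theorem stabMat_one (m n : ℕ) : stabMat R m n 1 = 1 := by
  ext i j
  rw [stabMat, Matrix.of_apply, Matrix.one_apply]
  by_cases h : i.val < m ∧ j.val < m
  · rw [dif_pos h, Matrix.one_apply]
    congr 1
    rw [Fin.mk.injEq, eq_iff_iff, Fin.ext_iff]
  · rw [dif_neg h]

theorem stabMat_mul {m n : ℕ} (hmn : m ≤ n) (X Y : Matrix (Fin m) (Fin m) R) :
    stabMat R m n (X * Y) = stabMat R m n X * stabMat R m n Y := by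
  ext i j
  rw [Matrix.mul_apply]
  by_cases hi : i.val < m
  · by_cases hj : j.val < m
    · have h1 : stabMat R m n (X * Y) i j = (X * Y) ⟨i.val, hi⟩ ⟨j.val, hj⟩ := by
        rw [stabMat, Matrix.of_apply, dif_pos ⟨hi, hj⟩]
      rw [h1, Matrix.mul_apply]
      refine Finset.sum_of_injOn (Fin.castLE hmn) ?_ ?_ ?_ ?_
      · exact fun a _ b _ hab => Fin.castLE_injective hmn hab
      · exact fun a _ => Finset.mem_coe.2 (Finset.mem_univ _)
      · intro k _ hk
        have hkm : ¬ k.val < m := fun h => hk ⟨⟨k.val, h⟩, Finset.mem_coe.2 (Finset.mem_univ _), rfl⟩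
        have h2 : stabMat R m n X i k = 0 := by
          rw [stabMat, Matrix.of_apply, dif_neg (fun h => hkm h.2), if_neg]
          rintro rfl
          exact hkm hi
        rw [h2, zero_mul]
      · intro k _
        rw [stabMat, stabMat, Matrix.of_apply, Matrix.of_apply, dif_pos ⟨hi, k.2⟩,
          dif_pos ⟨k.2, hj⟩]
        rfl
    · have h1 : stabMat R m n (X * Y) i j = 0 := by
        rw [stabMat, Matrix.of_apply, dif_neg (fun h => hj h.2), if_neg]
        rintro rfl
        exact hj hi
      rw [h1]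
      symm
      refine Finset.sum_eq_zero fun k _ => ?_
      by_cases hk : k.val < m
      · have h2 : stabMat R m n Y k j = 0 := by
          rw [stabMat, Matrix.of_apply, dif_neg (fun h => hj h.2), if_neg]
          rintro rfl
          exact hj hk
        rw [h2, mul_zero]
      · have h2 : stabMat R m n X i k = 0 := by
          rw [stabMat, Matrix.of_apply, dif_neg (fun h => hk h.2), if_neg]
          rintro rfl
          exact hk hi
        rw [h2, zero_mul]
  · have h1 : ∀ (Z : Matrix (Fin m) (Fin m) R) (k : Fin n),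
        stabMat R m n Z i k = if i = k then 1 else 0 := by
      intro Z k
      rw [stabMat, Matrix.of_apply, dif_neg (fun h => hi h.1)]
    rw [h1]
    have h2 : ∀ k, stabMat R m n X i k * stabMat R m n Y k j =
        if i = k then stabMat R m n Y k j else 0 := by
      intro k
      rw [h1]
      split_ifs
      · rw [one_mul]
      · rw [zero_mul]
    rw [Finset.sum_congr rfl fun k _ => h2 k, Finset.sum_ite_eq, if_pos (Finset.mem_univ _), h1]

theorem stabMat_stabMat {m n k : ℕ} (hmn : m ≤ n) (X : Matrix (Fin m) (Fin m) R) :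
    stabMat R n k (stabMat R m n X) = stabMat R m k X := by
  ext i j
  simp only [stabMat, Matrix.of_apply]
  by_cases h1 : i.val < m ∧ j.val < m
  · rw [dif_pos ⟨h1.1.trans_le hmn, h1.2.trans_le hmn⟩, dif_pos h1, dif_pos h1]
  · rw [dif_neg h1]
    by_cases h2 : i.val < n ∧ j.val < n
    · rw [dif_pos h2, dif_neg h1]
      congr 1
      rw [Fin.mk.injEq, eq_iff_iff, Fin.ext_iff]
    · rw [dif_neg h2]

theorem stabMat_self {n : ℕ} (X : Matrix (Fin n) (Fin n) R) : stabMat R n n X = X := by
  ext i j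
  simp only [stabMat, Matrix.of_apply]
  rw [dif_pos ⟨i.2, j.2⟩]

/-- The stabilisation homomorphism `GL_m(R) → GL_n(R)`, `X ↦ diag(X, 1)`, for `m ≤ n`. -/
def stabGL (m n : ℕ) (hmn : m ≤ n) : GLn R m →* GLn R n :=
  Units.map
    { toFun := stabMat R m n
      map_one' := stabMat_one R m n
      map_mul' := stabMat_mul R hmn }

/-- Pairs of a natural number `n` and an element `X` of `GL_n(R)`. -/
structure MatPair : Type u where
  n : ℕ
  X : GLn R n

variable {R}

/-- The generator `[X]` of the free abelian group on the pairs. -/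
def K1.gen (n : ℕ) (X : GLn R n) : FreeAbelianGroup (MatPair R) := FreeAbelianGroup.of ⟨n, X⟩

/-- The element `[X Y] - [X] - [Y]`. -/
def K1.relMulElt (n : ℕ) (X Y : GLn R n) : FreeAbelianGroup (MatPair R) :=
  K1.gen n (X * Y) - K1.gen n X - K1.gen n Y

/-- The element `[diag(X, 1)] - [X]`. -/
def K1.relStabElt (m n : ℕ) (hmn : m ≤ n) (X : GLn R m) : FreeAbelianGroup (MatPair R) :=
  K1.gen n (stabGL R m n hmn X) - K1.gen m X

variable (R) in
/-- The relations `[X Y] = [X] + [Y]`. -/
def K1.relMul : Set (FreeAbelianGroup (MatPair R)) :=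
  {x | ∃ (n : ℕ) (X Y : GLn R n), x = K1.relMulElt n X Y}

variable (R) in
/-- The relations `[diag(X, 1)] = [X]`. -/
def K1.relStab : Set (FreeAbelianGroup (MatPair R)) :=
  {x | ∃ (m n : ℕ) (hmn : m ≤ n) (X : GLn R m), x = K1.relStabElt m n hmn X}

variable (R) in
/-- The algebraic K-group `K₁(R) = colim_n GL_n(R)^{ab} = GL(R)^{ab}`, written additively: the
abelian group generated by the symbols `[X]`, where `X` is in `GL_n(R)` for some `n`, with the
relations `[X Y] = [X] + [Y]` and `[diag(X, 1)] = [X]`. -/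
def K1 : Type u := FreeAbelianGroup (MatPair R) ⧸ AddSubgroup.closure (K1.relMul R ∪ K1.relStab R)

noncomputable instance : AddCommGroup (K1 R) :=
  (inferInstance : AddCommGroup
    (FreeAbelianGroup (MatPair R) ⧸ AddSubgroup.closure (K1.relMul R ∪ K1.relStab R)))

/-- The class in `K₁(R)` of an invertible matrix of size `n`. -/
def K1.mk (n : ℕ) (X : GLn R n) : K1 R := QuotientAddGroup.mk (K1.gen n X)

theorem K1.mk_mul (n : ℕ) (X Y : GLn R n) : K1.mk n (X * Y) = K1.mk n X + K1.mk n Y := by
  have h : (QuotientAddGroup.mk (K1.relMulElt n X Y) : K1 R) = 0 :=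
    (QuotientAddGroup.eq_zero_iff _).2 (AddSubgroup.subset_closure (Or.inl ⟨n, X, Y, rfl⟩))
  exact sub_eq_zero.1 ((sub_sub _ _ _).symm.trans h)

theorem K1.mk_stab (m n : ℕ) (hmn : m ≤ n) (X : GLn R m) :
    K1.mk n (stabGL R m n hmn X) = K1.mk m X := by
  have h : (QuotientAddGroup.mk (K1.relStabElt m n hmn X) : K1 R) = 0 :=
    (QuotientAddGroup.eq_zero_iff _).2 (AddSubgroup.subset_closure (Or.inr ⟨m, n, hmn, X, rfl⟩))
  exact sub_eq_zero.1 h

/-! ### Comparison with the abelianisation of the stable general linear group -/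

instance : DirectedSystem (GLn R) (fun m n h => stabGL R m n h) where
  map_self _ X := Units.ext (stabMat_self R X.val)
  map_map _ _ _ hmn _ X := Units.ext (stabMat_stabMat R hmn X.val)

variable (R) in
/-- The stable general linear group `GL(R) = colim GL_n(R)`. -/
def GLinf : Type u := DirectLimit (GLn R) (stabGL R)

noncomputable instance : Group (GLinf R) :=
  (inferInstance : Group (DirectLimit (GLn R) (stabGL R)))

/-- The class in `GL(R)` of an invertible matrix of size `n`. -/
def GLinf.mk (n : ℕ) (X : GLn R n) : GLinf R := Quotient.mk _ ⟨n, X⟩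

theorem GLinf.mk_mul (n : ℕ) (X Y : GLn R n) :
    GLinf.mk n (X * Y) = GLinf.mk n X * GLinf.mk n Y :=
  (DirectLimit.mul_def (f := stabGL R) n X Y).symm

theorem GLinf.mk_one (n : ℕ) : GLinf.mk n (1 : GLn R n) = 1 :=
  (DirectLimit.one_def (f := stabGL R) n).symm

theorem GLinf_eq_of_le {n k : ℕ} (h : n ≤ k) (X : GLn R n) :
    GLinf.mk n X = GLinf.mk k (stabGL R n k h X) :=
  Quotient.sound ⟨k, h, le_rfl, Units.ext (by
    show stabMat R n k _ = stabMat R k k (stabMat R n k _)
    rw [stabMat_self])⟩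

/-- the map from the free abelian group to the abelianisation of the stable general linear
group -/
noncomputable def toAb : FreeAbelianGroup (MatPair R) →+ Additive (Abelianization (GLinf R)) :=
  FreeAbelianGroup.lift fun x => Additive.ofMul (Abelianization.of (GLinf.mk x.n x.X))

theorem toAb_gen (n : ℕ) (X : GLn R n) :
    toAb (K1.gen n X) = Additive.ofMul (Abelianization.of (GLinf.mk n X)) :=
  FreeAbelianGroup.lift_apply_of _ _

theorem K1.ab_eq_one {n : ℕ} {X : GLn R n} (h : K1.mk n X = 0) :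
    (Abelianization.of (GLinf.mk n X) : Abelianization (GLinf R)) = 1 := by
  have h1 : AddSubgroup.closure (K1.relMul R ∪ K1.relStab R) ≤ (toAb (R := R)).ker := by
    rw [AddSubgroup.closure_le]
    rintro x (⟨n, X, Y, rfl⟩ | ⟨m, n, hmn, X, rfl⟩)
    · rw [SetLike.mem_coe, AddMonoidHom.mem_ker, K1.relMulElt, map_sub, map_sub, toAb_gen,
        toAb_gen, toAb_gen, sub_sub, sub_eq_zero, GLinf.mk_mul, map_mul, ofMul_mul]
    · rw [SetLike.mem_coe, AddMonoidHom.mem_ker, K1.relStabElt, map_sub, toAb_gen,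
        toAb_gen, sub_eq_zero, ← GLinf_eq_of_le]
  have h2 : toAb (K1.gen n X) = 0 := h1 ((QuotientAddGroup.eq_zero_iff _).1 h)
  rw [toAb_gen] at h2
  exact h2

/-- The class in `K₁(R)` of a unit `u`, that is, of the `1 × 1` matrix `(u)`. -/
noncomputable def K1.ofUnit (u : Rˣ) : K1 R :=
  K1.mk 1 (Units.map (Matrix.scalar (Fin 1)).toMonoidHom u)

theorem K1.ofUnit_mul (u v : Rˣ) : K1.ofUnit (u * v) = K1.ofUnit u + K1.ofUnit v := by
  unfold K1.ofUnit
  rw [map_mul]
  exact K1.mk_mul _ _ _

variable (R) in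
/-- `K1.ofUnit` as a homomorphism -/
noncomputable def K1.unitHom : Rˣ →* Multiplicative (K1 R) :=
  MonoidHom.mk' (fun u => Multiplicative.ofAdd (K1.ofUnit u)) fun u v => by
    rw [K1.ofUnit_mul, ofAdd_add]

end StableGL

section Whitehead

/-- The group `ℤ[G]ˣ` of units of the integral group ring. -/
def UZ (G : Type u) [Group G] : Type u := (MonoidAlgebra ℤ G)ˣ

noncomputable instance (G : Type u) [Group G] : Group (UZ G) :=
  (inferInstance : Group (MonoidAlgebra ℤ G)ˣ)

variable {G : Type u} [Group G]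

/-- The unit `g` of the integral group ring `ℤ[G]`. -/
noncomputable def gUnit (g : G) : (MonoidAlgebra ℤ G)ˣ :=
  Units.map (MonoidAlgebra.of ℤ G) (toUnits g)

/-- The class in `K₁(ℤ[G])` of a unit of `ℤ[G]`. -/
noncomputable def UZ.cls (u : UZ G) : K1 (MonoidAlgebra ℤ G) := K1.ofUnit u

/-- The homomorphism `ℤ[A]ˣ → ℤ[B]ˣ` induced by a group homomorphism `f : A → B`. -/
noncomputable def UZ.map {A B : Type u} [Group A] [Group B] (f : A →* B) (u : UZ A) : UZ B :=
  Units.map (MonoidAlgebra.mapDomainRingHom ℤ f).toMonoidHom u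

variable (G) in
/-- The subgroup of `K₁(ℤ[G])` generated by the classes of the units `g` and `-g`, `g ∈ G`. -/
noncomputable def trivUnits : AddSubgroup (K1 (MonoidAlgebra ℤ G)) :=
  AddSubgroup.closure {x | ∃ g : G, x = K1.ofUnit (gUnit g) ∨ x = K1.ofUnit (-gUnit g)}

variable (G) in
/-- The Whitehead group `Wh(G) = K₁(ℤ[G]) / ⟨± g⟩`. -/
def Wh : Type u := K1 (MonoidAlgebra ℤ G) ⧸ trivUnits G

noncomputable instance : AddCommGroup (Wh G) :=
  (inferInstance : AddCommGroup (K1 (MonoidAlgebra ℤ G) ⧸ trivUnits G))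

/-- The class in `Wh(G)` of an element of `K₁(ℤ[G])`. -/
noncomputable def Wh.mk (x : K1 (MonoidAlgebra ℤ G)) : Wh G := QuotientAddGroup.mk x

variable (G) in
/-- The finite cyclic subgroups of `G`. -/
structure Cyc : Type u where
  sub : Subgroup G
  fin : Finite sub
  cyc : IsCyclic sub

variable (G) in
/-- Pairs of a finite cyclic subgroup `C` of `G` and a unit `u` of `ℤ[C]`. -/
structure Pairs : Type u where
  C : Cyc G
  u : UZ C.1

/-- The homomorphism `C → D`, `c ↦ g c g⁻¹`, when `g C g⁻¹ ⊆ D`. -/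
def conjHom (C D : Subgroup G) (g : G) (h : ∀ c ∈ C, g * c * g⁻¹ ∈ D) : C →* D :=
  MonoidHom.mk' (fun c => ⟨g * c.1 * g⁻¹, h c.1 c.2⟩) fun a b => Subtype.ext (by simp)

/-- The homomorphism `ℤ[A]ˣ → ℤ[B]ˣ` induced by a group homomorphism `f : A → B`. -/
noncomputable def unitsMap {A B : Type*} [Group A] [Group B] (f : A →* B) :
    (MonoidAlgebra ℤ A)ˣ →* (MonoidAlgebra ℤ B)ˣ :=
  Units.map (MonoidAlgebra.mapDomainRingHom ℤ f).toMonoidHom

/-- The generator `[C, u]` of the free abelian group on the pairs. -/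
def gen (C : Cyc G) (u : UZ C.1) : FreeAbelianGroup (Pairs G) := FreeAbelianGroup.of ⟨C, u⟩

/-- The element `[C, u v] - [C, u] - [C, v]`. -/
noncomputable def relMulElt (C : Cyc G) (u v : UZ C.1) : FreeAbelianGroup (Pairs G) :=
  gen C (u * v) - gen C u - gen C v

/-- The element `[C, u] - [D, v]`, where `g C g⁻¹ ⊆ D` and `v` is the image of `u` under the map
`ℤ[C] → ℤ[D]`, `c ↦ g c g⁻¹`. -/
noncomputable def relConjElt (C D : Cyc G) (g : G) (h : ∀ c ∈ C.1, g * c * g⁻¹ ∈ D.1)
    (u : UZ C.1) : FreeAbelianGroup (Pairs G) :=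
  gen C u - gen D (UZ.map (conjHom C.1 D.1 g h) u)

variable (G) in
/-- The relations `[C, u v] = [C, u] + [C, v]`. -/
def relMul : Set (FreeAbelianGroup (Pairs G)) :=
  {x | ∃ (C : Cyc G) (u v : UZ C.1), x = relMulElt C u v}

variable (G) in
/-- The relations `[C, u] = [D, v]` when `g C g⁻¹ ⊆ D` and `v` is the image of `u` under the map
`ℤ[C] → ℤ[D]`, `c ↦ g c g⁻¹`. -/
def relConj : Set (FreeAbelianGroup (Pairs G)) :=
  {x | ∃ (C D : Cyc G) (g : G) (h : ∀ c ∈ C.1, g * c * g⁻¹ ∈ D.1) (u : UZ C.1),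
    x = relConjElt C D g h u}

variable (G) in
/-- The colimit of the abelian groups `K₁(ℤ[C]) = ℤ[C]ˣ` over the finite cyclic subgroups `C` of
`G`, with respect to the maps induced by inclusion and conjugation in `G`. -/
def ColimK1 : Type u := FreeAbelianGroup (Pairs G) ⧸ AddSubgroup.closure (relMul G ∪ relConj G)

noncomputable instance : AddCommGroup (ColimK1 G) :=
  (inferInstance : AddCommGroup
    (FreeAbelianGroup (Pairs G) ⧸ AddSubgroup.closure (relMul G ∪ relConj G)))

/-- The class in the colimit of a unit of `ℤ[C]`. -/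
def ColimK1.mk (C : Cyc G) (u : (MonoidAlgebra ℤ C.1)ˣ) : ColimK1 G :=
  QuotientAddGroup.mk (gen C u)

theorem unitsMap_conj (C D : Subgroup G) (g : G) (h : ∀ c ∈ C, g * c * g⁻¹ ∈ D)
    (u : (MonoidAlgebra ℤ C)ˣ) : unitsMap D.subtype (unitsMap (conjHom C D g h) u) =
      gUnit g * unitsMap C.subtype u * (gUnit g)⁻¹ := by
  have key : ∀ x : MonoidAlgebra ℤ C,
      MonoidAlgebra.mapDomainRingHom ℤ D.subtype
        (MonoidAlgebra.mapDomainRingHom ℤ (conjHom C D g h) x) =
      MonoidAlgebra.single g 1 * MonoidAlgebra.mapDomainRingHom ℤ C.subtype x *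
        MonoidAlgebra.single g⁻¹ 1 := by
    intro x
    induction x using MonoidAlgebra.induction_linear with
    | zero => simp
    | add x y hx hy => rw [map_add, map_add, hx, hy, map_add, mul_add, add_mul]
    | single c r =>
      simp only [MonoidAlgebra.mapDomainRingHom_apply, MonoidAlgebra.mapDomain_single,
        MonoidAlgebra.single_mul_single, one_mul, mul_one]
      rfl
  ext1
  exact key u.val

theorem lift_rel {A : Type*} [AddCommGroup A] (φ : (MonoidAlgebra ℤ G)ˣ →* Multiplicative A) :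
    AddSubgroup.closure (relMul G ∪ relConj G) ≤
    (FreeAbelianGroup.lift fun x : Pairs G => (φ (unitsMap x.1.1.subtype x.2)).toAdd).ker := by
  rw [AddSubgroup.closure_le]
  rintro x (⟨C, u, v, rfl⟩ | ⟨C, D, g, h, u, rfl⟩)
  · rw [SetLike.mem_coe, AddMonoidHom.mem_ker, relMulElt, map_sub, map_sub, gen, gen, gen,
      FreeAbelianGroup.lift_apply_of, FreeAbelianGroup.lift_apply_of,
      FreeAbelianGroup.lift_apply_of, sub_sub, sub_eq_zero]
    have key : ∀ u v : (MonoidAlgebra ℤ C.1)ˣ, (φ (unitsMap C.1.subtype (u * v))).toAdd =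
        (φ (unitsMap C.1.subtype u)).toAdd + (φ (unitsMap C.1.subtype v)).toAdd := by
      intro u v
      rw [← toAdd_mul, ← map_mul, ← map_mul]
    exact key u v
  · rw [SetLike.mem_coe, AddMonoidHom.mem_ker, relConjElt, map_sub, gen, gen,
      FreeAbelianGroup.lift_apply_of, FreeAbelianGroup.lift_apply_of]
    have hφ : ∀ u : (MonoidAlgebra ℤ C.1)ˣ,
        φ (unitsMap D.1.subtype (unitsMap (conjHom C.1 D.1 g h) u)) =
        φ (unitsMap C.1.subtype u) := by
      intro u
      rw [unitsMap_conj, map_mul φ, map_mul φ, map_inv φ, mul_inv_cancel_comm]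
    exact sub_eq_zero.2 (congrArg Multiplicative.toAdd (hφ u).symm)

/-- A homomorphism from `ℤ[G]ˣ` to a commutative group induces a homomorphism on the colimit. -/
noncomputable def liftColim {A : Type*} [AddCommGroup A]
    (φ : (MonoidAlgebra ℤ G)ˣ →* Multiplicative A) : ColimK1 G →+ A :=
  QuotientAddGroup.lift _ _ (lift_rel φ)

theorem liftColim_mk {A : Type*} [AddCommGroup A]
    (φ : (MonoidAlgebra ℤ G)ˣ →* Multiplicative A) (C : Cyc G) (u : (MonoidAlgebra ℤ C.1)ˣ) :
    liftColim φ (ColimK1.mk C u) = (φ (unitsMap C.1.subtype u)).toAdd := by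
  show QuotientAddGroup.lift _ _ _ (QuotientAddGroup.mk _) = _
  rw [QuotientAddGroup.lift_mk]
  exact FreeAbelianGroup.lift_apply_of _ _

/-- The class in `Wh(G)` of a pair `(C, u)`. -/
noncomputable def pairToWh (x : Pairs G) : Wh G := Wh.mk (UZ.map x.C.1.subtype x.u).cls

variable (G) in
/-- the homomorphism from the units of `ℤ[G]` to the Whitehead group -/
noncomputable def unitToWh : (MonoidAlgebra ℤ G)ˣ →* Multiplicative (Wh G) :=
  (QuotientAddGroup.mk' (trivUnits G)).toMultiplicative.comp (K1.unitHom (MonoidAlgebra ℤ G))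

theorem pairToWh_rel : AddSubgroup.closure (relMul G ∪ relConj G) ≤
    (FreeAbelianGroup.lift (pairToWh (G := G))).ker := lift_rel (unitToWh G)

variable (G) in
/-- The natural homomorphism `colim_C K₁(ℤ[C]) → Wh(G)`. -/
noncomputable def assembly : ColimK1 G →+ Wh G :=
  QuotientAddGroup.lift _ (FreeAbelianGroup.lift pairToWh) pairToWh_rel

theorem assembly_eq : assembly G = liftColim (unitToWh G) := rfl

end Whitehead

end Pool.Agent.WhK
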