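import Mathlib

/-!
# Representations over `ℚ` with the same character are isomorphic
-/

set_option autoImplicit false

universe v

namespace Pool.Agent.WhK

open Representation

section

variable {H : Type*} [Group H] {V W : Type v} [AddCommGroup V] [Module ℚ V] [AddCommGroup W]
  [Module ℚ W]

theorem char_prod [FiniteDimensional ℚ V] [FiniteDimensional ℚ W] (ρ : Representation ℚ H V)
    (σ : Representation ℚ H W) (g : H) :
    (ρ.prod σ).character g = ρ.character g + σ.character g :=
  LinearMap.trace_prodMap' (ρ g) (σ g)

theorem finite_intertwining [FiniteDimensional ℚ V] [FiniteDimensional ℚ W]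
    (ρ : Representation ℚ H V) (σ : Representation ℚ H W) :
    Module.Finite ℚ (IntertwiningMap ρ σ) := by
  let l : IntertwiningMap ρ σ →ₗ[ℚ] (V →ₗ[ℚ] W) :=
    { toFun := fun f => f.toLinearMap
      map_add' := fun f g => rfl
      map_smul' := fun c f => rfl }
  exact Module.Finite.of_injective l fun f g h => IntertwiningMap.ext h

/-- decomposition along complementary subrepresentations -/
theorem equiv_prod_of_isCompl {ρ : Representation ℚ H V} {K K' : Subrepresentation ρ}
    (h : IsCompl K K') : Nonempty ((K.toRepresentation.prod K'.toRepresentation).Equiv ρ) := by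
  have h' : IsCompl K.toSubmodule K'.toSubmodule := by
    constructor
    · rw [disjoint_iff]
      have := congrArg Subrepresentation.toSubmodule (disjoint_iff.1 h.1)
      exact this
    · rw [codisjoint_iff]
      have := congrArg Subrepresentation.toSubmodule (codisjoint_iff.1 h.2)
      exact this
  refine ⟨Representation.Equiv.mk (Submodule.prodEquivOfIsCompl _ _ h') fun g => ?_⟩
  refine LinearMap.ext fun x => ?_
  show ((ρ g x.1.1 : V)) + (ρ g x.2.1 : V) = ρ g (x.1.1 + x.2.1)
  rw [map_add]

/-- the prod of equivalences -/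
theorem prod_equiv_prod {V' W' : Type v} [AddCommGroup V'] [Module ℚ V'] [AddCommGroup W']
    [Module ℚ W'] {ρ : Representation ℚ H V} {σ : Representation ℚ H W}
    {ρ' : Representation ℚ H V'} {σ' : Representation ℚ H W'} (e : ρ.Equiv ρ') (f : σ.Equiv σ') :
    Nonempty ((ρ.prod σ).Equiv (ρ'.prod σ')) := by
  refine ⟨Representation.Equiv.mk (LinearEquiv.prodCongr e.toLinearEquiv f.toLinearEquiv)
    fun g => ?_⟩
  refine LinearMap.ext fun x => ?_
  show (e (ρ g x.1), f (σ g x.2)) = (ρ' g (e x.1), σ' g (f x.2))
  have h1 : e (ρ g x.1) = ρ' g (e x.1) := LinearMap.congr_fun (e.isIntertwining' g) x.1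
  have h2 : f (σ g x.2) = σ' g (f x.2) := LinearMap.congr_fun (f.isIntertwining' g) x.2
  rw [h1, h2]

/-- the image of a complement of the kernel -/
theorem compl_ker_equiv_range {ρ : Representation ℚ H V} {σ : Representation ℚ H W}
    (f : IntertwiningMap ρ σ) {K' : Subrepresentation ρ} (h : IsCompl f.ker K') :
    Nonempty (K'.toRepresentation.Equiv f.range.toRepresentation) := by
  let l : K'.toSubmodule →ₗ[ℚ] f.range.toSubmodule :=
    LinearMap.codRestrict f.range.toSubmodule (f.toLinearMap.comp K'.toSubmodule.subtype)
      fun x => ⟨x.1, rfl⟩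
  have hinj : Function.Injective l := by
    rw [injective_iff_map_eq_zero]
    intro x hx
    have h1 : f.toLinearMap x.1 = 0 := congrArg Subtype.val hx
    have h2 : x.1 ∈ f.ker ⊓ K' := ⟨h1, x.2⟩
    have h3 : f.ker ⊓ K' = ⊥ := disjoint_iff.1 h.1
    rw [h3] at h2
    exact Subtype.ext h2
  have hsurj : Function.Surjective l := by
    rintro ⟨_, z, rfl⟩
    have h3 : f.ker ⊔ K' = ⊤ := codisjoint_iff.1 h.2
    have h4 : z ∈ (f.ker.toSubmodule ⊔ K'.toSubmodule : Submodule ℚ V) := by
      have h5 := congrArg Subrepresentation.toSubmodule h3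
      change f.ker.toSubmodule ⊔ K'.toSubmodule = ⊤ at h5
      rw [h5]
      trivial
    obtain ⟨a, ha, b, hb, rfl⟩ := Submodule.mem_sup.1 h4
    refine ⟨⟨b, hb⟩, Subtype.ext ?_⟩
    show f.toLinearMap b = f.toLinearMap (a + b)
    rw [map_add]
    have h6 : f.toLinearMap a = 0 := ha
    rw [h6, zero_add]
  refine ⟨Representation.Equiv.mk (LinearEquiv.ofBijective l ⟨hinj, hsurj⟩) fun g => ?_⟩
  refine LinearMap.ext fun x => Subtype.ext ?_
  show f.toLinearMap (ρ g x.1) = σ g (f.toLinearMap x.1)
  exact LinearMap.congr_fun (f.isIntertwining' g) x.1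

end

variable {H : Type*} [Group H] [Fintype H]

theorem equiv_of_character_eq (n : ℕ) : ∀ (V W : Type v) [AddCommGroup V] [Module ℚ V]
    [FiniteDimensional ℚ V] [AddCommGroup W] [Module ℚ W] [FiniteDimensional ℚ W]
    (ρ : Representation ℚ H V) (σ : Representation ℚ H W), Module.finrank ℚ V = n →
    (∀ g, ρ.character g = σ.character g) → Nonempty (ρ.Equiv σ) := by
  induction n using Nat.strong_induction_on with
  | _ n ih =>
    intro V W _ _ _ _ _ _ ρ σ hn hchar
    have hinv : Invertible (Nat.card H : ℚ) :=
      invertibleOfNonzero (Nat.cast_ne_zero.2 Nat.card_pos.ne')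
    have hdimW : Module.finrank ℚ W = n := by
      have h1 := hchar 1
      rw [char_one, char_one, hn] at h1
      exact_mod_cast h1.symm
    rcases Nat.eq_zero_or_pos n with h0 | hpos
    · subst h0
      haveI : Subsingleton V := Module.finrank_zero_iff.1 hn
      haveI : Subsingleton W := Module.finrank_zero_iff.1 hdimW
      exact ⟨Representation.Equiv.mk (0 : V ≃ₗ[ℚ] W) fun g => LinearMap.ext fun x =>
        Subsingleton.elim _ _⟩
    · -- there is a nonzero intertwining map
      have hfin : (Module.finrank ℚ (IntertwiningMap ρ σ) : ℚ) =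
          Module.finrank ℚ (IntertwiningMap ρ ρ) := by
        rw [← card_inv_mul_sum_char_mul_char_eq_finrank,
          ← card_inv_mul_sum_char_mul_char_eq_finrank]
        simp only [hchar]
      haveI : Nontrivial V := Module.finrank_pos_iff.1 (hn ▸ hpos)
      have hpos1 : 0 < Module.finrank ℚ (IntertwiningMap ρ ρ) := by
        haveI : Module.Finite ℚ (IntertwiningMap ρ ρ) := finite_intertwining ρ ρ
        haveI : Nontrivial (IntertwiningMap ρ ρ) := by
          refine ⟨IntertwiningMap.id ρ, 0, fun h => ?_⟩
          obtain ⟨x, hx⟩ := exists_ne (0 : V)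
          exact hx (DFunLike.congr_fun h x)
        exact Module.finrank_pos
      have hpos2 : 0 < Module.finrank ℚ (IntertwiningMap ρ σ) := by
        have : Module.finrank ℚ (IntertwiningMap ρ σ) = Module.finrank ℚ (IntertwiningMap ρ ρ) := by
          exact_mod_cast hfin
        rw [this]
        exact hpos1
      haveI := Module.finrank_pos_iff.1 hpos2
      obtain ⟨f, hf⟩ := exists_ne (0 : IntertwiningMap ρ σ)
      obtain ⟨K', hK'⟩ := exists_isCompl f.ker
      obtain ⟨I', hI'⟩ := exists_isCompl f.range
      obtain ⟨e1⟩ := equiv_prod_of_isCompl hK'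
      obtain ⟨e2⟩ := equiv_prod_of_isCompl hI'
      obtain ⟨e3⟩ := compl_ker_equiv_range f hK'
      have hlt : Module.finrank ℚ f.ker.toSubmodule < n := by
        rw [← hn]
        apply Submodule.finrank_lt
        intro htop
        apply hf
        apply IntertwiningMap.ext
        exact LinearMap.ker_eq_top.1 htop
      have hchar' : ∀ g, f.ker.toRepresentation.character g = I'.toRepresentation.character g := by
        intro g
        have h1 := congrFun (char_iso e1) g
        have h2 := congrFun (char_iso e2) g
        have h3 := congrFun (char_iso e3) g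
        rw [char_prod] at h1 h2
        have h4 := hchar g
        rw [← h1, ← h2, h3, add_comm] at h4
        exact add_left_cancel h4
      obtain ⟨e4⟩ := ih _ hlt f.ker.toSubmodule I'.toSubmodule f.ker.toRepresentation
        I'.toRepresentation rfl hchar'
      obtain ⟨e5⟩ := prod_equiv_prod e4 e3
      obtain ⟨e6⟩ := equiv_prod_of_isCompl hI'.symm
      exact ⟨(e1.symm.trans e5).trans e6⟩

end Pool.Agent.WhK
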