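import Mathlib
import Pool.Agent.Lib_helper44.Wh.RepIso

/-!
# Permutation representations with the same character
-/

set_option autoImplicit false

universe v

namespace Pool.Agent.WhK

section PermChar

variable {H : Type*} [Group H]

open Classical in
/-- the permutation character of a finite `H`-set -/
noncomputable def permChar (H : Type*) [Group H] (S : Type*) [Fintype S] [MulAction H S] (h : H) :
    ℤ := ∑ s : S, if h • s = s then 1 else 0

theorem permChar_sum (S T : Type*) [Fintype S] [MulAction H S] [Fintype T] [MulAction H T]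
    (h : H) : permChar H (S ⊕ T) h = permChar H S h + permChar H T h := by
  unfold permChar
  rw [Fintype.sum_sum_type]
  congr 1
  · refine Finset.sum_congr rfl fun s _ => ?_
    congr 1
    rw [Sum.smul_inl, Sum.inl.injEq]
  · refine Finset.sum_congr rfl fun s _ => ?_
    congr 1
    rw [Sum.smul_inr, Sum.inr.injEq]

/-- the permutation representation of a finite `H`-set -/
def permRep (H : Type*) [Group H] (S : Type v) [MulAction H S] : Representation ℚ H (S → ℚ) where
  toFun h := LinearMap.funLeft ℚ ℚ (fun s => h⁻¹ • s)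
  map_one' := by
    refine LinearMap.ext fun x => funext fun s => ?_
    show x ((1 : H)⁻¹ • s) = x s
    rw [inv_one, one_smul]
  map_mul' g h := by
    refine LinearMap.ext fun x => funext fun s => ?_
    show x ((g * h)⁻¹ • s) = x (h⁻¹ • g⁻¹ • s)
    rw [mul_inv_rev, mul_smul]

theorem permRep_apply {S : Type v} [MulAction H S] (h : H) (x : S → ℚ) (s : S) :
    permRep H S h x s = x (h⁻¹ • s) := rfl

theorem permRep_single {S : Type v} [DecidableEq S] [MulAction H S] (h : H) (s : S) :
    permRep H S h (Pi.single s 1) = Pi.single (h • s) 1 := by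
  ext t
  rw [permRep_apply, Pi.single_apply, Pi.single_apply]
  congr 1
  rw [inv_smul_eq_iff]

theorem char_permRep {S : Type v} [Fintype S] [MulAction H S] (h : H) :
    (permRep H S).character h = permChar H S h := by
  classical
  unfold Representation.character permChar
  rw [LinearMap.trace_eq_matrix_trace ℚ (Pi.basisFun ℚ S), Matrix.trace]
  push_cast
  refine Finset.sum_congr rfl fun s _ => ?_
  rw [Matrix.diag_apply, LinearMap.toMatrix_apply, Pi.basisFun_repr, Pi.basisFun_apply,
    permRep_single, Pi.single_apply]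
  congr 1
  exact propext eq_comm

end PermChar

section Intertwiner

theorem exists_common_den {ι : Type*} [Fintype ι] (f : ι → ℚ) :
    ∃ (N : ℕ) (z : ι → ℤ), N ≠ 0 ∧ ∀ i, (z i : ℚ) = N * f i := by
  refine ⟨∏ i, (f i).den, ?_⟩
  have h : ∀ i, ∃ z : ℤ, (z : ℚ) = (∏ i, (f i).den : ℕ) * f i := by
    intro i
    obtain ⟨c, hc⟩ := Finset.dvd_prod_of_mem (fun i => (f i).den) (Finset.mem_univ i)
    refine ⟨c * (f i).num, ?_⟩
    rw [hc]
    push_cast
    rw [mul_comm ((f i).den : ℚ) c, mul_assoc, mul_comm ((f i).den : ℚ), Rat.mul_den_eq_num]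
  choose z hz using h
  exact ⟨z, Finset.prod_ne_zero_iff.2 fun i _ => (f i).den_ne_zero, hz⟩

theorem toMatrix'_mul_symm {S T : Type*} [Fintype S] [DecidableEq S] [Fintype T] [DecidableEq T]
    (l : (S → ℚ) ≃ₗ[ℚ] (T → ℚ)) :
    LinearMap.toMatrix' l.toLinearMap * LinearMap.toMatrix' l.symm.toLinearMap = 1 := by
  rw [← LinearMap.toMatrix'_comp]
  have h : l.toLinearMap ∘ₗ l.symm.toLinearMap = LinearMap.id :=
    LinearMap.ext fun x => l.apply_symm_apply x
  rw [h, LinearMap.toMatrix'_id]

variable {H : Type*} [Group H] [Fintype H]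

theorem exists_int_intertwiner {S T : Type v} [Fintype S] [DecidableEq S] [MulAction H S]
    [Fintype T] [DecidableEq T] [MulAction H T] (h : ∀ g, permChar H S g = permChar H T g) :
    ∃ (D : ℕ) (φ : Matrix T S ℤ) (ψ : Matrix S T ℤ), D ≠ 0 ∧ φ * ψ = (D : ℤ) • 1 ∧
      ψ * φ = (D : ℤ) • 1 ∧ ∀ (g : H) (t : T) (s : S), φ (g • t) (g • s) = φ t s := by
  obtain ⟨e⟩ := equiv_of_character_eq _ (S → ℚ) (T → ℚ) (permRep H S) (permRep H T) rfl
    fun g => by rw [char_permRep, char_permRep, h]
  let A : Matrix T S ℚ := LinearMap.toMatrix' e.toLinearEquiv.toLinearMap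
  let B : Matrix S T ℚ := LinearMap.toMatrix' e.toLinearEquiv.symm.toLinearMap
  have hAB : A * B = 1 := toMatrix'_mul_symm e.toLinearEquiv
  have hBA : B * A = 1 := toMatrix'_mul_symm e.toLinearEquiv.symm
  have hA : ∀ (g : H) (t : T) (s : S), A (g • t) (g • s) = A t s := by
    intro g t s
    have h1 : ∀ (t : T) (s : S), A t s = e (Pi.single s 1) t := fun t s => by
      show LinearMap.toMatrix' e.toLinearEquiv.toLinearMap t s = _
      rw [LinearMap.toMatrix'_apply]
      rfl
    rw [h1, h1, ← permRep_single]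
    have h2 : e (permRep H S g (Pi.single s 1)) = permRep H T g (e (Pi.single s 1)) :=
      LinearMap.congr_fun (e.isIntertwining' g) _
    rw [h2, permRep_apply, inv_smul_smul]
  obtain ⟨N, z, hN, hz⟩ := exists_common_den (fun p : T × S => A p.1 p.2)
  obtain ⟨N', z', hN', hz'⟩ := exists_common_den (fun p : S × T => B p.1 p.2)
  refine ⟨N * N', Matrix.of fun t s => z (t, s), Matrix.of fun s t => z' (s, t),
    Nat.mul_ne_zero hN hN', ?_, ?_, ?_⟩
  · ext i j
    have h1 := congrFun (congrFun hAB i) j
    rw [Matrix.mul_apply] at h1 ⊢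
    have h2 : ((∑ s, z (i, s) * z' (s, j) : ℤ) : ℚ) =
        (((N * N' : ℕ) : ℤ) • (1 : Matrix T T ℤ)) i j := by
      push_cast
      simp only [hz, hz']
      rw [Finset.sum_congr rfl fun s _ => (by ring : (N : ℚ) * A i s * (N' * B s j) =
        N * N' * (A i s * B s j)), ← Finset.mul_sum, h1, Matrix.smul_apply]
      simp [Matrix.one_apply]
    exact_mod_cast h2
  · ext i j
    have h1 := congrFun (congrFun hBA i) j
    rw [Matrix.mul_apply] at h1 ⊢
    have h2 : ((∑ s, z' (i, s) * z (s, j) : ℤ) : ℚ) =
        (((N * N' : ℕ) : ℤ) • (1 : Matrix S S ℤ)) i j := by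
      push_cast
      simp only [hz, hz']
      rw [Finset.sum_congr rfl fun s _ => (by ring : (N' : ℚ) * B i s * (N * A s j) =
        N * N' * (B i s * A s j)), ← Finset.mul_sum, h1, Matrix.smul_apply]
      simp [Matrix.one_apply]
    exact_mod_cast h2
  · intro g t s
    show z (g • t, g • s) = z (t, s)
    have h1 := hz (g • t, g • s)
    have h2 := hz (t, s)
    simp only [hA] at h1
    rw [← h2] at h1
    exact_mod_cast h1

end Intertwiner

end Pool.Agent.WhK
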