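import Mathlib
import Pool.Agent.Lib_helper44.Wh.PermRep

/-!
# Artin's theorem for permutation characters
-/

set_option autoImplicit false

universe u

namespace Pool.Agent.WhK

open Classical in
/-- the number of `g` such that `g⁻¹ h g` generates `A` -/
noncomputable def genCount {H : Type u} [Group H] [Fintype H] (A : Subgroup H) (h : H) : ℤ :=
  ∑ g : H, if Subgroup.zpowers (g⁻¹ * h * g) = A then 1 else 0

section

variable {H : Type u} [Group H] [Fintype H]

theorem sum_mk (A : Subgroup H) [Fintype (H ⧸ A)] (F : H ⧸ A → ℤ) :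
    ∑ g : H, F (g : H ⧸ A) = Nat.card A * ∑ x : H ⧸ A, F x := by
  classical
  rw [← Finset.sum_fiberwise (s := Finset.univ) (g := fun g : H => (g : H ⧸ A)), Finset.mul_sum]
  refine Finset.sum_congr rfl fun x _ => ?_
  have h1 : ∀ g ∈ Finset.univ.filter (fun g : H => (g : H ⧸ A) = x), F (g : H ⧸ A) = F x := by
    intro g hg
    rw [(Finset.mem_filter.1 hg).2]
  rw [Finset.sum_congr rfl h1, Finset.sum_const, nsmul_eq_mul]
  congr 1
  rw [Nat.cast_inj]
  have h2 : (Finset.univ.filter (fun g : H => (g : H ⧸ A) = x)).card =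
      Nat.card {g : H // (g : H ⧸ A) = x} := by
    rw [Nat.card_eq_fintype_card, Fintype.card_subtype]
  rw [h2]
  refine Nat.card_congr ⟨fun g => ⟨(x.out)⁻¹ * g.1, ?_⟩, fun a => ⟨x.out * a.1, ?_⟩, ?_, ?_⟩
  · rw [← QuotientGroup.eq, g.2]
    exact QuotientGroup.out_eq' x
  · conv_rhs => rw [← QuotientGroup.out_eq' x]
    rw [QuotientGroup.eq]
    have := A.inv_mem a.2
    simpa [mul_inv_rev] using this
  · intro g
    ext1
    show x.out * ((x.out)⁻¹ * g.1) = g.1
    rw [mul_inv_cancel_left]
  · intro a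
    ext1
    show (x.out)⁻¹ * (x.out * a.1) = a.1
    rw [inv_mul_cancel_left]

open Classical in
theorem card_mul_permChar (A : Subgroup H) [Fintype (H ⧸ A)] (h : H) :
    (Nat.card A : ℤ) * permChar H (H ⧸ A) h =
      ∑ B ∈ (Finset.univ : Finset (Subgroup H)).filter (fun B => B ≤ A), genCount B h := by
  have h0 : (Nat.card A : ℤ) * permChar H (H ⧸ A) h =
      ∑ g : H, (@ite ℤ (h • (g : H ⧸ A) = (g : H ⧸ A)) (Classical.propDecidable _) 1 0) :=
    (sum_mk A (fun x => @ite ℤ (h • x = x) (Classical.propDecidable _) 1 0)).symm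
  unfold genCount
  rw [h0, Finset.sum_comm]
  refine Finset.sum_congr rfl fun g _ => ?_
  rw [Finset.sum_ite_eq]
  have h1 : (h • (g : H ⧸ A) = (g : H ⧸ A)) ↔
      Subgroup.zpowers (g⁻¹ * h * g) ∈ (Finset.univ : Finset (Subgroup H)).filter
        (fun B => B ≤ A) := by
    rw [Finset.mem_filter, Subgroup.zpowers_le]
    have h2 : (h • (g : H ⧸ A)) = ((h * g : H) : H ⧸ A) := rfl
    rw [h2, eq_comm, QuotientGroup.eq, mul_assoc]
    exact ⟨fun h => ⟨Finset.mem_univ _, h⟩, fun h => h.2⟩
  by_cases h3 : h • (g : H ⧸ A) = (g : H ⧸ A)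
  · rw [if_pos h3, if_pos (h1.1 h3)]
  · rw [if_neg h3, if_neg (fun h4 => h3 (h1.2 h4))]

/-- the group generated by the permutation characters of the cyclic subgroups -/
noncomputable def cycChars (H : Type u) [Group H] [Fintype H] : AddSubgroup (H → ℤ) :=
  AddSubgroup.closure {f | ∃ (C : Subgroup H) (_ : IsCyclic C) (_ : Fintype (H ⧸ C)),
    f = permChar H (H ⧸ C)}

theorem permChar_mem (C : Subgroup H) (hC : IsCyclic C) [hF : Fintype (H ⧸ C)] :
    permChar H (H ⧸ C) ∈ cycChars H :=
  AddSubgroup.subset_closure ⟨C, hC, hF, rfl⟩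

theorem genCount_mem (k : ℕ) : ∀ A : Subgroup H, IsCyclic A → Nat.card A = k →
    genCount A ∈ cycChars H := by
  classical
  induction k using Nat.strong_induction_on with
  | _ k ih =>
    intro A hA hk
    haveI : Fintype (H ⧸ A) := Fintype.ofFinite _
    have h1 : genCount A = Nat.card A • permChar H (H ⧸ A) -
        ∑ B ∈ ((Finset.univ : Finset (Subgroup H)).filter (fun B => B ≤ A)).erase A,
          genCount B := by
      rw [eq_sub_iff_add_eq]
      funext h
      have h2 := card_mul_permChar A h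
      have hmem : A ∈ (Finset.univ : Finset (Subgroup H)).filter (fun B => B ≤ A) :=
        Finset.mem_filter.2 ⟨Finset.mem_univ _, le_rfl⟩
      rw [Pi.add_apply, Finset.sum_apply, Finset.add_sum_erase _ (fun B => genCount B h) hmem, ← h2,
        Pi.smul_apply, nsmul_eq_mul]
    rw [h1]
    refine AddSubgroup.sub_mem _ (AddSubgroup.nsmul_mem _ (permChar_mem A hA) _) ?_
    refine AddSubgroup.sum_mem _ fun B hB => ?_
    obtain ⟨hne, hB⟩ := Finset.mem_erase.1 hB
    have hle : B ≤ A := (Finset.mem_filter.1 hB).2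
    refine ih (Nat.card B) ?_ B ?_ rfl
    · rw [← hk]
      have hlt : B < A := lt_of_le_of_ne hle hne
      exact Set.Finite.card_lt_card (Set.toFinite (A : Set H)) hlt
    · haveI := hA
      exact isCyclic_of_injective (Subgroup.inclusion hle) (Subgroup.inclusion_injective hle)

/-- **Artin's theorem** for permutation characters -/
theorem artin : (fun _ => (Nat.card H : ℤ)) ∈ cycChars H := by
  classical
  have h1 : (fun _ => (Nat.card H : ℤ)) = ∑ B : Subgroup H, genCount B := by
    funext h
    rw [Finset.sum_apply]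
    unfold genCount
    rw [Finset.sum_comm]
    simp
  rw [h1]
  refine AddSubgroup.sum_mem _ fun B _ => ?_
  by_cases hB : IsCyclic B
  · exact genCount_mem _ B hB rfl
  · have h0 : genCount B = 0 := by
      funext h
      unfold genCount
      refine Finset.sum_eq_zero fun g _ => ?_
      rw [if_neg]
      rintro rfl
      exact hB inferInstance
    rw [h0]
    exact AddSubgroup.zero_mem _

end

end Pool.Agent.WhK
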