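import Mathlib
import Pool.Agent.Lib_helper44.Wh.KDefs

/-!
# Classes of invertible matrices in `K₁`, up to torsion
-/

set_option autoImplicit false

universe u

namespace Pool.Agent.WhK

open Matrix

section Torsion

/-- a commutative group modulo torsion -/
def ModTors (A : Type*) [AddCommGroup A] : Type _ := A ⧸ AddCommGroup.torsion A

instance (A : Type*) [AddCommGroup A] : AddCommGroup (ModTors A) :=
  (inferInstance : AddCommGroup (A ⧸ AddCommGroup.torsion A))

/-- the projection -/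
def mt {A : Type*} [AddCommGroup A] : A →+ ModTors A := QuotientAddGroup.mk' _

theorem mt_eq_zero {A : Type*} [AddCommGroup A] {x : A} :
    mt x = 0 ↔ ∃ n : ℕ, 0 < n ∧ n • x = 0 := by
  have h1 : mt x = 0 ↔ x ∈ AddCommGroup.torsion A := QuotientAddGroup.eq_zero_iff x
  rw [h1]
  exact isOfFinAddOrder_iff_nsmul_eq_zero

theorem mt_surjective {A : Type*} [AddCommGroup A] : Function.Surjective (mt (A := A)) :=
  QuotientAddGroup.mk'_surjective _

theorem ModTors.eq_zero {A : Type*} [AddCommGroup A] {x : ModTors A} {n : ℕ} (hn : 0 < n)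
    (h : n • x = 0) : x = 0 := by
  obtain ⟨y, rfl⟩ := mt_surjective x
  rw [← map_nsmul, mt_eq_zero] at h
  obtain ⟨m, hm, h⟩ := h
  rw [mt_eq_zero]
  exact ⟨m * n, Nat.mul_pos hm hn, by rw [mul_smul, h]⟩

theorem ModTors.eq_of_nsmul {A : Type*} [AddCommGroup A] {x y : ModTors A} {n : ℕ} (hn : 0 < n)
    (h : n • x = n • y) : x = y := by
  rw [← sub_eq_zero]
  apply ModTors.eq_zero hn
  rw [smul_sub, h, sub_self]

end Torsion

section Reindex

variable {R : Type*} [Ring R] {ι κ μ : Type*} [Fintype ι] [DecidableEq ι] [Fintype κ]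
  [DecidableEq κ] [Fintype μ] [DecidableEq μ]

/-- reindexing of square matrices -/
def reM (e : ι ≃ κ) : Matrix ι ι R →* Matrix κ κ R where
  toFun X := X.submatrix e.symm e.symm
  map_one' := Matrix.submatrix_one_equiv e.symm
  map_mul' X Y := (Matrix.submatrix_mul_equiv X Y e.symm e.symm e.symm).symm

/-- reindexing of invertible matrices -/
def reU (e : ι ≃ κ) : (Matrix ι ι R)ˣ →* (Matrix κ κ R)ˣ := Units.map (reM e)

theorem reU_val (e : ι ≃ κ) (X : (Matrix ι ι R)ˣ) :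
    (reU e X).val = X.val.submatrix e.symm e.symm := rfl

theorem reU_reU (e : ι ≃ κ) (f : κ ≃ μ) (X : (Matrix ι ι R)ˣ) :
    reU f (reU e X) = reU (e.trans f) X := Units.ext rfl

/-- permutation matrices -/
def permU (R : Type*) [Ring R] (σ : ι ≃ ι) : (Matrix ι ι R)ˣ where
  val := (1 : Matrix ι ι R).submatrix σ.symm id
  inv := (1 : Matrix ι ι R).submatrix id σ.symm
  val_inv := by
    rw [← Matrix.submatrix_mul _ _ _ _ _ Function.bijective_id, mul_one,
      Matrix.submatrix_one_equiv]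
  inv_val := by
    rw [← Matrix.submatrix_mul _ _ _ _ _ σ.symm.bijective, mul_one, Matrix.submatrix_id_id]

theorem reU_perm (σ : ι ≃ ι) (X : (Matrix ι ι R)ˣ) :
    reU σ X = permU R σ * X * (permU R σ)⁻¹ := by
  ext1
  show X.val.submatrix σ.symm σ.symm = (1 : Matrix ι ι R).submatrix σ.symm id * X.val *
    (1 : Matrix ι ι R).submatrix id σ.symm
  conv_rhs => rw [← Matrix.submatrix_id_id X.val]
  rw [← Matrix.submatrix_mul _ _ _ _ _ Function.bijective_id, one_mul,
    ← Matrix.submatrix_mul _ _ _ _ _ Function.bijective_id, mul_one]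

end Reindex

section Cls

variable {R : Type u} [Ring R] {ι κ μ : Type*} [Fintype ι] [DecidableEq ι] [Fintype κ]
  [DecidableEq κ] [Fintype μ] [DecidableEq μ]

/-- the class in `K₁(R)` of an invertible matrix over a finite index type -/
noncomputable def cls (X : (Matrix ι ι R)ˣ) : K1 R :=
  K1.mk (Fintype.card ι) (reU (Fintype.equivFin ι) X)

theorem K1.mk_one (n : ℕ) : K1.mk n (1 : GLn R n) = 0 := by
  have h := K1.mk_mul n (1 : GLn R n) 1
  rw [mul_one] at h
  exact left_eq_add.1 h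

theorem cls_mul (X Y : (Matrix ι ι R)ˣ) : cls (X * Y) = cls X + cls Y := by
  unfold cls
  rw [map_mul]
  exact K1.mk_mul _ _ _

theorem cls_one : cls (1 : (Matrix ι ι R)ˣ) = 0 := by
  unfold cls
  rw [map_one]
  exact K1.mk_one _

theorem cls_inv (X : (Matrix ι ι R)ˣ) : cls X⁻¹ = -cls X := by
  have h := cls_mul X⁻¹ X
  rw [inv_mul_cancel, cls_one] at h
  exact eq_neg_of_add_eq_zero_left h.symm

theorem cls_pow (X : (Matrix ι ι R)ˣ) (n : ℕ) : cls (X ^ n) = n • cls X := by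
  induction n with
  | zero => rw [pow_zero, cls_one, zero_smul]
  | succ n ih => rw [pow_succ, cls_mul, ih, succ_nsmul]

theorem K1.mk_conj (n : ℕ) (P X : (Matrix (Fin n) (Fin n) R)ˣ) :
    K1.mk n (P * X * P⁻¹ : (Matrix (Fin n) (Fin n) R)ˣ) = K1.mk n X := by
  have h1 : K1.mk n (P * X * P⁻¹ : (Matrix (Fin n) (Fin n) R)ˣ) =
      K1.mk n P + K1.mk n X + K1.mk n (P⁻¹ : (Matrix (Fin n) (Fin n) R)ˣ) := by
    have e1 := K1.mk_mul n (P * X : (Matrix (Fin n) (Fin n) R)ˣ) P⁻¹
    have e2 := K1.mk_mul n P X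
    exact e1.trans (congrArg (· + _) e2)
  have h2 : K1.mk n P + K1.mk n (P⁻¹ : (Matrix (Fin n) (Fin n) R)ˣ) = 0 := by
    have e1 := K1.mk_mul n P (P⁻¹ : (Matrix (Fin n) (Fin n) R)ˣ)
    rw [← e1]
    have e3 : (P * P⁻¹ : (Matrix (Fin n) (Fin n) R)ˣ) = 1 := mul_inv_cancel P
    exact (congrArg (K1.mk n) e3).trans (K1.mk_one n)
  rw [h1, add_right_comm, h2, zero_add]

theorem cls_eq {n : ℕ} (e : ι ≃ Fin n) (X : (Matrix ι ι R)ˣ) : cls X = K1.mk n (reU e X) := by
  have hn : Fintype.card ι = n := by rw [Fintype.card_congr e, Fintype.card_fin]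
  subst hn
  have h : reU e X = reU ((Fintype.equivFin ι).symm.trans e) (reU (Fintype.equivFin ι) X) := by
    rw [reU_reU, ← Equiv.trans_assoc, Equiv.self_trans_symm, Equiv.refl_trans]
  rw [h, reU_perm, K1.mk_conj]
  rfl

theorem cls_reU (e : ι ≃ κ) (X : (Matrix ι ι R)ˣ) : cls (reU e X) = cls X := by
  rw [cls_eq (e.trans (Fintype.equivFin κ)) X, ← reU_reU]
  rfl

/-- block diagonal invertible matrices -/
def diagU (X : (Matrix ι ι R)ˣ) (Y : (Matrix κ κ R)ˣ) : (Matrix (ι ⊕ κ) (ι ⊕ κ) R)ˣ where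
  val := fromBlocks X.val 0 0 Y.val
  inv := fromBlocks X.inv 0 0 Y.inv
  val_inv := by
    rw [fromBlocks_multiply]
    simp
  inv_val := by
    rw [fromBlocks_multiply]
    simp

theorem diagU_mul (X X' : (Matrix ι ι R)ˣ) (Y Y' : (Matrix κ κ R)ˣ) :
    diagU (X * X') (Y * Y') = diagU X Y * diagU X' Y' := by
  ext1
  show fromBlocks (X.val * X'.val) 0 0 (Y.val * Y'.val) =
    fromBlocks X.val 0 0 Y.val * fromBlocks X'.val 0 0 Y'.val
  rw [fromBlocks_multiply]
  simp

theorem stab_eq {n m : ℕ} (X : (Matrix (Fin n) (Fin n) R)ˣ) :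
    reU finSumFinEquiv (diagU X (1 : (Matrix (Fin m) (Fin m) R)ˣ)) =
      stabGL R n (n + m) (Nat.le_add_right n m) X := by
  refine Units.ext ?_
  show (fromBlocks X.val 0 0 1).submatrix finSumFinEquiv.symm finSumFinEquiv.symm =
    stabMat R n (n + m) X.val
  ext i j
  obtain ⟨i, rfl⟩ := finSumFinEquiv.surjective i
  obtain ⟨j, rfl⟩ := finSumFinEquiv.surjective j
  rw [submatrix_apply, Equiv.symm_apply_apply, Equiv.symm_apply_apply, stabMat, of_apply]
  rcases i with i | i <;> rcases j with j | j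
  · rw [fromBlocks_apply₁₁, dif_pos ⟨by simp, by simp⟩]
    rfl
  · rw [fromBlocks_apply₁₂, dif_neg (by simp), if_neg (by
      rw [EmbeddingLike.apply_eq_iff_eq]; exact Sum.inl_ne_inr)]
    rfl
  · rw [fromBlocks_apply₂₁, dif_neg (by simp), if_neg (by
      rw [EmbeddingLike.apply_eq_iff_eq]; exact Sum.inr_ne_inl)]
    rfl
  · rw [fromBlocks_apply₂₂, dif_neg (by simp), one_apply]
    congr 1
    rw [EmbeddingLike.apply_eq_iff_eq, Sum.inr.injEq]

theorem reU_diagU {ι' κ' : Type*} [Fintype ι'] [DecidableEq ι'] [Fintype κ'] [DecidableEq κ']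
    (e : ι ≃ ι') (f : κ ≃ κ') (X : (Matrix ι ι R)ˣ) (Y : (Matrix κ κ R)ˣ) :
    reU (Equiv.sumCongr e f) (diagU X Y) = diagU (reU e X) (reU f Y) := by
  refine Units.ext ?_
  show (fromBlocks X.val 0 0 Y.val).submatrix (Equiv.sumCongr e f).symm (Equiv.sumCongr e f).symm =
    fromBlocks (X.val.submatrix e.symm e.symm) 0 0 (Y.val.submatrix f.symm f.symm)
  ext i j
  rcases i with i | i <;> rcases j with j | j <;> rfl

theorem cls_diagU_one (X : (Matrix ι ι R)ˣ) :
    cls (diagU X (1 : (Matrix κ κ R)ˣ)) = cls X := by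
  rw [cls_eq ((Equiv.sumCongr (Fintype.equivFin ι) (Fintype.equivFin κ)).trans finSumFinEquiv),
    ← reU_reU, reU_diagU, map_one, stab_eq]
  exact K1.mk_stab _ _ _ _

theorem cls_diagU_one' (Y : (Matrix κ κ R)ˣ) :
    cls (diagU (1 : (Matrix ι ι R)ˣ) Y) = cls Y := by
  rw [← cls_diagU_one (κ := ι) Y, ← cls_reU (Equiv.sumComm κ ι)]
  congr 1
  refine Units.ext ?_
  show fromBlocks (1 : Matrix ι ι R) 0 0 Y.val =
    (fromBlocks Y.val 0 0 (1 : Matrix ι ι R)).submatrix (Equiv.sumComm κ ι).symm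
      (Equiv.sumComm κ ι).symm
  ext i j
  rcases i with i | i <;> rcases j with j | j <;> rfl

theorem cls_diagU (X : (Matrix ι ι R)ˣ) (Y : (Matrix κ κ R)ˣ) :
    cls (diagU X Y) = cls X + cls Y := by
  have h : diagU X Y = diagU X 1 * diagU 1 Y := by rw [← diagU_mul, mul_one, one_mul]
  rw [h, cls_mul, cls_diagU_one, cls_diagU_one']

/-- unipotent upper triangular block matrices -/
def upU (A : Matrix ι κ R) : (Matrix (ι ⊕ κ) (ι ⊕ κ) R)ˣ where
  val := fromBlocks 1 A 0 1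
  inv := fromBlocks 1 (-A) 0 1
  val_inv := by
    rw [fromBlocks_multiply]
    simp
  inv_val := by
    rw [fromBlocks_multiply]
    simp

/-- unipotent lower triangular block matrices -/
def loU (B : Matrix κ ι R) : (Matrix (ι ⊕ κ) (ι ⊕ κ) R)ˣ where
  val := fromBlocks 1 0 B 1
  inv := fromBlocks 1 0 (-B) 1
  val_inv := by
    rw [fromBlocks_multiply]
    simp
  inv_val := by
    rw [fromBlocks_multiply]
    simp

/-- the class modulo torsion -/
noncomputable def tau (X : (Matrix ι ι R)ˣ) : ModTors (K1 R) := mt (cls X)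

theorem tau_mul (X Y : (Matrix ι ι R)ˣ) : tau (X * Y) = tau X + tau Y := by
  unfold tau
  rw [cls_mul, map_add]

theorem tau_inv (X : (Matrix ι ι R)ˣ) : tau X⁻¹ = -tau X := by
  unfold tau
  rw [cls_inv, map_neg]

theorem tau_pow (X : (Matrix ι ι R)ˣ) (n : ℕ) : tau (X ^ n) = n • tau X := by
  unfold tau
  rw [cls_pow, map_nsmul]

theorem tau_one : tau (1 : (Matrix ι ι R)ˣ) = 0 := by
  unfold tau
  rw [cls_one, map_zero]

theorem tau_diagU (X : (Matrix ι ι R)ˣ) (Y : (Matrix κ κ R)ˣ) :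
    tau (diagU X Y) = tau X + tau Y := by
  unfold tau
  rw [cls_diagU, map_add]

theorem tau_reU (e : ι ≃ κ) (X : (Matrix ι ι R)ˣ) : tau (reU e X) = tau X := by
  unfold tau
  rw [cls_reU]

theorem tau_conj (P X : (Matrix ι ι R)ˣ) : tau (P * X * P⁻¹) = tau X := by
  rw [tau_mul, tau_mul, tau_inv, add_comm (tau P), add_neg_cancel_right]

theorem tau_eq_zero_of_conj_inv {P X : (Matrix ι ι R)ˣ} (h : P * X * P⁻¹ = X⁻¹) : tau X = 0 := by
  have h1 := tau_conj P X
  rw [h, tau_inv] at h1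
  have h2 : tau X + tau X = -tau X + tau X := by rw [h1]
  exact ModTors.eq_zero (n := 2) two_pos (by rw [two_nsmul, h2, neg_add_cancel])

theorem tau_upU (A : Matrix ι κ R) : tau (upU A) = 0 := by
  apply tau_eq_zero_of_conj_inv (P := diagU (1 : (Matrix ι ι R)ˣ) (-1 : (Matrix κ κ R)ˣ))
  refine Units.ext ?_
  show fromBlocks (1 : Matrix ι ι R) 0 0 (-1 : Matrix κ κ R) * fromBlocks 1 A 0 1 *
    fromBlocks (1 : Matrix ι ι R) 0 0 (-1 : Matrix κ κ R) = fromBlocks 1 (-A) 0 1
  rw [fromBlocks_multiply, fromBlocks_multiply]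
  simp

theorem tau_loU (B : Matrix κ ι R) : tau (loU B) = 0 := by
  apply tau_eq_zero_of_conj_inv (P := diagU (1 : (Matrix ι ι R)ˣ) (-1 : (Matrix κ κ R)ˣ))
  refine Units.ext ?_
  show fromBlocks (1 : Matrix ι ι R) 0 0 (-1 : Matrix κ κ R) * fromBlocks 1 0 B 1 *
    fromBlocks (1 : Matrix ι ι R) 0 0 (-1 : Matrix κ κ R) = fromBlocks 1 0 (-B) 1
  rw [fromBlocks_multiply, fromBlocks_multiply]
  simp

theorem whitehead_blocks (A : Matrix ι κ R) (B : Matrix κ ι R) (T W : Matrix ι ι R)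
    (V : Matrix κ κ R) (hT : T = 1 + A * B) (hV : V = 1 + B * A) (hW : W * T = 1) :
    fromBlocks (1 : Matrix ι ι R) (-A) 0 1 * fromBlocks 1 0 (B * W) 1 *
        fromBlocks T 0 0 (1 : Matrix κ κ R) =
      fromBlocks (1 : Matrix ι ι R) 0 B 1 * fromBlocks (1 : Matrix ι ι R) 0 0 V *
        fromBlocks 1 (-A) 0 1 := by
  have h1 : B * W * T = B := by rw [Matrix.mul_assoc, hW, Matrix.mul_one]
  have h2 : A * (B * W) * T = A * B := by rw [Matrix.mul_assoc, h1]
  rw [fromBlocks_multiply, fromBlocks_multiply, fromBlocks_multiply, fromBlocks_multiply]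
  simp only [Matrix.one_mul, Matrix.mul_one, Matrix.zero_mul, Matrix.mul_zero, add_zero,
    zero_add, Matrix.neg_mul, Matrix.mul_neg, Matrix.add_mul, h2, h1]
  congr 1
  · rw [hT, add_neg_cancel_right]
  · rw [hV, add_comm 1 (B * A), neg_add_cancel_left]

/-- the Whitehead identity `[1 + A B] = [1 + B A]` -/
theorem tau_one_add_mul (A : Matrix ι κ R) (B : Matrix κ ι R) (U : (Matrix ι ι R)ˣ)
    (V : (Matrix κ κ R)ˣ) (hU : U.val = 1 + A * B) (hV : V.val = 1 + B * A) :
    tau U = tau V := by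
  have key : upU (-A) * loU (B * U.inv) * diagU U 1 = loU B * diagU 1 V * upU (-A) :=
    Units.ext (whitehead_blocks A B U.val U.inv V.val hU hV U.inv_val)
  have h := congrArg tau key
  rw [tau_mul, tau_mul, tau_mul, tau_mul, tau_upU, tau_loU, tau_loU, tau_diagU, tau_diagU,
    tau_one, tau_one] at h
  simpa using h

end Cls

end Pool.Agent.WhK
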