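import Mathlib
import Pool.Agent.Lib_helper44.Wh.Cls

/-!
# Rationally equivalent automorphisms have the same class modulo torsion
-/

set_option autoImplicit false

universe u

namespace Pool.Agent.WhK

open Matrix

section FiniteLevel

theorem exists_pow_eq_one_add {M : Type*} [Ring M] [Module.Finite ℤ M] (D : ℕ) (hD : D ≠ 0)
    (Y : Mˣ) : ∃ (e : ℕ) (γ : M), 0 < e ∧ (Y ^ e).val = 1 + D • γ := by
  let N : Submodule ℤ M := LinearMap.range (LinearMap.lsmul ℤ M (D : ℤ))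
  have hfin : Finite (M ⧸ N) := by
    apply Module.finite_of_fg_torsion
    intro x
    obtain ⟨y, rfl⟩ := N.mkQ_surjective x
    refine ⟨⟨(D : ℤ), mem_nonZeroDivisors_of_ne_zero (Nat.cast_ne_zero.2 hD)⟩, ?_⟩
    show (D : ℤ) • N.mkQ y = 0
    rw [← map_smul]
    exact (Submodule.Quotient.mk_eq_zero N).2 ⟨y, rfl⟩
  obtain ⟨i, j, hij, h⟩ := Finite.exists_ne_map_eq_of_infinite
    (fun k : ℕ => N.mkQ ((Y ^ k : Mˣ) : M))
  wlog hlt : i < j generalizing i j with H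
  · exact H j i hij.symm h.symm (lt_of_le_of_ne (not_lt.1 hlt) hij.symm)
  have h2 : ((Y ^ j : Mˣ) : M) - ((Y ^ i : Mˣ) : M) ∈ N := by
    rw [← Submodule.Quotient.mk_eq_zero, Submodule.Quotient.mk_sub, sub_eq_zero]
    exact h.symm
  obtain ⟨z, hz⟩ := h2
  change (D : ℤ) • z = _ at hz
  refine ⟨j - i, z * ((Y ^ i)⁻¹ : Mˣ), by omega, ?_⟩
  have h3 : (Y ^ (j - i) : Mˣ) = Y ^ j * (Y ^ i)⁻¹ := by
    rw [eq_mul_inv_iff_mul_eq, ← pow_add, Nat.sub_add_cancel hlt.le]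
  rw [h3, Units.val_mul, ← smul_mul_assoc, ← natCast_zsmul, hz, sub_mul, Units.mul_inv,
    add_sub_cancel]

end FiniteLevel

section Compare

variable {Λ : Type u} [Ring Λ] [Module.Finite ℤ Λ] {ι κ : Type*} [Fintype ι] [DecidableEq ι]
  [Fintype κ] [DecidableEq κ]

theorem tau_eq_of_intertwine (htf : ∀ (D : ℕ) (x : Λ), D ≠ 0 → D • x = 0 → x = 0)
    (X : (Matrix ι ι Λ)ˣ) (Y : (Matrix κ κ Λ)ˣ) (φ : Matrix κ ι Λ) (ψ : Matrix ι κ Λ) (D : ℕ)
    (hD : D ≠ 0) (h : φ * X.val = Y.val * φ) (h1 : φ * ψ = D • (1 : Matrix κ κ Λ))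
    (h2 : ψ * φ = D • (1 : Matrix ι ι Λ)) : tau X = tau Y := by
  haveI : Module.Finite ℤ (Matrix κ κ Λ) := inferInstanceAs (Module.Finite ℤ (κ → κ → Λ))
  obtain ⟨e, γ, he, hγ⟩ := exists_pow_eq_one_add D hD Y
  have hY : (Y ^ e).val = 1 + φ * (ψ * γ) := by
    rw [hγ, ← Matrix.mul_assoc, h1, Matrix.smul_mul, Matrix.one_mul]
  have hpow : ∀ k : ℕ, φ * (X ^ k).val = (Y ^ k).val * φ := by
    intro k
    induction k with
    | zero => rw [pow_zero, pow_zero, Units.val_one, Units.val_one, Matrix.mul_one, Matrix.one_mul]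
    | succ k ih =>
      rw [pow_succ, pow_succ, Units.val_mul, Units.val_mul, ← Matrix.mul_assoc, ih,
        Matrix.mul_assoc, h, Matrix.mul_assoc]
  have hX : (X ^ e).val = 1 + (ψ * γ) * φ := by
    have h3 : D • ((X ^ e).val - (1 + (ψ * γ) * φ)) = 0 := by
      have h3 : φ * (X ^ e).val = φ * (1 + (ψ * γ) * φ) := by
        rw [hpow, hY, Matrix.add_mul, Matrix.one_mul, Matrix.mul_add, Matrix.mul_one,
          Matrix.mul_assoc φ]
      have h4 := congrArg (ψ * ·) h3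
      change ψ * (φ * (X ^ e).val) = ψ * (φ * (1 + (ψ * γ) * φ)) at h4
      rw [← Matrix.mul_assoc, ← Matrix.mul_assoc, h2, Matrix.smul_mul, Matrix.smul_mul,
        Matrix.one_mul, Matrix.one_mul] at h4
      rw [smul_sub, h4, sub_self]
    rw [← sub_eq_zero]
    ext i j
    exact htf D _ hD (congrFun (congrFun h3 i) j)
  have h5 := tau_one_add_mul φ (ψ * γ) (Y ^ e) (X ^ e) hY hX
  rw [tau_pow, tau_pow] at h5
  exact ModTors.eq_of_nsmul he h5.symm

end Compare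

end Pool.Agent.WhK
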