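import Mathlib
import Pool.Agent.Lib_helper44.Wh.Cls

/-!
# Functoriality of `K₁`
-/

set_option autoImplicit false

universe u

namespace Pool.Agent.WhK

variable {R S : Type u} [Ring R] [Ring S]

/-- The homomorphism `GL_n(R) → GL_n(S)` induced by a ring homomorphism. -/
def GLn.map (f : R →+* S) (n : ℕ) : GLn R n →* GLn S n := Units.map f.mapMatrix.toMonoidHom

theorem stabMat_map (f : R →+* S) (m n : ℕ) (X : Matrix (Fin m) (Fin m) R) :
    stabMat S m n (X.map f) = (stabMat R m n X).map f := by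
  ext i j
  simp only [stabMat, Matrix.of_apply, Matrix.map_apply]
  split_ifs <;> simp

/-- The class in `K₁(S)` of the image of a pair. -/
def pairMap (f : R →+* S) (x : MatPair R) : K1 S := K1.mk x.n (GLn.map f x.n x.X)

theorem K1.map_rel (f : R →+* S) : AddSubgroup.closure (K1.relMul R ∪ K1.relStab R) ≤
    (FreeAbelianGroup.lift (pairMap f)).ker := by
  rw [AddSubgroup.closure_le]
  rintro x (⟨n, X, Y, rfl⟩ | ⟨m, n, hmn, X, rfl⟩)
  · rw [SetLike.mem_coe, AddMonoidHom.mem_ker, K1.relMulElt, map_sub, map_sub, K1.gen, K1.gen,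
      K1.gen, FreeAbelianGroup.lift_apply_of, FreeAbelianGroup.lift_apply_of,
      FreeAbelianGroup.lift_apply_of, sub_sub, sub_eq_zero]
    show K1.mk n (GLn.map f n (X * Y)) = K1.mk n (GLn.map f n X) + K1.mk n (GLn.map f n Y)
    rw [map_mul, K1.mk_mul]
  · rw [SetLike.mem_coe, AddMonoidHom.mem_ker, K1.relStabElt, map_sub, K1.gen, K1.gen,
      FreeAbelianGroup.lift_apply_of, FreeAbelianGroup.lift_apply_of, sub_eq_zero]
    show K1.mk n (GLn.map f n (stabGL R m n hmn X)) = K1.mk m (GLn.map f m X)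
    rw [← K1.mk_stab m n hmn (GLn.map f m X)]
    congr 1
    refine Units.ext ?_
    exact (stabMat_map f m n X.val).symm

/-- The homomorphism `K₁(R) → K₁(S)` induced by a ring homomorphism `f : R → S`. -/
noncomputable def K1.map (f : R →+* S) : K1 R →+ K1 S :=
  QuotientAddGroup.lift _ (FreeAbelianGroup.lift (pairMap f)) (K1.map_rel f)

theorem K1.map_mk (f : R →+* S) (n : ℕ) (X : GLn R n) :
    K1.map f (K1.mk n X) = K1.mk n (GLn.map f n X) := by
  show QuotientAddGroup.lift _ _ _ (QuotientAddGroup.mk _) = _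
  rw [QuotientAddGroup.lift_mk]
  exact FreeAbelianGroup.lift_apply_of _ _

theorem K1.map_cls {ι : Type*} [Fintype ι] [DecidableEq ι] (f : R →+* S)
    (X : (Matrix ι ι R)ˣ) :
    K1.map f (cls X) = cls (Units.map f.mapMatrix.toMonoidHom X : (Matrix ι ι S)ˣ) := by
  unfold cls
  exact K1.map_mk f _ _

theorem K1.map_ofUnit (f : R →+* S) (u : Rˣ) :
    K1.map f (K1.ofUnit u) = K1.ofUnit (Units.map f.toMonoidHom u) := by
  unfold K1.ofUnit
  refine (K1.map_mk f _ _).trans ?_
  congr 1
  refine Units.ext ?_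
  show (Matrix.scalar (Fin 1) u.val).map f = Matrix.scalar (Fin 1) (f u.val)
  ext i j
  rw [Subsingleton.elim i 0, Subsingleton.elim j 0]
  simp

/-- generation of `K₁` by the classes of matrices -/
theorem K1.exists_mk (x : K1 R) : ∃ (n : ℕ) (X : GLn R n), x = K1.mk n X := by
  induction x using QuotientAddGroup.induction_on with
  | H z =>
    induction z using FreeAbelianGroup.induction_on with
    | zero => exact ⟨0, 1, (K1.mk_one 0).symm⟩
    | of x => exact ⟨x.n, x.X, rfl⟩
    | neg x hx =>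
      obtain ⟨n, X, h⟩ := hx
      refine ⟨n, X⁻¹, ?_⟩
      have h1 : K1.mk n X⁻¹ + K1.mk n X = 0 := by
        rw [← K1.mk_mul, inv_mul_cancel, K1.mk_one]
      rw [← neg_eq_of_add_eq_zero_left h1, ← h]
      rfl
    | add x y hx hy =>
      obtain ⟨n, X, h⟩ := hx
      obtain ⟨m, Y, h'⟩ := hy
      refine ⟨max n m, stabGL R n _ (le_max_left n m) X * stabGL R m _ (le_max_right n m) Y, ?_⟩
      rw [K1.mk_mul, K1.mk_stab, K1.mk_stab, ← h, ← h']
      rfl

end Pool.Agent.WhK
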