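import Mathlib
import Pool.Agent.Lib_helper44.Wh.KMap
import Pool.Agent.Lib_helper44.Wh.Compare
import Pool.Agent.Lib_helper44.Wh.PermRep

/-!
# Tensoring with permutation modules
-/

set_option autoImplicit false

universe u

namespace Pool.Agent.WhK

open Matrix

section Blk

variable {Λ Λ' : Type*} [Ring Λ] [Ring Λ'] {n S T U : Type*} [Fintype n] [DecidableEq n]
  [Fintype S] [DecidableEq S] [Fintype T] [DecidableEq T]

/-- the ring homomorphism `M_n(Λ) → M_{n × S}(Λ')` induced by `θ : Λ → M_S(Λ')` -/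
def blk (n : Type*) [Fintype n] [DecidableEq n] (θ : Λ →+* Matrix S S Λ') :
    Matrix n n Λ →* Matrix (n × S) (n × S) Λ' where
  toFun X := Matrix.of fun p q => θ (X p.1 q.1) p.2 q.2
  map_one' := by
    ext ⟨i, s⟩ ⟨j, s'⟩
    rw [of_apply, one_apply, one_apply]
    by_cases h : i = j
    · subst h
      rw [if_pos rfl, map_one, one_apply]
      simp
    · rw [if_neg h, map_zero, if_neg (by simp [h])]
      rfl
  map_mul' X Y := by
    ext ⟨i, s⟩ ⟨j, s'⟩
    rw [of_apply, Matrix.mul_apply, Matrix.mul_apply, map_sum, Fintype.sum_prod_type,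
      Matrix.sum_apply]
    refine Finset.sum_congr rfl fun l _ => ?_
    rw [map_mul, Matrix.mul_apply]
    rfl

/-- the same for invertible matrices -/
def blkU (n : Type*) [Fintype n] [DecidableEq n] (θ : Λ →+* Matrix S S Λ') :
    (Matrix n n Λ)ˣ →* (Matrix (n × S) (n × S) Λ')ˣ := Units.map (blk n θ)

/-- inflation of a matrix -/
def infl (n : Type*) [DecidableEq n] (M : Matrix T S Λ) : Matrix (n × T) (n × S) Λ :=
  Matrix.of fun p q => if p.1 = q.1 then M p.2 q.2 else 0

theorem infl_mul {U : Type*} (M : Matrix T S Λ) (N : Matrix S U Λ) :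
    infl n M * infl n N = infl n (M * N) := by
  ext ⟨i, s⟩ ⟨j, s'⟩
  rw [Matrix.mul_apply, Fintype.sum_prod_type, Finset.sum_eq_single i]
  · simp only [infl, of_apply, if_true]
    by_cases h : i = j
    · simp only [h, if_true, Matrix.mul_apply]
    · simp only [h, if_false, mul_zero, Finset.sum_const_zero]
  · intro b _ hb
    refine Finset.sum_eq_zero fun x _ => ?_
    simp only [infl, of_apply, if_neg (Ne.symm hb), zero_mul]
  · exact fun h => absurd (Finset.mem_univ _) h

theorem infl_smul_one (D : ℕ) : infl n (D • (1 : Matrix S S Λ)) = D • 1 := by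
  ext ⟨i, s⟩ ⟨j, s'⟩
  simp only [infl, of_apply, Matrix.smul_apply, Matrix.one_apply, Prod.mk.injEq]
  by_cases h : i = j
  · simp [h]
  · simp [h]

theorem infl_intertwine (θ : Λ →+* Matrix S S Λ') (θ' : Λ →+* Matrix T T Λ')
    (M : Matrix T S Λ') (h : ∀ x, M * θ x = θ' x * M) (X : Matrix n n Λ) :
    infl n M * blk n θ X = blk n θ' X * infl n M := by
  ext ⟨i, t⟩ ⟨j, s⟩
  have h1 := congrFun (congrFun (h (X i j)) t) s
  rw [Matrix.mul_apply, Matrix.mul_apply] at h1
  rw [Matrix.mul_apply, Matrix.mul_apply, Fintype.sum_prod_type, Fintype.sum_prod_type,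
    Finset.sum_eq_single i, Finset.sum_eq_single j]
  · have e1 : ∀ x, infl n M (i, t) (i, x) = M t x := fun x => if_pos rfl
    have e2 : ∀ x, infl n M (j, x) (j, s) = M x s := fun x => if_pos rfl
    simp only [e1, e2]
    exact h1
  · intro b _ hb
    refine Finset.sum_eq_zero fun x _ => ?_
    have e : infl n M (b, x) (j, s) = 0 := if_neg hb
    rw [e, mul_zero]
  · exact fun h => absurd (Finset.mem_univ _) h
  · intro b _ hb
    refine Finset.sum_eq_zero fun x _ => ?_
    have e : infl n M (i, t) (b, x) = 0 := if_neg (Ne.symm hb)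
    rw [e, zero_mul]
  · exact fun h => absurd (Finset.mem_univ _) h

end Blk

section Delta

variable {H : Type u} [Group H]

/-- the matrix `∑ E_{h s, s} h` -/
noncomputable def dlt (H : Type u) [Group H] (S : Type*) [Fintype S] [DecidableEq S]
    [MulAction H S] : H →* Matrix S S (MonoidAlgebra ℤ H) where
  toFun h := Matrix.of fun s' s => if s' = h • s then MonoidAlgebra.single h 1 else 0
  map_one' := by
    ext i j
    rw [of_apply, one_smul, one_apply]
    rfl
  map_mul' g h := by
    ext i j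
    rw [Matrix.mul_apply, Finset.sum_eq_single (h • j)]
    · simp only [of_apply, if_true, mul_smul]
      by_cases hi : i = g • h • j
      · rw [if_pos hi, if_pos hi, MonoidAlgebra.single_mul_single, one_mul]
      · rw [if_neg hi, if_neg hi, zero_mul]
    · intro b _ hb
      simp only [of_apply, if_neg hb, mul_zero]
    · exact fun h => absurd (Finset.mem_univ _) h

theorem dlt_apply {S : Type*} [Fintype S] [DecidableEq S] [MulAction H S] (h : H) (s' s : S) :
    dlt H S h s' s = if s' = h • s then MonoidAlgebra.single h 1 else 0 := by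
  show (if s' = h • s then MonoidAlgebra.single h 1 else 0) = _
  rfl

/-- the ring homomorphism `ℤ[H] → M_S(ℤ[H])`, `h ↦ ∑ E_{h s, s} h` -/
noncomputable def Dlt (H : Type u) [Group H] (S : Type*) [Fintype S] [DecidableEq S]
    [MulAction H S] : MonoidAlgebra ℤ H →+* Matrix S S (MonoidAlgebra ℤ H) :=
  (MonoidAlgebra.lift ℤ (Matrix S S (MonoidAlgebra ℤ H)) H (dlt H S)).toRingHom

theorem Dlt_single (S : Type*) [Fintype S] [DecidableEq S] [MulAction H S] (h : H) (r : ℤ) :
    Dlt H S (MonoidAlgebra.single h r) = r • dlt H S h :=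
  MonoidAlgebra.lift_single _ _ _

/-- linear maps out of `ℤ[H]` agree if they agree on `H` -/
theorem ext_single {M : Type*} [AddCommGroup M] (F G : MonoidAlgebra ℤ H →+ M)
    (h : ∀ g : H, F (MonoidAlgebra.single g 1) = G (MonoidAlgebra.single g 1))
    (x : MonoidAlgebra ℤ H) : F x = G x := by
  induction x using MonoidAlgebra.induction_linear with
  | zero => rw [map_zero, map_zero]
  | add x y hx hy => rw [map_add, map_add, hx, hy]
  | single g r =>
    have e : (MonoidAlgebra.single g r : MonoidAlgebra ℤ H) = r • MonoidAlgebra.single g 1 := by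
      rw [MonoidAlgebra.smul_single, smul_eq_mul, mul_one]
    rw [e, map_zsmul, map_zsmul, h]

variable {n : Type*} [Fintype n] [DecidableEq n]

theorem Dlt_sum (S T : Type*) [Fintype S] [DecidableEq S] [MulAction H S] [Fintype T]
    [DecidableEq T] [MulAction H T] (x : MonoidAlgebra ℤ H) :
    Dlt H (S ⊕ T) x = fromBlocks (Dlt H S x) 0 0 (Dlt H T x) := by
  let G : MonoidAlgebra ℤ H →+ Matrix (S ⊕ T) (S ⊕ T) (MonoidAlgebra ℤ H) :=
    { toFun := fun x => fromBlocks (Dlt H S x) 0 0 (Dlt H T x)
      map_zero' := by simp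
      map_add' := fun x y => by rw [fromBlocks_add]; simp }
  refine ext_single (Dlt H (S ⊕ T)).toAddMonoidHom G (fun g => ?_) x
  show Dlt H (S ⊕ T) (MonoidAlgebra.single g 1) = fromBlocks (Dlt H S (MonoidAlgebra.single g 1))
    0 0 (Dlt H T (MonoidAlgebra.single g 1))
  rw [Dlt_single, Dlt_single, Dlt_single, one_smul, one_smul, one_smul]
  refine Matrix.ext fun i j => ?_
  rcases i with i | i <;> rcases j with j | j
  · rw [fromBlocks_apply₁₁, dlt_apply, dlt_apply, Sum.smul_inl]
    exact if_congr (by rw [Sum.inl.injEq]) rfl rfl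
  · rw [fromBlocks_apply₁₂, dlt_apply, Sum.smul_inr, if_neg Sum.inl_ne_inr]
    rfl
  · rw [fromBlocks_apply₂₁, dlt_apply, Sum.smul_inl, if_neg Sum.inr_ne_inl]
    rfl
  · rw [fromBlocks_apply₂₂, dlt_apply, dlt_apply, Sum.smul_inr]
    exact if_congr (by rw [Sum.inr.injEq]) rfl rfl

/-- the class of the automorphism `X` of `ℤ[H]^n` tensored with the permutation module of `S` -/
noncomputable def dS (S : Type*) [Fintype S] [DecidableEq S] [MulAction H S]
    (X : (Matrix n n (MonoidAlgebra ℤ H))ˣ) : ModTors (K1 (MonoidAlgebra ℤ H)) :=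
  tau (blkU n (Dlt H S) X)

theorem dS_sum (S T : Type*) [Fintype S] [DecidableEq S] [MulAction H S] [Fintype T]
    [DecidableEq T] [MulAction H T] (X : (Matrix n n (MonoidAlgebra ℤ H))ˣ) :
    dS (S ⊕ T) X = dS S X + dS T X := by
  unfold dS
  rw [← tau_diagU, ← tau_reU (Equiv.prodSumDistrib n S T)]
  congr 1
  refine Units.ext ?_
  show (blk n (Dlt H (S ⊕ T)) X.val).submatrix (Equiv.prodSumDistrib n S T).symm
    (Equiv.prodSumDistrib n S T).symm = fromBlocks (blk n (Dlt H S) X.val) 0 0
      (blk n (Dlt H T) X.val)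
  refine Matrix.ext fun i j => ?_
  rcases i with ⟨i, s⟩ | ⟨i, s⟩ <;> rcases j with ⟨j, s'⟩ | ⟨j, s'⟩
  all_goals
    show Dlt H (S ⊕ T) (X.val i j) _ _ = _
    rw [Dlt_sum]
    rfl

theorem zh_torsionfree (D : ℕ) (x : MonoidAlgebra ℤ H) (hD : D ≠ 0) (h : D • x = 0) : x = 0 := by
  let c := MonoidAlgebra.coeffAddEquiv (R := ℤ) (M := H)
  apply c.injective
  have h1 : D • c x = 0 := by rw [← map_nsmul, h, map_zero]
  rw [map_zero]
  ext g
  have h2 := DFunLike.congr_fun h1 g
  rw [Finsupp.smul_apply, nsmul_eq_mul] at h2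
  exact (mul_eq_zero.1 h2).resolve_left (Nat.cast_ne_zero.2 hD)

theorem zh_finite [Finite H] : Module.Finite ℤ (MonoidAlgebra ℤ H) :=
  Module.Finite.equiv
    (AddEquiv.toIntLinearEquiv (MonoidAlgebra.coeffAddEquiv (R := ℤ) (M := H)).symm)

theorem dS_congr [Fintype H] {S T : Type u} [Fintype S] [DecidableEq S] [MulAction H S]
    [Fintype T] [DecidableEq T] [MulAction H T] (h : ∀ g, permChar H S g = permChar H T g)
    (X : (Matrix n n (MonoidAlgebra ℤ H))ˣ) : dS S X = dS T X := by
  obtain ⟨D, φ, ψ, hD, h1, h2, h3⟩ := exists_int_intertwiner h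
  let ι := Int.castRingHom (MonoidAlgebra ℤ H)
  have e1 : φ.map ι * ψ.map ι = D • (1 : Matrix T T (MonoidAlgebra ℤ H)) := by
    rw [← Matrix.map_mul, h1]
    refine Matrix.ext fun i j => ?_
    rw [Matrix.map_apply, Matrix.smul_apply, Matrix.smul_apply, Matrix.one_apply, Matrix.one_apply]
    split_ifs <;> simp
  have e2 : ψ.map ι * φ.map ι = D • (1 : Matrix S S (MonoidAlgebra ℤ H)) := by
    rw [← Matrix.map_mul, h2]
    refine Matrix.ext fun i j => ?_
    rw [Matrix.map_apply, Matrix.smul_apply, Matrix.smul_apply, Matrix.one_apply, Matrix.one_apply]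
    split_ifs <;> simp
  have e3 : ∀ x, φ.map ι * Dlt H S x = Dlt H T x * φ.map ι := by
    let F : MonoidAlgebra ℤ H →+ Matrix T S (MonoidAlgebra ℤ H) :=
      { toFun := fun x => φ.map ι * Dlt H S x
        map_zero' := by rw [map_zero, Matrix.mul_zero]
        map_add' := fun x y => by rw [map_add, Matrix.mul_add] }
    let G : MonoidAlgebra ℤ H →+ Matrix T S (MonoidAlgebra ℤ H) :=
      { toFun := fun x => Dlt H T x * φ.map ι
        map_zero' := by rw [map_zero, Matrix.zero_mul]
        map_add' := fun x y => by rw [map_add, Matrix.add_mul] }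
    intro x
    refine ext_single F G (fun g => ?_) x
    show φ.map ι * Dlt H S (MonoidAlgebra.single g 1) = Dlt H T (MonoidAlgebra.single g 1) * φ.map ι
    rw [Dlt_single, Dlt_single, one_smul, one_smul]
    refine Matrix.ext fun t s => ?_
    rw [Matrix.mul_apply, Matrix.mul_apply, Finset.sum_eq_single (g • s),
      Finset.sum_eq_single (g⁻¹ • t)]
    · rw [dlt_apply, if_pos rfl, dlt_apply, if_pos (smul_inv_smul g t).symm, Matrix.map_apply,
        Matrix.map_apply]
      have h4 := h3 g (g⁻¹ • t) s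
      rw [smul_inv_smul] at h4
      rw [h4]
      exact Int.cast_comm _ _
    · intro b _ hb
      rw [dlt_apply, if_neg, zero_mul]
      rintro rfl
      exact hb (inv_smul_smul g b).symm
    · exact fun h => absurd (Finset.mem_univ _) h
    · intro b _ hb
      rw [dlt_apply, if_neg hb, mul_zero]
    · exact fun h => absurd (Finset.mem_univ _) h
  haveI := zh_finite (H := H)
  refine tau_eq_of_intertwine zh_torsionfree _ _ (infl n (φ.map ι)) (infl n (ψ.map ι)) D hD ?_ ?_ ?_
  · exact infl_intertwine _ _ _ e3 X.val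
  · rw [infl_mul, e1, infl_smul_one]
  · rw [infl_mul, e2, infl_smul_one]

theorem dS_point (X : (Matrix n n (MonoidAlgebra ℤ H))ˣ) :
    dS PUnit.{u + 1} X = tau X := by
  unfold dS
  rw [← tau_reU (Equiv.prodPUnit n)]
  congr 1
  refine Units.ext ?_
  show (blk n (Dlt H PUnit.{u + 1}) X.val).submatrix (Equiv.prodPUnit n).symm
    (Equiv.prodPUnit n).symm = X.val
  refine Matrix.ext fun i j => ?_
  show Dlt H PUnit.{u + 1} (X.val i j) PUnit.unit PUnit.unit = X.val i j
  let F : MonoidAlgebra ℤ H →+ MonoidAlgebra ℤ H :=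
    { toFun := fun x => Dlt H PUnit.{u + 1} x PUnit.unit PUnit.unit
      map_zero' := by rw [map_zero]; rfl
      map_add' := fun x y => by rw [map_add]; rfl }
  refine ext_single F (AddMonoidHom.id _) (fun g => ?_) _
  show Dlt H PUnit.{u + 1} (MonoidAlgebra.single g 1) PUnit.unit PUnit.unit = _
  rw [Dlt_single, one_smul, dlt_apply, if_pos rfl]
  rfl

end Delta

end Pool.Agent.WhK
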