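import Mathlib
import Pool.Agent.Lib_helper44.Wh.Delta

/-!
# The permutation module `ℤ[H/C]`: induction of the restriction
-/

set_option autoImplicit false

universe u

namespace Pool.Agent.WhK

open Matrix

variable {H : Type u} [Group H]

/-- the ring homomorphism induced on integral group rings -/
noncomputable abbrev zmap {A B : Type u} [Group A] [Group B] (f : A →* B) :
    MonoidAlgebra ℤ A →+* MonoidAlgebra ℤ B := MonoidAlgebra.mapDomainRingHom ℤ f

theorem mem_iff_coset (C : Subgroup H) (h : H) (y x : H ⧸ C) :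
    (y.out)⁻¹ * (h * x.out) ∈ C ↔ y = h • x := by
  rw [← QuotientGroup.eq]
  have h1 : ((y.out : H) : H ⧸ C) = y := QuotientGroup.out_eq' y
  have h2 : ((h * x.out : H) : H ⧸ C) = h • x := by
    conv_rhs => rw [← QuotientGroup.out_eq' x]
    rfl
  rw [h1, h2]

open Classical in
/-- the entries of the restriction matrix -/
noncomputable def resEntry (C : Subgroup H) (h : H) (y x : H ⧸ C) : MonoidAlgebra ℤ C :=
  if hm : (y.out)⁻¹ * (h * x.out) ∈ C then MonoidAlgebra.single ⟨_, hm⟩ 1 else 0

theorem resEntry_ne {C : Subgroup H} {h : H} {y x : H ⧸ C} (hne : y ≠ h • x) :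
    resEntry C h y x = 0 := by
  unfold resEntry
  rw [dif_neg (fun hm => hne ((mem_iff_coset C h y x).1 hm))]

theorem resEntry_smul (C : Subgroup H) (h : H) (x : H ⧸ C) :
    resEntry C h (h • x) x =
      MonoidAlgebra.single ⟨((h • x).out)⁻¹ * (h * x.out), (mem_iff_coset C h _ x).2 rfl⟩ 1 := by
  unfold resEntry
  rw [dif_pos]

/-- the restriction matrix -/
noncomputable def res (C : Subgroup H) [Fintype (H ⧸ C)] [DecidableEq (H ⧸ C)] :
    H →* Matrix (H ⧸ C) (H ⧸ C) (MonoidAlgebra ℤ C) where
  toFun h := Matrix.of fun y x => resEntry C h y x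
  map_one' := by
    refine Matrix.ext fun y x => ?_
    rw [of_apply, one_apply]
    by_cases hyx : y = x
    · subst hyx
      rw [if_pos rfl]
      have h1 := resEntry_smul C 1 y
      have e : resEntry C 1 y y = resEntry C 1 ((1 : H) • y) y := by rw [one_smul]
      rw [e, h1, MonoidAlgebra.one_def]
      congr 1
      apply Subtype.ext
      show (((1 : H) • y).out)⁻¹ * (1 * y.out) = 1
      rw [one_smul, one_mul, inv_mul_cancel]
    · rw [if_neg hyx, resEntry_ne (by rwa [one_smul])]
  map_mul' g h := by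
    refine Matrix.ext fun z x => ?_
    rw [of_apply, Matrix.mul_apply, Finset.sum_eq_single (h • x)]
    · rw [of_apply, of_apply]
      by_cases hz : z = g • h • x
      · subst hz
        rw [resEntry_smul, resEntry_smul]
        have e : resEntry C (g * h) (g • h • x) x = resEntry C (g * h) ((g * h) • x) x := by
          rw [mul_smul]
        rw [e, resEntry_smul, MonoidAlgebra.single_mul_single, one_mul]
        congr 1
        apply Subtype.ext
        show (((g * h) • x).out)⁻¹ * (g * h * x.out) = ((g • h • x).out)⁻¹ * (g * (h • x).out) *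
          (((h • x).out)⁻¹ * (h * x.out))
        rw [mul_smul]
        group
      · rw [resEntry_ne hz, zero_mul, resEntry_ne]
        rwa [mul_smul]
    · intro b _ hb
      rw [of_apply, of_apply, resEntry_ne hb, mul_zero]
    · exact fun h => absurd (Finset.mem_univ _) h

/-- the restriction homomorphism `ℤ[H] → M_{H/C}(ℤ[C])` -/
noncomputable def Res (C : Subgroup H) [Fintype (H ⧸ C)] [DecidableEq (H ⧸ C)] :
    MonoidAlgebra ℤ H →+* Matrix (H ⧸ C) (H ⧸ C) (MonoidAlgebra ℤ C) :=
  (MonoidAlgebra.lift ℤ (Matrix (H ⧸ C) (H ⧸ C) (MonoidAlgebra ℤ C)) H (res C)).toRingHom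

theorem Res_single (C : Subgroup H) [Fintype (H ⧸ C)] [DecidableEq (H ⧸ C)] (h : H) (r : ℤ) :
    Res C (MonoidAlgebra.single h r) = r • res C h :=
  MonoidAlgebra.lift_single _ _ _

/-- the diagonal matrix of coset representatives -/
noncomputable def repM (C : Subgroup H) [Fintype (H ⧸ C)] [DecidableEq (H ⧸ C)] :
    Matrix (H ⧸ C) (H ⧸ C) (MonoidAlgebra ℤ H) :=
  Matrix.diagonal fun x => MonoidAlgebra.single x.out 1

noncomputable def repM' (C : Subgroup H) [Fintype (H ⧸ C)] [DecidableEq (H ⧸ C)] :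
    Matrix (H ⧸ C) (H ⧸ C) (MonoidAlgebra ℤ H) :=
  Matrix.diagonal fun x => MonoidAlgebra.single (x.out)⁻¹ 1

theorem repM_mul (C : Subgroup H) [Fintype (H ⧸ C)] [DecidableEq (H ⧸ C)] :
    repM C * repM' C = 1 := by
  unfold repM repM'
  rw [Matrix.diagonal_mul_diagonal, ← Matrix.diagonal_one]
  congr 1
  funext x
  rw [MonoidAlgebra.single_mul_single, mul_inv_cancel, one_mul]
  rfl

theorem repM'_mul (C : Subgroup H) [Fintype (H ⧸ C)] [DecidableEq (H ⧸ C)] :
    repM' C * repM C = 1 := by
  unfold repM repM'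
  rw [Matrix.diagonal_mul_diagonal, ← Matrix.diagonal_one]
  congr 1
  funext x
  rw [MonoidAlgebra.single_mul_single, inv_mul_cancel, one_mul]
  rfl

theorem repM_intertwine (C : Subgroup H) [Fintype (H ⧸ C)] [DecidableEq (H ⧸ C)]
    (x : MonoidAlgebra ℤ H) :
    repM C * (Res C x).map (zmap C.subtype) = Dlt H (H ⧸ C) x * repM C := by
  let F : MonoidAlgebra ℤ H →+ Matrix (H ⧸ C) (H ⧸ C) (MonoidAlgebra ℤ H) :=
    { toFun := fun x => repM C * (Res C x).map (zmap C.subtype)
      map_zero' := by
        rw [map_zero, Matrix.map_zero _ (map_zero _), Matrix.mul_zero]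
      map_add' := fun x y => by
        rw [map_add, Matrix.map_add _ (map_add _), Matrix.mul_add] }
  let G : MonoidAlgebra ℤ H →+ Matrix (H ⧸ C) (H ⧸ C) (MonoidAlgebra ℤ H) :=
    { toFun := fun x => Dlt H (H ⧸ C) x * repM C
      map_zero' := by rw [map_zero, Matrix.zero_mul]
      map_add' := fun x y => by rw [map_add, Matrix.add_mul] }
  refine ext_single F G (fun g => ?_) x
  show repM C * (Res C (MonoidAlgebra.single g 1)).map (zmap C.subtype) =
    Dlt H (H ⧸ C) (MonoidAlgebra.single g 1) * repM C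
  rw [Res_single, Dlt_single, one_smul, one_smul]
  refine Matrix.ext fun y x => ?_
  unfold repM
  rw [Matrix.diagonal_mul, Matrix.mul_diagonal, Matrix.map_apply, dlt_apply]
  show MonoidAlgebra.single y.out 1 * zmap C.subtype (resEntry C g y x) = _
  by_cases hy : y = g • x
  · subst hy
    rw [resEntry_smul, if_pos rfl, MonoidAlgebra.mapDomainRingHom_apply,
      MonoidAlgebra.mapDomain_single, MonoidAlgebra.single_mul_single,
      MonoidAlgebra.single_mul_single]
    congr 1
    show (g • x).out * (((g • x).out)⁻¹ * (g * x.out)) = g * x.out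
    group
  · rw [resEntry_ne hy, if_neg hy, map_zero, mul_zero, zero_mul]

variable {n : Type*} [Fintype n] [DecidableEq n]

theorem dS_quot (C : Subgroup H) [Fintype (H ⧸ C)] [DecidableEq (H ⧸ C)]
    (X : (Matrix n n (MonoidAlgebra ℤ H))ˣ) :
    ∃ y : K1 (MonoidAlgebra ℤ C), dS (H ⧸ C) X = mt (K1.map (zmap C.subtype) y) := by
  refine ⟨cls (blkU n (Res C) X), ?_⟩
  rw [K1.map_cls]
  show tau _ = tau _
  let T : (Matrix (n × (H ⧸ C)) (n × (H ⧸ C)) (MonoidAlgebra ℤ H))ˣ :=
    ⟨infl n (repM C), infl n (repM' C), by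
      rw [infl_mul, repM_mul]
      have := infl_smul_one (n := n) (S := H ⧸ C) (Λ := MonoidAlgebra ℤ H) 1
      rwa [one_smul, one_smul] at this, by
      rw [infl_mul, repM'_mul]
      have := infl_smul_one (n := n) (S := H ⧸ C) (Λ := MonoidAlgebra ℤ H) 1
      rwa [one_smul, one_smul] at this⟩
  rw [← tau_conj T (Units.map (zmap C.subtype).mapMatrix.toMonoidHom (blkU n (Res C) X))]
  congr 1
  rw [eq_mul_inv_iff_mul_eq]
  refine Units.ext ?_
  exact (infl_intertwine ((zmap C.subtype).mapMatrix.comp (Res C)) (Dlt H (H ⧸ C)) (repM C)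
    (repM_intertwine C) X.val).symm

end Pool.Agent.WhK
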