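import Mathlib
import Pool.Agent.Lib_helper44.Wh.Compare

/-!
# `K₁` of a commutative order is generated by units, up to torsion
-/

set_option autoImplicit false

universe u

namespace Pool.Agent.WhK

open Matrix

section Comm

variable {A : Type u} [CommRing A]

theorem exists_int_multiple [Module.Finite ℤ A] (y : A) :
    ∃ (D : ℕ) (z : A), D ≠ 0 ∧ (1 + 2 * y) * z = D := by
  set δ : A := 1 + 2 * y with hδ
  let I : Ideal ℤ := Ideal.span {2}
  let M := A ⧸ Ideal.span {δ}
  have hle : (⊤ : Submodule ℤ M) ≤ I • (⊤ : Submodule ℤ M) := by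
    intro m _
    obtain ⟨a, rfl⟩ := Ideal.Quotient.mk_surjective m
    have h1 : (Ideal.Quotient.mk (Ideal.span {δ}) a) =
        (2 : ℤ) • (Ideal.Quotient.mk (Ideal.span {δ}) (-(y * a))) := by
      rw [← sub_eq_zero, zsmul_eq_mul, Int.cast_ofNat, ← map_ofNat (Ideal.Quotient.mk _) 2,
        ← map_mul, ← map_sub, Ideal.Quotient.eq_zero_iff_mem, Ideal.mem_span_singleton]
      exact ⟨a, by rw [hδ]; ring⟩
    rw [h1]
    exact Submodule.smul_mem_smul (Ideal.mem_span_singleton_self 2) trivial
  haveI : Module.Finite ℤ M :=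
    Module.Finite.of_surjective (Ideal.Quotient.mk (Ideal.span {δ})).toIntAlgHom.toLinearMap
      Ideal.Quotient.mk_surjective
  obtain ⟨r, hr1, hr2⟩ := Submodule.exists_sub_one_mem_and_smul_eq_zero_of_fg_of_le_smul I
    (⊤ : Submodule ℤ M) Module.Finite.fg_top hle
  have hr0 : r ≠ 0 := by
    rintro rfl
    rw [Ideal.mem_span_singleton] at hr1
    omega
  have h2 := hr2 (Ideal.Quotient.mk (Ideal.span {δ}) 1) trivial
  rw [zsmul_eq_mul, ← map_intCast (Ideal.Quotient.mk (Ideal.span {δ})), ← map_mul, mul_one,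
    Ideal.Quotient.eq_zero_iff_mem, Ideal.mem_span_singleton] at h2
  obtain ⟨z, hz⟩ := h2
  rcases Int.natAbs_eq r with h | h
  · exact ⟨r.natAbs, z, Int.natAbs_ne_zero.2 hr0, by rw [← hz, h]; simp⟩
  · refine ⟨r.natAbs, -z, Int.natAbs_ne_zero.2 hr0, ?_⟩
    have h3 : (r : A) = -((r.natAbs : ℕ) : A) := by
      conv_lhs => rw [h]
      rw [Int.cast_neg, Int.cast_natCast]
    rw [mul_neg, ← hz, h3, neg_neg]

theorem tau_fin_one (u : Aˣ) :
    tau (Units.map (Matrix.scalar (Fin 1)).toMonoidHom u : (Matrix (Fin 1) (Fin 1) A)ˣ) =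
      mt (K1.ofUnit u) := by
  unfold tau
  rw [cls_eq (Equiv.refl (Fin 1))]
  rfl

/-- permutation matrices are trivial modulo torsion -/
theorem tau_permU {R : Type u} [Ring R] {ι : Type*} [Fintype ι] [DecidableEq ι] (σ : ι ≃ ι) :
    tau (permU R σ) = 0 := by
  have hmul : ∀ σ τ : ι ≃ ι, permU R (τ.trans σ) = permU R σ * permU R τ := by
    intro σ τ
    ext1
    show (1 : Matrix ι ι R).submatrix (τ.trans σ).symm id =
      (1 : Matrix ι ι R).submatrix σ.symm id * (1 : Matrix ι ι R).submatrix τ.symm id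
    ext i j
    rw [Matrix.mul_apply, Finset.sum_eq_single (σ.symm i)]
    · simp only [submatrix_apply, Equiv.symm_trans_apply, id_eq, one_apply, if_true, one_mul]
      rfl
    · intro b _ hb
      rw [submatrix_apply, id_eq, one_apply, if_neg (Ne.symm hb), zero_mul]
    · exact fun h => absurd (Finset.mem_univ _) h
  have hpow : ∀ (k : ℕ), tau (permU R ((σ : Equiv.Perm ι) ^ k)) = k • tau (permU R σ) := by
    intro k
    induction k with
    | zero =>
      rw [pow_zero, zero_smul]
      have : permU R (1 : Equiv.Perm ι) = 1 := Units.ext (by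
        show (1 : Matrix ι ι R).submatrix _ _ = 1
        ext i j
        rfl)
      rw [this, tau_one]
    | succ k ih =>
      have : permU R ((σ : Equiv.Perm ι) ^ (k + 1)) =
          permU R ((σ : Equiv.Perm ι) ^ k) * permU R σ := by
        rw [pow_succ]
        exact hmul ((σ : Equiv.Perm ι) ^ k) σ
      rw [this, tau_mul, ih, succ_nsmul]
  have h := hpow (orderOf (σ : Equiv.Perm ι))
  rw [pow_orderOf_eq_one] at h
  have h1 : permU R (1 : Equiv.Perm ι) = 1 := Units.ext (by
    show (1 : Matrix ι ι R).submatrix _ _ = 1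
    ext i j
    rfl)
  rw [h1, tau_one] at h
  exact ModTors.eq_zero (orderOf_pos _) h.symm

theorem tau_companion {k : ℕ} (Z : (Matrix (Fin (k + 1)) (Fin (k + 1)) A)ˣ)
    (C : (Matrix (Fin (k + 1)) (Fin (k + 1)) A)ˣ)
    (hC : ∀ i j, C.val i j = if j = Fin.last k then -Z.val.charpoly.coeff i.val else
      if i.val = j.val + 1 then 1 else 0) :
    ∃ u : Aˣ, tau C = mt (K1.ofUnit u) := by
  set σ := finRotate (k + 1) with hσ
  let W : Matrix (Fin (k + 1)) (Fin 1) A := Matrix.of fun i _ =>
    -Z.val.charpoly.coeff (σ i).val - if i = Fin.last k then 1 else 0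
  let E : Matrix (Fin 1) (Fin (k + 1)) A := Matrix.of fun _ j => if j = Fin.last k then 1 else 0
  -- `C = P U`, with `U = 1 + W E`
  have hσlt : ∀ i : Fin (k + 1), i ≠ Fin.last k → (σ i).val = i.val + 1 := by
    intro i hi
    have hlt : i.val < k := lt_of_le_of_ne (Nat.lt_succ_iff.1 i.2) fun h => hi (Fin.ext h)
    have := finRotate_of_lt hlt
    rw [hσ]
    exact congrArg Fin.val this
  have hσlast : σ (Fin.last k) = 0 := finRotate_last
  have hval : ((permU A σ)⁻¹ * C).val = 1 + W * E := by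
    ext i j
    have h1 : ((permU A σ)⁻¹ * C).val i j = C.val (σ i) j := by
      show ((1 : Matrix (Fin (k + 1)) (Fin (k + 1)) A).submatrix id σ.symm * C.val) i j = _
      rw [Matrix.mul_apply, Finset.sum_eq_single (σ i)]
      · rw [submatrix_apply, id_eq, Equiv.symm_apply_apply, one_apply_eq, one_mul]
      · intro b _ hb
        rw [submatrix_apply, id_eq, one_apply, if_neg, zero_mul]
        rintro rfl
        exact hb (σ.apply_symm_apply b).symm
      · exact fun h => absurd (Finset.mem_univ _) h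
    have h2 : (W * E) i j = W i 0 * E 0 j := by
      rw [Matrix.mul_apply, Fin.sum_univ_one]
    rw [h1, Matrix.add_apply, h2, hC]
    show _ = (1 : Matrix (Fin (k + 1)) (Fin (k + 1)) A) i j +
      (-Z.val.charpoly.coeff (σ i).val - if i = Fin.last k then 1 else 0) *
        (if j = Fin.last k then 1 else 0)
    rw [one_apply]
    by_cases hj : j = Fin.last k
    · subst hj
      rw [if_pos rfl, if_pos rfl, mul_one]
      ring
    · rw [if_neg hj, if_neg hj, mul_zero, add_zero]
      by_cases hi : i = Fin.last k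
      · subst hi
        rw [hσlast, if_neg (by simp), if_neg (Ne.symm hj)]
      · rw [hσlt i hi]
        congr 1
        rw [eq_iff_iff, Fin.ext_iff]
        omega
  have hdet : IsUnit (1 + E * W).det := by
    rw [← det_one_add_mul_comm, ← hval]
    exact (isUnit_iff_isUnit_det _).1 ((permU A σ)⁻¹ * C).isUnit
  obtain ⟨V, hV⟩ := (isUnit_iff_isUnit_det _).2 hdet
  rw [det_fin_one] at hdet
  obtain ⟨u, hu⟩ := hdet
  refine ⟨u, ?_⟩
  have h1 := tau_one_add_mul W E ((permU A σ)⁻¹ * C) V hval hV
  rw [tau_mul, tau_inv, tau_permU, neg_zero, zero_add] at h1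
  rw [h1, ← tau_fin_one]
  congr 1
  ext1
  rw [hV]
  ext i j
  rw [Subsingleton.elim i 0, Subsingleton.elim j 0, ← hu]
  show u.val = Matrix.scalar (Fin 1) u.val 0 0
  simp

theorem krylov_mod_two {k : ℕ} (Z γ : Matrix (Fin (k + 1)) (Fin (k + 1)) A)
    (hZ : Z = (permU A (finRotate (k + 1))).val + 2 • γ) (j : ℕ) (hj : j < k + 1) :
    ∃ g : Fin (k + 1) → A, (Z ^ j).mulVec (Pi.single 0 1) = Pi.single ⟨j, hj⟩ 1 + 2 • g := by
  induction j with
  | zero => exact ⟨0, by rw [pow_zero, one_mulVec, smul_zero, add_zero]; rfl⟩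
  | succ j ih =>
    obtain ⟨g, hg⟩ := ih (by omega)
    refine ⟨γ.mulVec (Pi.single ⟨j, by omega⟩ 1) + Z.mulVec g, ?_⟩
    rw [pow_succ', ← mulVec_mulVec, hg, mulVec_add, mulVec_smul]
    conv_lhs => rw [hZ]
    rw [add_mulVec, smul_mulVec, smul_add]
    have h1 : (permU A (finRotate (k + 1))).val.mulVec (Pi.single ⟨j, by omega⟩ 1) =
        Pi.single ⟨j + 1, hj⟩ 1 := by
      rw [mulVec_single_one]
      ext i
      show (1 : Matrix (Fin (k + 1)) (Fin (k + 1)) A) ((finRotate (k + 1)).symm i) ⟨j, _⟩ = _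
      rw [one_apply, Pi.single_apply]
      congr 1
      rw [Equiv.symm_apply_eq, finRotate_of_lt (by omega : j < k)]
    rw [h1, ← hZ, add_assoc]

/-- **Bass**: `K₁` of a commutative order is generated by the units, up to torsion. -/
theorem exists_unit_class [Module.Finite ℤ A]
    (htf : ∀ (D : ℕ) (x : A), D ≠ 0 → D • x = 0 → x = 0) {k : ℕ}
    (X : (Matrix (Fin (k + 1)) (Fin (k + 1)) A)ˣ) :
    ∃ (N : ℕ) (u : Aˣ), 0 < N ∧ N • tau X = mt (K1.ofUnit u) := by
  classical
  haveI : Module.Finite ℤ (Matrix (Fin (k + 1)) (Fin (k + 1)) A) :=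
    inferInstanceAs (Module.Finite ℤ (Fin (k + 1) → Fin (k + 1) → A))
  obtain ⟨N, γ₀, hN, hγ₀⟩ := exists_pow_eq_one_add 2 two_ne_zero X
  set P := permU A (finRotate (k + 1)) with hP
  set Z : (Matrix (Fin (k + 1)) (Fin (k + 1)) A)ˣ := X ^ N * P with hZ
  have hZval : Z.val = P.val + 2 • (γ₀ * P.val) := by
    rw [hZ, Units.val_mul, hγ₀, add_mul, one_mul, smul_mul_assoc]
  -- the Krylov matrix
  let v : ℕ → Fin (k + 1) → A := fun j => (Z.val ^ j).mulVec (Pi.single 0 1)
  let φ : Matrix (Fin (k + 1)) (Fin (k + 1)) A := Matrix.of fun i j => v j.val i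
  choose g hg using krylov_mod_two Z.val (γ₀ * P.val) hZval
  let G : Matrix (Fin (k + 1)) (Fin (k + 1)) A := Matrix.of fun i j => g j.val j.2 i
  have hφ : φ = 1 + 2 • G := by
    ext i j
    show v j.val i = (1 : Matrix (Fin (k + 1)) (Fin (k + 1)) A) i j + 2 • g j.val j.2 i
    have h1 := congrFun (hg j.val j.2) i
    rw [show v j.val i = _ from h1, Pi.add_apply, Pi.smul_apply, Pi.single_apply, one_apply]
  have hdet : ∃ y : A, φ.det = 1 + 2 * y := by
    let q := Ideal.Quotient.mk (Ideal.span {(2 : A)})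
    have h1 : q φ.det = 1 := by
      rw [RingHom.map_det, hφ, map_add, map_one]
      have h2 : q.mapMatrix (2 • G) = 0 := by
        ext i j
        show q (2 • G i j) = 0
        rw [two_nsmul, ← two_mul, Ideal.Quotient.eq_zero_iff_mem, Ideal.mem_span_singleton]
        exact Dvd.intro _ rfl
      rw [h2, add_zero, det_one]
    have h2 : φ.det - 1 ∈ Ideal.span {(2 : A)} := by
      rw [← Ideal.Quotient.eq_zero_iff_mem]
      show q (φ.det - 1) = 0
      rw [map_sub, h1, map_one, sub_self]
    obtain ⟨y, hy⟩ := Ideal.mem_span_singleton.1 h2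
    exact ⟨y, by rw [← hy]; ring⟩
  obtain ⟨y, hy⟩ := hdet
  obtain ⟨D, z, hD, hz⟩ := exists_int_multiple y
  rw [← hy] at hz
  -- the companion matrix
  let C : Matrix (Fin (k + 1)) (Fin (k + 1)) A := Matrix.of fun i j =>
    if j = Fin.last k then -Z.val.charpoly.coeff i.val else if i.val = j.val + 1 then 1 else 0
  have hCH : v (k + 1) = fun i => ∑ l : Fin (k + 1), v l.val i * -Z.val.charpoly.coeff l.val := by
    cases subsingleton_or_nontrivial A with
    | inl hs => exact Subsingleton.elim _ _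
    | inr hn =>
      have h1 := aeval_self_charpoly Z.val
      have hdeg : Z.val.charpoly.natDegree = k + 1 := by
        rw [charpoly_natDegree_eq_dim, Fintype.card_fin]
      have hlead : Z.val.charpoly.coeff (k + 1) = 1 := by
        have := (charpoly_monic Z.val).coeff_natDegree
        rwa [hdeg] at this
      rw [Polynomial.aeval_eq_sum_range, hdeg, Finset.sum_range_succ, hlead, one_smul] at h1
      have h2 : Z.val ^ (k + 1) = -∑ x ∈ Finset.range (k + 1), Z.val.charpoly.coeff x • Z.val ^ x :=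
        eq_neg_of_add_eq_zero_right h1
      ext i
      show ((Z.val ^ (k + 1)).mulVec (Pi.single 0 1)) i = _
      rw [h2, Finset.sum_range, neg_mulVec, Pi.neg_apply, Matrix.sum_mulVec, Finset.sum_apply,
        ← Finset.sum_neg_distrib]
      refine Finset.sum_congr rfl fun l _ => ?_
      rw [smul_mulVec, Pi.smul_apply, smul_eq_mul, mul_neg, mul_comm]
  have hZφ : Z.val * φ = φ * C := by
    ext i j
    have h1 : (Z.val * φ) i j = v (j.val + 1) i := by
      show _ = ((Z.val ^ (j.val + 1)).mulVec (Pi.single 0 1)) i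
      rw [pow_succ', ← mulVec_mulVec]
      rfl
    rw [h1, Matrix.mul_apply]
    by_cases hj : j = Fin.last k
    · subst hj
      have h2 := congrFun hCH i
      rw [Fin.val_last, h2]
      refine Finset.sum_congr rfl fun l _ => ?_
      show _ = v l.val i * (if Fin.last k = Fin.last k then _ else _)
      rw [if_pos rfl]
    · have hlt : j.val + 1 < k + 1 := by
        have : j.val ≠ k := fun h => hj (Fin.ext h)
        omega
      rw [Finset.sum_eq_single (⟨j.val + 1, hlt⟩ : Fin (k + 1))]
      · show _ = v (j.val + 1) i * (if j = Fin.last k then _ else if j.val + 1 = j.val + 1 then 1 else 0)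
        rw [if_neg hj, if_pos rfl, mul_one]
      · intro b _ hb
        show v b.val i * (if j = Fin.last k then _ else if b.val = j.val + 1 then 1 else 0) = 0
        rw [if_neg hj, if_neg (fun h => hb (Fin.ext h)), mul_zero]
      · exact fun h => absurd (Finset.mem_univ _) h
  have hCdet : IsUnit C.det := by
    have h1 : φ.det * (Z.val.det - C.det) = 0 := by
      have := congrArg Matrix.det hZφ
      rw [det_mul, det_mul] at this
      rw [mul_sub, mul_comm φ.det Z.val.det, this, sub_self]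
    have h2 : D • (Z.val.det - C.det) = 0 := by
      rw [nsmul_eq_mul, ← hz, mul_comm φ.det z, mul_assoc, h1, mul_zero]
    rw [← sub_eq_zero.1 (htf D _ hD h2)]
    exact (isUnit_iff_isUnit_det _).1 Z.isUnit
  obtain ⟨C', hC'⟩ := (isUnit_iff_isUnit_det _).2 hCdet
  obtain ⟨u, hu⟩ := tau_companion Z C' fun i j => by rw [hC']; rfl
  have h3 : tau C' = tau Z := by
    refine tau_eq_of_intertwine htf C' Z φ (z • φ.adjugate) D hD ?_ ?_ ?_
    · rw [hC', hZφ]
    · rw [Matrix.mul_smul, mul_adjugate, smul_smul, mul_comm z, hz, Nat.cast_smul_eq_nsmul]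
    · rw [Matrix.smul_mul, adjugate_mul, smul_smul, mul_comm z, hz, Nat.cast_smul_eq_nsmul]
  refine ⟨N, u, hN, ?_⟩
  rw [← hu, h3, hZ, tau_mul, tau_pow, hP, tau_permU, add_zero]

end Comm

end Pool.Agent.WhK
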