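import Mathlib
import Pool.Agent.Lib_helper44.Wh.Artin
import Pool.Agent.Lib_helper44.Wh.Quot
import Pool.Agent.Lib_helper44.Wh.SK1

/-!
# Artin induction for `K₁(ℤ[H])`
-/

set_option autoImplicit false

universe u

namespace Pool.Agent.WhK

open Matrix

section Sat

variable {A : Type*} [AddCommGroup A]

/-- the elements with a nonzero multiple in a given subgroup -/
def sat (B : AddSubgroup A) : AddSubgroup A where
  carrier := {x | ∃ N : ℕ, 0 < N ∧ N • x ∈ B}
  zero_mem' := ⟨1, Nat.one_pos, by rw [smul_zero]; exact B.zero_mem⟩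
  add_mem' := by
    rintro x y ⟨N, hN, hx⟩ ⟨M, hM, hy⟩
    refine ⟨N * M, Nat.mul_pos hN hM, ?_⟩
    rw [smul_add]
    refine B.add_mem ?_ ?_
    · rw [mul_comm, mul_smul]
      exact B.nsmul_mem hx M
    · rw [mul_smul]
      exact B.nsmul_mem hy N
  neg_mem' := by
    rintro x ⟨N, hN, hx⟩
    exact ⟨N, hN, by rw [smul_neg]; exact B.neg_mem hx⟩

theorem mem_sat {B : AddSubgroup A} {x : A} : x ∈ sat B ↔ ∃ N : ℕ, 0 < N ∧ N • x ∈ B := Iff.rfl

theorem le_sat (B : AddSubgroup A) : B ≤ sat B := fun x hx => ⟨1, Nat.one_pos, by rwa [one_smul]⟩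

theorem mem_sat_of_nsmul {B : AddSubgroup A} {x : A} {N : ℕ} (hN : 0 < N) (h : N • x ∈ sat B) :
    x ∈ sat B := by
  obtain ⟨M, hM, h⟩ := h
  exact ⟨M * N, Nat.mul_pos hM hN, by rwa [mul_smul]⟩

theorem mem_sat_of_mt {B : AddSubgroup A} {x y : A} (h : mt x = mt y) (hy : y ∈ sat B) :
    x ∈ sat B := by
  rw [← sub_eq_zero, ← map_sub, mt_eq_zero] at h
  obtain ⟨n, hn, h⟩ := h
  apply mem_sat_of_nsmul hn
  rw [smul_sub, sub_eq_zero] at h
  rw [h]
  exact (sat B).nsmul_mem hy n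

end Sat

section FSet

variable (H : Type u) [Group H]

/-- a finite `H`-set -/
structure FS where
  S : Type u
  fin : Fintype S
  dec : DecidableEq S
  act : MulAction H S

attribute [instance] FS.fin FS.dec FS.act

variable {H} {n : Type*} [Fintype n] [DecidableEq n]

/-- the pair of the permutation character and the class -/
noncomputable def FS.pr (X : (Matrix n n (MonoidAlgebra ℤ H))ˣ) (s : FS H) :
    (H → ℤ) × ModTors (K1 (MonoidAlgebra ℤ H)) := (permChar H s.S, dS s.S X)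

/-- disjoint union -/
def FS.sum (s t : FS H) : FS H := ⟨s.S ⊕ t.S, inferInstance, inferInstance, inferInstance⟩

theorem FS.pr_sum (X : (Matrix n n (MonoidAlgebra ℤ H))ˣ) (s t : FS H) :
    (s.sum t).pr X = s.pr X + t.pr X :=
  Prod.ext (funext fun h => permChar_sum s.S t.S h) (dS_sum s.S t.S X)

/-- the point -/
def FS.pt : FS H := ⟨PUnit.{u + 1}, inferInstance, inferInstance, inferInstance⟩

theorem FS.pr_pt (X : (Matrix n n (MonoidAlgebra ℤ H))ˣ) :
    (FS.pt : FS H).pr X = (fun _ => 1, tau X) := by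
  refine Prod.ext (funext fun h => ?_) (dS_point X)
  show permChar H PUnit.{u + 1} h = 1
  unfold permChar
  rw [Fintype.sum_unique, if_pos rfl]

/-- the elements of the group generated by the pairs are differences of pairs -/
theorem FS.exists_sub (X : (Matrix n n (MonoidAlgebra ℤ H))ˣ)
    {z : (H → ℤ) × ModTors (K1 (MonoidAlgebra ℤ H))}
    (hz : z ∈ AddSubgroup.closure (Set.range (FS.pr X))) : ∃ s t : FS H, z = s.pr X - t.pr X := by
  induction hz using AddSubgroup.closure_induction with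
  | mem z hz =>
    obtain ⟨s, rfl⟩ := hz
    exact ⟨s.sum FS.pt, FS.pt, by rw [FS.pr_sum, add_sub_cancel_right]⟩
  | zero => exact ⟨FS.pt, FS.pt, (sub_self _).symm⟩
  | add a b _ _ ha hb =>
    obtain ⟨s, t, rfl⟩ := ha
    obtain ⟨s', t', rfl⟩ := hb
    exact ⟨s.sum s', t.sum t', by rw [FS.pr_sum, FS.pr_sum]; abel⟩
  | neg a _ ha =>
    obtain ⟨s, t, rfl⟩ := ha
    exact ⟨t, s, (neg_sub _ _)⟩

theorem FS.snd_eq_zero [Fintype H] (X : (Matrix n n (MonoidAlgebra ℤ H))ˣ)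
    {z : (H → ℤ) × ModTors (K1 (MonoidAlgebra ℤ H))}
    (hz : z ∈ AddSubgroup.closure (Set.range (FS.pr X))) (h0 : z.1 = 0) : z.2 = 0 := by
  obtain ⟨s, t, rfl⟩ := FS.exists_sub X hz
  have h1 : permChar H s.S = permChar H t.S := sub_eq_zero.1 h0
  have h2 : dS s.S X = dS t.S X := dS_congr (fun g => congrFun h1 g) X
  exact sub_eq_zero.2 h2

end FSet

section Main

variable {H : Type u} [Group H] [Fintype H] {n : ℕ}

/-- the subgroup of `K₁(ℤ[H])` generated by the units of `ℤ[C]`, `C ≤ H` cyclic -/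
noncomputable def cycUnits (H : Type u) [Group H] : AddSubgroup (K1 (MonoidAlgebra ℤ H)) :=
  AddSubgroup.closure {y | ∃ (C : Subgroup H) (_ : IsCyclic C) (u : (MonoidAlgebra ℤ C)ˣ),
    y = K1.ofUnit (Units.map (zmap C.subtype).toMonoidHom u)}

theorem unit_mem_cycUnits (C : Subgroup H) (hC : IsCyclic C) (u : (MonoidAlgebra ℤ C)ˣ) :
    K1.ofUnit (Units.map (zmap C.subtype).toMonoidHom u) ∈ cycUnits H :=
  AddSubgroup.subset_closure ⟨C, hC, u, rfl⟩

omit [Fintype H] in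
theorem tau_eq_mk {R : Type u} [Ring R] {n : ℕ} (Y : (Matrix (Fin n) (Fin n) R)ˣ) :
    tau Y = mt (K1.mk n Y) := by
  unfold tau
  rw [cls_eq (Equiv.refl (Fin n))]
  rfl

theorem map_mem_sat (C : Subgroup H) (hC : IsCyclic C) (y : K1 (MonoidAlgebra ℤ C)) :
    K1.map (zmap C.subtype) y ∈ sat (cycUnits H) := by
  obtain ⟨n, Y, rfl⟩ := K1.exists_mk y
  rcases n with _ | k
  · have h1 : Y = 1 := Units.ext (Subsingleton.elim _ _)
    rw [h1, K1.mk_one, map_zero]
    exact AddSubgroup.zero_mem _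
  · letI : CommGroup C := hC.commGroup
    haveI : Module.Finite ℤ (MonoidAlgebra ℤ C) := zh_finite
    obtain ⟨N, u, hN, h⟩ := exists_unit_class (A := MonoidAlgebra ℤ C) zh_torsionfree Y
    have h1 : tau (Y : (Matrix (Fin (k + 1)) (Fin (k + 1)) (MonoidAlgebra ℤ C))ˣ) =
        mt (K1.mk (k + 1) Y) := tau_eq_mk Y
    rw [h1, ← map_nsmul, ← sub_eq_zero, ← map_sub, mt_eq_zero] at h
    obtain ⟨M, hM, h⟩ := h
    refine ⟨M * N, Nat.mul_pos hM hN, ?_⟩
    rw [smul_sub, sub_eq_zero] at h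
    have h2 := congrArg (K1.map (zmap C.subtype)) h
    rw [map_nsmul, map_nsmul, map_nsmul, K1.map_ofUnit] at h2
    rw [mul_smul]
    have h3 : M • K1.ofUnit (Units.map (zmap C.subtype).toMonoidHom u) ∈ cycUnits H :=
      AddSubgroup.nsmul_mem _ (unit_mem_cycUnits C hC u) M
    exact h2 ▸ h3

theorem exists_snd (X : (Matrix (Fin n) (Fin n) (MonoidAlgebra ℤ H))ˣ) {f : H → ℤ}
    (hf : f ∈ cycChars H) : ∃ v ∈ sat ((cycUnits H).map mt),
      (f, v) ∈ AddSubgroup.closure (Set.range (FS.pr X)) := by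
  classical
  unfold cycChars at hf
  induction hf using AddSubgroup.closure_induction with
  | mem f hf =>
    obtain ⟨C, hC, hF, rfl⟩ := hf
    obtain ⟨y, hy⟩ := dS_quot C X
    refine ⟨dS (H ⧸ C) X, ?_, AddSubgroup.subset_closure
      ⟨⟨H ⧸ C, inferInstance, inferInstance, inferInstance⟩, rfl⟩⟩
    rw [hy]
    obtain ⟨N, hN, h⟩ := map_mem_sat C hC y
    refine ⟨N, hN, ?_⟩
    rw [← map_nsmul]
    exact AddSubgroup.mem_map_of_mem _ h
  | zero => exact ⟨0, AddSubgroup.zero_mem _, AddSubgroup.zero_mem _⟩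
  | add f g _ _ hf hg =>
    obtain ⟨v, hv, h⟩ := hf
    obtain ⟨w, hw, h'⟩ := hg
    exact ⟨v + w, AddSubgroup.add_mem _ hv hw, AddSubgroup.add_mem _ h h'⟩
  | neg f _ hf =>
    obtain ⟨v, hv, h⟩ := hf
    exact ⟨-v, AddSubgroup.neg_mem _ hv, AddSubgroup.neg_mem _ h⟩

theorem artin_tau (X : (Matrix (Fin n) (Fin n) (MonoidAlgebra ℤ H))ˣ) :
    Nat.card H • tau X ∈ sat ((cycUnits H).map mt) := by
  obtain ⟨v, hv, h1⟩ := exists_snd X (artin (H := H))
  have h2 : (Nat.card H) • ((FS.pt : FS H).pr X) ∈ AddSubgroup.closure (Set.range (FS.pr X)) :=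
    AddSubgroup.nsmul_mem _ (AddSubgroup.subset_closure (Set.mem_range_self _)) _
  rw [FS.pr_pt] at h2
  have h3 := FS.snd_eq_zero _ (AddSubgroup.sub_mem _ h2 h1) (by
    funext h
    show Nat.card H • (1 : ℤ) - (Nat.card H : ℤ) = 0
    simp)
  have h4 : Nat.card H • tau X = v := sub_eq_zero.1 h3
  rwa [h4]

/-- **Artin induction** for `K₁(ℤ[H])`: up to multiples, every element is a sum of classes of units
of the group rings of cyclic subgroups. -/
theorem artin_K1 (x : K1 (MonoidAlgebra ℤ H)) : x ∈ sat (cycUnits H) := by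
  obtain ⟨n, X, rfl⟩ := K1.exists_mk x
  have h1 : Nat.card H • mt (K1.mk n X) ∈ sat ((cycUnits H).map mt) := by
    have h := artin_tau X
    have e : tau (X : (Matrix (Fin n) (Fin n) (MonoidAlgebra ℤ H))ˣ) = mt (K1.mk n X) :=
      tau_eq_mk X
    exact e ▸ h
  rw [← map_nsmul] at h1
  obtain ⟨N, hN, y, hy, h5⟩ := h1
  apply mem_sat_of_nsmul (N := N * Nat.card H) (Nat.mul_pos hN Nat.card_pos)
  refine mem_sat_of_mt (y := y) ?_ (le_sat _ hy)
  rw [h5, mul_smul, map_nsmul]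

end Main

end Pool.Agent.WhK
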