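import Mathlib

/-!
# Cyclic trace calculus

`CycData N B M`: a ring `B` with an action of `ZMod N` and a twisted trace `T : B → M`,
`T (a b) = T (b ρ₁(a))`. For a triple `(U, W, z)` with `U, W` invariant units of `B` and
`∑ ρ_i z = U - W` we define `gam U⁻¹ W⁻¹ z ∈ M` and prove that it is multiplicative in `(U, W)` and
independent of `z`.
-/

set_option autoImplicit false

namespace Pool.Agent.WhK

open Finset

/-- A ring with a cyclic action and a twisted trace. -/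
structure CycData (N : ℕ) [NeZero N] (B M : Type*) [Ring B] [AddCommGroup M]
    [Module (ZMod N) M] where
  ρ : ZMod N → B →+* B
  ρ_zero : ∀ x, ρ 0 x = x
  ρ_add : ∀ i j x, ρ (i + j) x = ρ i (ρ j x)
  T : B →+ M
  T_mul : ∀ a b, T (a * b) = T (b * ρ 1 a)
  T_norm : ∀ b, ∑ i, ρ i b = 0 → T b = 0

namespace CycData

variable {N : ℕ} [NeZero N] {B M : Type*} [Ring B] [AddCommGroup M] [Module (ZMod N) M]
variable (D : CycData N B M)

theorem T_rho_one (x : B) : D.T (D.ρ 1 x) = D.T x := by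
  have h := D.T_mul x 1
  rw [mul_one, one_mul] at h
  exact h.symm

theorem T_rho_nat (n : ℕ) (x : B) : D.T (D.ρ (n : ZMod N) x) = D.T x := by
  induction n generalizing x with
  | zero => rw [Nat.cast_zero, D.ρ_zero]
  | succ n ih =>
    rw [Nat.cast_succ, D.ρ_add, ih, D.T_rho_one]

theorem T_rho (i : ZMod N) (x : B) : D.T (D.ρ i x) = D.T x := by
  have h := D.T_rho_nat i.val x
  rwa [ZMod.natCast_zmod_val] at h

theorem T_swap (a b : B) (j : ZMod N) : D.T (a * D.ρ j b) = D.T (b * D.ρ (1 - j) a) := by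
  rw [D.T_mul]
  have h : D.ρ j b * D.ρ 1 a = D.ρ j (b * D.ρ (1 - j) a) := by
    rw [map_mul, ← D.ρ_add]
    have e : j + (1 - j) = 1 := by ring
    rw [e]
  rw [h, D.T_rho]

/-- the invariant of a triple (with the inverses of the first two entries given) -/
def gam (Ui Wi z : B) : M :=
  D.T (Ui * z) + ∑ j : ZMod N, (1 - j) • D.T (Ui * z * Wi * D.ρ j z)

/-- equivariant matrices -/
def Equi (X : Matrix (ZMod N) (ZMod N) B) : Prop :=
  ∀ i j k, X (i + k) (j + k) = D.ρ k (X i j)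

/-- weighted trace -/
def dl (X Y : Matrix (ZMod N) (ZMod N) B) : M :=
  ∑ j : ZMod N, (1 - j) • D.T (X 0 j * Y j 1)

variable {D}

theorem Equi.mul {X Y : Matrix (ZMod N) (ZMod N) B} (hX : D.Equi X) (hY : D.Equi Y) :
    D.Equi (X * Y) := by
  intro i j k
  rw [Matrix.mul_apply, Matrix.mul_apply, map_sum]
  refine (Fintype.sum_equiv (Equiv.addRight k) _ _ fun l => ?_).symm
  rw [map_mul, Equiv.coe_addRight, hX, hY]

theorem rot3 {A P C : Matrix (ZMod N) (ZMod N) B} (hA : D.Equi A) (hP : D.Equi P)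
    (hC : D.Equi C) :
    ∑ i : ZMod N, ∑ j : ZMod N, (j - i) • D.T (A 0 i * P i j * C j 1) = D.dl (C * A) P := by
  unfold dl
  have h1 : ∀ r : ZMod N, (1 - r) • D.T ((C * A) 0 r * P r 1) =
      ∑ s : ZMod N, (1 - r) • D.T (C 0 s * A s r * P r 1) := by
    intro r
    rw [Matrix.mul_apply, Finset.sum_mul, map_sum, Finset.smul_sum]
  rw [Finset.sum_congr rfl fun r _ => h1 r]
  rw [← Fintype.sum_prod_type' (f := fun i j : ZMod N => (j - i) • D.T (A 0 i * P i j * C j 1)),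
    ← Fintype.sum_prod_type' (f := fun r s : ZMod N => (1 - r) • D.T (C 0 s * A s r * P r 1))]
  refine Fintype.sum_equiv
    ⟨fun x => (x.1 + 1 - x.2, 1 - x.2), fun y => (y.1 - y.2, 1 - y.2),
      fun x => Prod.ext (by simp) (by simp), fun y => Prod.ext (by ring_nf) (by simp)⟩ _ _ ?_
  rintro ⟨i, j⟩
  simp only [Equiv.coe_fn_mk]
  have e1 : (1 : ZMod N) - (i + 1 - j) = j - i := by ring
  rw [e1]
  congr 1
  rw [D.T_mul (A 0 i * P i j) (C j 1), ← D.T_rho j (C 0 (1 - j) * A (1 - j) (i + 1 - j) *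
    P (i + 1 - j) 1), map_mul (D.ρ 1), map_mul (D.ρ j), map_mul (D.ρ j), ← hC, ← hA, ← hP, ← hA,
    ← hP]
  have e2 : (0 : ZMod N) + j = j := by ring
  have e3 : (1 : ZMod N) - j + j = 1 := by ring
  have e4 : i + 1 - j + j = i + 1 := by ring
  rw [e2, e3, e4, zero_add, add_comm 1 j, mul_assoc]

theorem dl_mul {X Xi Y Yi : Matrix (ZMod N) (ZMod N) B} (hX : D.Equi X) (hXi : D.Equi Xi)
    (hY : D.Equi Y) (hYi : D.Equi Yi) (h1 : Xi * X = 1) (h2 : Y * Yi = 1) :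
    D.dl (Yi * Xi) (X * Y) = D.dl Xi X + D.dl Yi Y := by
  have hA : D.Equi (Yi * Xi) := hYi.mul hXi
  have key := rot3 hA hX hY
  rw [← mul_assoc, h2, one_mul] at key
  rw [← key]
  unfold dl
  have e0 : ∀ j : ZMod N, (1 - j) • D.T ((Yi * Xi) 0 j * (X * Y) j 1) =
      ∑ b : ZMod N, (b - j) • D.T ((Yi * Xi) 0 j * X j b * Y b 1) +
      ∑ b : ZMod N, (1 - b) • D.T ((Yi * Xi) 0 j * X j b * Y b 1) := by
    intro j
    rw [← Finset.sum_add_distrib, Matrix.mul_apply (M := X), Finset.mul_sum, map_sum,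
      Finset.smul_sum]
    refine Finset.sum_congr rfl fun b _ => ?_
    rw [← add_smul, mul_assoc]
    congr 1
    ring
  rw [Finset.sum_congr rfl fun j _ => e0 j, Finset.sum_add_distrib]
  congr 1
  rw [Finset.sum_comm]
  refine Finset.sum_congr rfl fun b _ => ?_
  rw [← Finset.smul_sum, ← map_sum, ← Finset.sum_mul, ← Matrix.mul_apply, mul_assoc, h1, mul_one]

/-- the equivariant matrix of a triple -/
def Yof (D : CycData N B M) (U z : B) : Matrix (ZMod N) (ZMod N) B :=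
  fun i j => (if i = j then U else 0) - D.ρ i z

theorem Yof_equi {U z : B} (hU : ∀ i, D.ρ i U = U) : D.Equi (Yof D U z) := by
  intro i j k
  simp only [Yof, map_sub, apply_ite (D.ρ k), map_zero, hU, add_left_inj, ← D.ρ_add]
  rw [add_comm k i]

theorem Yof_mul {U₁ z₁ U₂ W₂ z₂ : B} (hU₁ : ∀ i, D.ρ i U₁ = U₁) (hW₂ : ∀ i, D.ρ i W₂ = W₂)
    (hz₂ : ∑ i, D.ρ i z₂ = U₂ - W₂) :
    Yof D U₁ z₁ * Yof D U₂ z₂ = Yof D (U₁ * U₂) (U₁ * z₂ + z₁ * W₂) := by
  ext i j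
  rw [Matrix.mul_apply]
  simp only [Yof, sub_mul, mul_sub, ite_mul, mul_ite, zero_mul, mul_zero,
    Finset.sum_sub_distrib, Finset.sum_ite_eq, Finset.sum_ite_eq', Finset.mem_univ, if_true,
    map_add, map_mul, hU₁, hW₂]
  rw [← Finset.mul_sum, hz₂, mul_sub]
  split_ifs <;> abel

theorem gam_eq_dl (U Ui Wi z : B) :
    D.gam Ui Wi z = -D.dl (Yof D Ui (-(Ui * z * Wi))) (Yof D U z) := by
  unfold gam dl Yof
  have h : ∀ j : ZMod N, (1 - j) • D.T (((if (0 : ZMod N) = j then Ui else 0) -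
      D.ρ 0 (-(Ui * z * Wi))) * ((if j = 1 then U else 0) - D.ρ j z)) =
      (if (0 : ZMod N) = j then -D.T (Ui * z) else 0) +
        -((1 - j) • D.T (Ui * z * Wi * D.ρ j z)) := by
    intro j
    rw [D.ρ_zero]
    by_cases hj : j = 1
    · subst hj
      rw [sub_self, zero_smul, zero_smul, neg_zero, add_zero]
      split_ifs with h0
      · -- the case N = 1
        have : D.T (Ui * z) = 0 := by
          have h1 := congrArg (fun t : ZMod N => t • D.T (Ui * z)) h0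
          simpa using h1.symm
        rw [this, neg_zero]
      · rfl
    · rw [if_neg hj]
      by_cases h0 : (0 : ZMod N) = j
      · subst h0
        rw [if_pos rfl, if_pos rfl, sub_zero, one_smul, one_smul, D.ρ_zero]
        rw [zero_sub, sub_neg_eq_add, mul_neg, add_mul, map_neg, map_add]
        abel
      · rw [if_neg h0, if_neg h0, zero_sub, neg_neg, zero_sub, zero_add, mul_neg, map_neg,
          smul_neg]
  rw [Finset.sum_congr rfl fun j _ => h j, Finset.sum_add_distrib, Finset.sum_ite_eq,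
    if_pos (Finset.mem_univ _), Finset.sum_neg_distrib]
  abel

theorem Yof_inv {U Ui W Wi z : B} (hU : ∀ i, D.ρ i U = U) (hW : ∀ i, D.ρ i W = W)
    (hUi : ∀ i, D.ρ i Ui = Ui) (hWi : ∀ i, D.ρ i Wi = Wi)
    (h1 : U * Ui = 1) (h2 : Ui * U = 1) (h3 : W * Wi = 1) (h4 : Wi * W = 1)
    (hz : ∑ i, D.ρ i z = U - W) :
    Yof D Ui (-(Ui * z * Wi)) * Yof D U z = 1 ∧ Yof D U z * Yof D Ui (-(Ui * z * Wi)) = 1 := by
  have h10 : Yof D (1 : B) 0 = 1 := by
    ext i j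
    simp [Yof, Matrix.one_apply]
  have hz' : ∑ i, D.ρ i (-(Ui * z * Wi)) = Ui - Wi := by
    have : ∀ i, D.ρ i (-(Ui * z * Wi)) = -(Ui * D.ρ i z * Wi) := fun i => by
      rw [map_neg, map_mul, map_mul, hUi, hWi]
    rw [Finset.sum_congr rfl fun i _ => this i, Finset.sum_neg_distrib, ← Finset.sum_mul,
      ← Finset.mul_sum, hz]
    rw [mul_sub, sub_mul, h2, one_mul, mul_assoc, h3, mul_one]
    abel
  constructor
  · rw [Yof_mul hUi hW hz, h2, ← h10]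
    congr 1
    rw [neg_mul, mul_assoc _ Wi W, h4, mul_one]
    abel
  · rw [Yof_mul hU hWi hz', h1, ← h10]
    congr 1
    rw [mul_neg, ← mul_assoc, ← mul_assoc, h1, one_mul]
    abel

/-- invariant units together with a norm representative -/
structure IsTrip (D : CycData N B M) (U Ui W Wi z : B) : Prop where
  U_inv : ∀ i, D.ρ i U = U
  W_inv : ∀ i, D.ρ i W = W
  Ui_inv : ∀ i, D.ρ i Ui = Ui
  Wi_inv : ∀ i, D.ρ i Wi = Wi
  h1 : U * Ui = 1
  h2 : Ui * U = 1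
  h3 : W * Wi = 1
  h4 : Wi * W = 1
  hz : ∑ i, D.ρ i z = U - W

theorem IsTrip.gam_mul {U₁ Ui₁ W₁ Wi₁ z₁ U₂ Ui₂ W₂ Wi₂ z₂ : B}
    (t₁ : IsTrip D U₁ Ui₁ W₁ Wi₁ z₁) (t₂ : IsTrip D U₂ Ui₂ W₂ Wi₂ z₂) :
    D.gam (Ui₂ * Ui₁) (Wi₂ * Wi₁) (U₁ * z₂ + z₁ * W₂) = D.gam Ui₁ Wi₁ z₁ + D.gam Ui₂ Wi₂ z₂ := by
  have e1 := Yof_inv t₁.U_inv t₁.W_inv t₁.Ui_inv t₁.Wi_inv t₁.h1 t₁.h2 t₁.h3 t₁.h4 t₁.hz
  have e2 := Yof_inv t₂.U_inv t₂.W_inv t₂.Ui_inv t₂.Wi_inv t₂.h1 t₂.h2 t₂.h3 t₂.h4 t₂.hz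
  have hm := Yof_mul (z₁ := z₁) t₁.U_inv t₂.W_inv t₂.hz
  have hz1' : ∑ i, D.ρ i (-(Ui₁ * z₁ * Wi₁)) = Ui₁ - Wi₁ := by
    have : ∀ i, D.ρ i (-(Ui₁ * z₁ * Wi₁)) = -(Ui₁ * D.ρ i z₁ * Wi₁) := fun i => by
      rw [map_neg, map_mul, map_mul, t₁.Ui_inv, t₁.Wi_inv]
    rw [Finset.sum_congr rfl fun i _ => this i, Finset.sum_neg_distrib, ← Finset.sum_mul,
      ← Finset.mul_sum, t₁.hz]
    rw [mul_sub, sub_mul, t₁.h2, one_mul, mul_assoc, t₁.h3, mul_one]
    abel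
  have hmi := Yof_mul (z₁ := -(Ui₂ * z₂ * Wi₂)) t₂.Ui_inv t₁.Wi_inv hz1'
  have e5 : -(Ui₂ * Ui₁ * (U₁ * z₂ + z₁ * W₂) * (Wi₂ * Wi₁)) =
      Ui₂ * -(Ui₁ * z₁ * Wi₁) + -(Ui₂ * z₂ * Wi₂) * Wi₁ := by
    have a1 : Ui₂ * Ui₁ * (U₁ * z₂) = Ui₂ * z₂ := by
      rw [mul_assoc, ← mul_assoc Ui₁, t₁.h2, one_mul]
    have a2 : Ui₂ * Ui₁ * (z₁ * W₂) * (Wi₂ * Wi₁) = Ui₂ * (Ui₁ * z₁ * Wi₁) := by
      simp only [mul_assoc]
      rw [← mul_assoc W₂, t₂.h3, one_mul]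
    rw [mul_add, add_mul, a1, a2, neg_add, mul_neg, neg_mul, add_comm]
    simp only [mul_assoc]
  rw [gam_eq_dl U₁ Ui₁ Wi₁ z₁, gam_eq_dl U₂ Ui₂ Wi₂ z₂,
    gam_eq_dl (U₁ * U₂) (Ui₂ * Ui₁), ← hm, e5, ← hmi]
  rw [dl_mul (Yof_equi t₁.U_inv) (Yof_equi t₁.Ui_inv) (Yof_equi t₂.U_inv) (Yof_equi t₂.Ui_inv)
    e1.1 e2.2]
  abel

theorem gam_one_one (hN : Odd N) {b : B} (hb : ∑ i, D.ρ i b = 0) : D.gam 1 1 b = 0 := by
  unfold gam
  have h0 : D.T (1 * b) = 0 := by rw [one_mul]; exact D.T_norm b hb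
  rw [h0, zero_add]
  simp only [one_mul, mul_one]
  set t : ZMod N → M := fun j => D.T (b * D.ρ j b) with ht
  have hsym : ∀ j, t j = t (1 - j) := fun j => D.T_swap b b j
  have hsum : ∑ j, t j = 0 := by
    rw [ht, ← map_sum, ← Finset.mul_sum, hb, mul_zero, map_zero]
  have h2 : ∑ j : ZMod N, (1 - j) • t j = ∑ j : ZMod N, j • t j := by
    refine Fintype.sum_equiv (Equiv.subLeft 1) _ _ fun j => ?_
    rw [Equiv.subLeft_apply, ← hsym]
  have h3 : (2 : ZMod N) • ∑ j : ZMod N, (1 - j) • t j = 0 := by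
    rw [two_smul]
    nth_rw 2 [h2]
    rw [← Finset.sum_add_distrib]
    have : ∀ j : ZMod N, (1 - j) • t j + j • t j = t j := fun j => by
      rw [← add_smul]; simp
    rw [Finset.sum_congr rfl fun j _ => this j, hsum]
  have hu : IsUnit (2 : ZMod N) := by
    have := (ZMod.isUnit_iff_coprime 2 N).2 (by
      rw [Nat.coprime_two_left]; exact hN)
    simpa using this
  obtain ⟨v, hv⟩ := hu
  have h4 := congrArg (fun m => ((v⁻¹ : (ZMod N)ˣ) : ZMod N) • m) h3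
  simp only [smul_zero] at h4
  rw [← mul_smul, ← hv, Units.inv_mul, one_smul] at h4
  exact h4

theorem IsTrip.gam_indep (hN : Odd N) {U Ui W Wi z z' : B}
    (t : IsTrip D U Ui W Wi z) (t' : IsTrip D U Ui W Wi z') : D.gam Ui Wi z' = D.gam Ui Wi z := by
  have hb : ∑ i, D.ρ i (Ui * (z' - z)) = 0 := by
    have : ∀ i, D.ρ i (Ui * (z' - z)) = Ui * (D.ρ i z' - D.ρ i z) := fun i => by
      rw [map_mul, map_sub, t.Ui_inv]
    rw [Finset.sum_congr rfl fun i _ => this i, ← Finset.mul_sum, Finset.sum_sub_distrib, t.hz,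
      t'.hz, sub_self, mul_zero]
  have t1 : IsTrip D 1 1 1 1 (Ui * (z' - z)) :=
    ⟨fun i => map_one _, fun i => map_one _, fun i => map_one _, fun i => map_one _,
      one_mul 1, one_mul 1, one_mul 1, one_mul 1, by rw [hb, sub_self]⟩
  have h := t.gam_mul t1
  rw [one_mul, one_mul, mul_one, ← mul_assoc, t.h1, one_mul, sub_add_cancel, gam_one_one hN hb,
    add_zero] at h
  exact h

end CycData

end Pool.Agent.WhK
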