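import Mathlib

/-!
# External powers in monoid rings

`extPow I u ∈ ℤ[I → 𝔐]` has coefficient `∏ i, u (g i)` at `g`; it is multiplicative in `u`.
-/

set_option autoImplicit false

namespace Pool.Agent.WhK

open Finset

variable {𝔐 𝔐' : Type*}

open Classical in
theorem extPow_mem (I : Type*) [Fintype I] (u : MonoidAlgebra ℤ 𝔐) (g : I → 𝔐)
    (hg : ∏ i, u.coeff (g i) ≠ 0) : g ∈ Fintype.piFinset fun _ => u.coeff.support := by
  rw [Fintype.mem_piFinset]
  intro i
  rw [Finsupp.mem_support_iff]
  intro h0
  exact hg (Finset.prod_eq_zero (Finset.mem_univ i) h0)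

open Classical in
/-- external power of an element of a monoid ring -/
noncomputable def extPow (I : Type*) [Fintype I] (u : MonoidAlgebra ℤ 𝔐) :
    MonoidAlgebra ℤ (I → 𝔐) :=
  .ofCoeff (Finsupp.onFinset (Fintype.piFinset fun _ => u.coeff.support)
      (fun g => ∏ i, u.coeff (g i)) (extPow_mem I u))

theorem coeff_extPow (I : Type*) [Fintype I] (u : MonoidAlgebra ℤ 𝔐) (g : I → 𝔐) :
    (extPow I u).coeff g = ∏ i, u.coeff (g i) := rfl

theorem extPow_one (I : Type*) [Fintype I] [Monoid 𝔐] : extPow I (1 : MonoidAlgebra ℤ 𝔐) = 1 := by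
  classical
  ext g
  rw [coeff_extPow]
  simp only [MonoidAlgebra.one_def, MonoidAlgebra.coeff_single, Finsupp.single_apply]
  rw [Finset.prod_ite_zero]
  simp only [Finset.prod_const_one, Finset.mem_univ, forall_const]
  congr 1
  rw [eq_iff_iff, funext_iff]
  rfl

theorem extPow_mul (I : Type*) [Fintype I] [Monoid 𝔐] (u v : MonoidAlgebra ℤ 𝔐) :
    extPow I (u * v) = extPow I u * extPow I v := by
  classical
  ext g
  have hs : ∀ (x : MonoidAlgebra ℤ 𝔐) (F : (I → 𝔐) → ℤ → ℤ), (∀ a, F a 0 = 0) →
      (extPow I x).coeff.sum F =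
        ∑ a ∈ Fintype.piFinset fun _ : I => x.coeff.support, F a (∏ i, x.coeff (a i)) := by
    intro x F hF
    exact Finsupp.onFinset_sum (extPow_mem I x) hF
  rw [MonoidAlgebra.coeff_mul, coeff_extPow, hs u _ (fun a => by
    simp only [zero_mul, ite_self]
    exact Finset.sum_const_zero)]
  have h1 : ∀ i, (u * v).coeff (g i) = ∑ a ∈ u.coeff.support, ∑ b ∈ v.coeff.support,
      if a * b = g i then u.coeff a * v.coeff b else 0 := fun i => by
    rw [MonoidAlgebra.coeff_mul]; rfl
  rw [Finset.prod_congr rfl fun i _ => h1 i, Finset.prod_univ_sum]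
  refine Finset.sum_congr rfl fun a _ => ?_
  rw [hs v _ (fun b => by simp), Finset.prod_univ_sum]
  refine Finset.sum_congr rfl fun b _ => ?_
  rw [Finset.prod_ite_zero, ← Finset.prod_mul_distrib]
  congr 1
  rw [eq_iff_iff, funext_iff]
  simp

/-- external power as a monoid homomorphism -/
noncomputable def extPowHom (I : Type*) [Fintype I] [Monoid 𝔐] :
    MonoidAlgebra ℤ 𝔐 →* MonoidAlgebra ℤ (I → 𝔐) where
  toFun := extPow I
  map_one' := extPow_one I
  map_mul' := extPow_mul I

theorem coeff_mapDomain_inj {X Y : Type*} {f : X → Y} (hf : Function.Injective f)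
    (x : MonoidAlgebra ℤ X) (a : X) :
    (MonoidAlgebra.mapDomain f x).coeff (f a) = x.coeff a :=
  Finsupp.mapDomain_apply hf x.coeff a

theorem coeff_mapDomain_notin {X Y : Type*} {f : X → Y}
    (x : MonoidAlgebra ℤ X) {b : Y} (hb : b ∉ Set.range f) :
    (MonoidAlgebra.mapDomain f x).coeff b = 0 :=
  Finsupp.mapDomain_of_notMem_range x.coeff b hb

/-- naturality for injective maps -/
theorem extPow_mapDomain (I : Type*) [Fintype I] {f : 𝔐 → 𝔐'} (hf : Function.Injective f)
    (u : MonoidAlgebra ℤ 𝔐) :
    extPow I (MonoidAlgebra.mapDomain f u) =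
      MonoidAlgebra.mapDomain (fun g : I → 𝔐 => fun i => f (g i)) (extPow I u) := by
  classical
  have hf' : Function.Injective (fun g : I → 𝔐 => fun i => f (g i)) := fun a b h =>
    funext fun i => hf (congrFun h i)
  ext g
  by_cases hg : ∃ h : I → 𝔐, (fun i => f (h i)) = g
  · obtain ⟨h, rfl⟩ := hg
    rw [coeff_mapDomain_inj hf', coeff_extPow, coeff_extPow]
    exact Finset.prod_congr rfl fun i _ => coeff_mapDomain_inj hf u (h i)
  · rw [coeff_mapDomain_notin _ (fun h => hg h), coeff_extPow]
    by_contra hne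
    apply hg
    have h2 : ∀ i, g i ∈ Set.range f := by
      intro i
      by_contra hi
      exact hne (Finset.prod_eq_zero (Finset.mem_univ i) (coeff_mapDomain_notin _ hi))
    choose h hh using h2
    exact ⟨h, funext hh⟩

/-- product formula: the image of the external power under the multiplication map -/
theorem mapDomain_extPow_prod {C : Type*} [CommMonoid C] (I : Type*) [Fintype I]
    (u : MonoidAlgebra ℤ C) :
    MonoidAlgebra.mapDomain (fun g : I → C => ∏ i, g i) (extPow I u) = u ^ Fintype.card I := by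
  classical
  have h1 : u ^ Fintype.card I = ∏ _i : I, u := by
    rw [Finset.prod_const, Finset.card_univ]
  have h2 : u = ∑ a ∈ u.coeff.support, MonoidAlgebra.single a (u.coeff a) :=
    (MonoidAlgebra.sum_coeff_single u).symm
  have h3 : (∏ _i : I, u) = ∏ _i : I, ∑ a ∈ u.coeff.support, MonoidAlgebra.single a (u.coeff a) :=
    Finset.prod_congr rfl fun _ _ => h2
  rw [h1, h3, Finset.prod_univ_sum]
  have h4 : ∀ x : I → C, (∏ i, MonoidAlgebra.single (x i) (u.coeff (x i))) =
      MonoidAlgebra.single (∏ i, x i) (∏ i, u.coeff (x i)) := by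
    intro x
    have : ∀ s : Finset I, (∏ i ∈ s, MonoidAlgebra.single (x i) (u.coeff (x i))) =
        MonoidAlgebra.single (∏ i ∈ s, x i) (∏ i ∈ s, u.coeff (x i)) := by
      intro s
      induction s using Finset.induction_on with
      | empty => simp [MonoidAlgebra.one_def]
      | insert a s ha ih =>
        rw [Finset.prod_insert ha, Finset.prod_insert ha, Finset.prod_insert ha, ih,
          MonoidAlgebra.single_mul_single]
    exact this _
  rw [Finset.sum_congr rfl fun x _ => h4 x]
  have h5 : extPow I u = ∑ x ∈ Fintype.piFinset fun _ : I => u.coeff.support,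
      MonoidAlgebra.single x (∏ i, u.coeff (x i)) := by
    conv_lhs => rw [← MonoidAlgebra.sum_coeff_single (extPow I u)]
    exact Finsupp.onFinset_sum (extPow_mem I u) (fun a => MonoidAlgebra.single_zero a)
  rw [h5]
  have h6 : ∀ (s : Finset (I → C)) (F : (I → C) → MonoidAlgebra ℤ (I → C)),
      MonoidAlgebra.mapDomain (fun g : I → C => ∏ i, g i) (∑ x ∈ s, F x) =
        ∑ x ∈ s, MonoidAlgebra.mapDomain (fun g : I → C => ∏ i, g i) (F x) := by
    intro s F
    induction s using Finset.induction_on with
    | empty => simp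
    | insert a s ha ih =>
      rw [Finset.sum_insert ha, Finset.sum_insert ha, MonoidAlgebra.mapDomain_add, ih]
  rw [h6]
  exact Finset.sum_congr rfl fun x _ => MonoidAlgebra.mapDomain_single

end Pool.Agent.WhK
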