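import Mathlib
import Pool.Agent.Lib_helper44.Wh.CycTrace
import Pool.Agent.Lib_helper44.Wh.ExtPow

/-!
# Cyclic shifts and the twisted trace on `ℤ[ZMod N → 𝔐]`
-/

set_option autoImplicit false

namespace Pool.Agent.WhK

open Finset

section Shift

variable {𝔐 : Type*} [Monoid 𝔐] {N : ℕ}

/-- shift of a cyclic sequence -/
def shiftHom (i : ZMod N) : (ZMod N → 𝔐) →* (ZMod N → 𝔐) where
  toFun g j := g (j + i)
  map_one' := rfl
  map_mul' _ _ := rfl

theorem shiftHom_apply (i : ZMod N) (g : ZMod N → 𝔐) (j : ZMod N) :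
    shiftHom i g j = g (j + i) := rfl

theorem shiftHom_add (i j : ZMod N) (g : ZMod N → 𝔐) :
    shiftHom (i + j) g = shiftHom i (shiftHom j g) := by
  funext k
  simp only [shiftHom_apply]
  rw [add_assoc]

theorem shiftHom_zero (g : ZMod N → 𝔐) : shiftHom 0 g = g := by
  funext k
  rw [shiftHom_apply, add_zero]

theorem shiftHom_neg_cancel (i : ZMod N) (g : ZMod N → 𝔐) : shiftHom i (shiftHom (-i) g) = g := by
  rw [← shiftHom_add, add_neg_cancel, shiftHom_zero]

theorem shiftHom_injective (i : ZMod N) :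
    Function.Injective (shiftHom i : (ZMod N → 𝔐) →* (ZMod N → 𝔐)) := by
  intro a b h
  have := congrArg (shiftHom (-i)) h
  rwa [← shiftHom_add, ← shiftHom_add, neg_add_cancel, shiftHom_zero, shiftHom_zero] at this

/-- the action on the monoid ring -/
noncomputable def rho (i : ZMod N) :
    MonoidAlgebra ℤ (ZMod N → 𝔐) →+* MonoidAlgebra ℤ (ZMod N → 𝔐) :=
  MonoidAlgebra.mapDomainRingHom ℤ (shiftHom i)

theorem rho_eq (i : ZMod N) (x : MonoidAlgebra ℤ (ZMod N → 𝔐)) :
    rho i x = MonoidAlgebra.mapDomain (shiftHom i) x := rfl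

theorem coeff_rho (i : ZMod N) (x : MonoidAlgebra ℤ (ZMod N → 𝔐)) (g : ZMod N → 𝔐) :
    (rho i x).coeff g = x.coeff (shiftHom (-i) g) := by
  rw [rho_eq]
  conv_lhs => rw [← shiftHom_neg_cancel i g]
  exact coeff_mapDomain_inj (shiftHom_injective i) x _

theorem rho_zero (x : MonoidAlgebra ℤ (ZMod N → 𝔐)) : rho 0 x = x := by
  ext g
  rw [coeff_rho, neg_zero, shiftHom_zero]

theorem rho_add (i j : ZMod N) (x : MonoidAlgebra ℤ (ZMod N → 𝔐)) :
    rho (i + j) x = rho i (rho j x) := by
  ext g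
  have e : -(i + j) = -j + -i := by ring
  rw [coeff_rho, coeff_rho, coeff_rho, ← shiftHom_add, e]

theorem rho_extPow [NeZero N] (i : ZMod N) (u : MonoidAlgebra ℤ 𝔐) :
    rho i (extPow (ZMod N) u) = extPow (ZMod N) u := by
  ext g
  rw [coeff_rho, coeff_extPow, coeff_extPow]
  exact Fintype.prod_equiv (Equiv.addRight (-i)) _ _ fun j => rfl

/-- the product of a cyclic sequence, starting at `0` -/
def prodSeq (g : ZMod N → 𝔐) : 𝔐 := ((List.range N).map fun k : ℕ => g (k : ZMod N)).prod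

theorem prod_interleave (a b : ℕ → 𝔐) (n : ℕ) :
    ((List.range (n + 1)).map fun k => a k * b k).prod =
      a 0 * (((List.range n).map fun k => b k * a (k + 1)).prod * b n) := by
  induction n with
  | zero => simp
  | succ n ih =>
    rw [List.prod_range_succ, ih, List.prod_range_succ (fun k => b k * a (k + 1)) n]
    simp only [mul_assoc]

theorem prodSeq_mul_shift [NeZero N] {K : Type*} (cl : 𝔐 → K) (hcl : ∀ a b, cl (a * b) = cl (b * a))
    (g h : ZMod N → 𝔐) : cl (prodSeq (g * h)) = cl (prodSeq (h * shiftHom 1 g)) := by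
  obtain ⟨n, hn⟩ : ∃ n, N = n + 1 := ⟨N - 1, by have := NeZero.pos N; omega⟩
  have e1 : prodSeq (g * h) = g 0 * (((List.range n).map fun k : ℕ =>
      h (k : ZMod N) * g ((k + 1 : ℕ) : ZMod N)).prod * h (n : ZMod N)) := by
    have := prod_interleave (fun k => g (k : ZMod N)) (fun k => h (k : ZMod N)) n
    rw [Nat.cast_zero] at this
    rw [← this, ← hn]
    rfl
  have e2 : prodSeq (h * shiftHom 1 g) = (((List.range n).map fun k : ℕ =>
      h (k : ZMod N) * g ((k + 1 : ℕ) : ZMod N)).prod * h (n : ZMod N)) * g 0 := by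
    unfold prodSeq
    have : ((List.range N).map fun k : ℕ => (h * shiftHom 1 g) (k : ZMod N)).prod =
        ((List.range (n + 1)).map fun k : ℕ => h (k : ZMod N) * g ((k + 1 : ℕ) : ZMod N)).prod := by
      have hr : List.range N = List.range (n + 1) := by rw [hn]
      rw [hr]
      congr 1
      refine List.map_congr_left fun k _ => ?_
      rw [Pi.mul_apply, shiftHom_apply, Nat.cast_succ]
    rw [this, List.prod_range_succ, ← mul_assoc]
    congr 2
    rw [← hn, ZMod.natCast_self]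
  rw [e1, e2, hcl]

variable {K : Type*}

/-- integral twisted trace -/
noncomputable def Tint (cl : 𝔐 → K) : MonoidAlgebra ℤ (ZMod N → 𝔐) →+ (K →₀ ℤ) :=
  (Finsupp.mapDomain.addMonoidHom fun g : ZMod N → 𝔐 => cl (prodSeq g)).comp
    MonoidAlgebra.coeffAddEquiv.toAddMonoidHom

theorem Tint_apply (cl : 𝔐 → K) (x : MonoidAlgebra ℤ (ZMod N → 𝔐)) :
    Tint cl x = Finsupp.mapDomain (fun g : ZMod N → 𝔐 => cl (prodSeq g)) x.coeff := rfl

theorem Tint_single (cl : 𝔐 → K) (g : ZMod N → 𝔐) (r : ℤ) :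
    Tint cl (MonoidAlgebra.single g r) = Finsupp.single (cl (prodSeq g)) r := by
  rw [Tint_apply, MonoidAlgebra.coeff_single, Finsupp.mapDomain_single]

theorem Tint_mul [NeZero N] (cl : 𝔐 → K) (hcl : ∀ a b, cl (a * b) = cl (b * a))
    (x y : MonoidAlgebra ℤ (ZMod N → 𝔐)) : Tint cl (x * y) = Tint cl (y * rho 1 x) := by
  induction x using MonoidAlgebra.induction_linear with
  | zero => simp
  | add x x' hx hx' => rw [add_mul, map_add, map_add, mul_add, map_add, hx, hx']
  | single g r =>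
    induction y using MonoidAlgebra.induction_linear with
    | zero => simp
    | add y y' hy hy' => rw [mul_add, map_add, add_mul, map_add, hy, hy']
    | single h s =>
      rw [rho_eq, MonoidAlgebra.mapDomain_single, MonoidAlgebra.single_mul_single,
        MonoidAlgebra.single_mul_single, Tint_single, Tint_single,
        prodSeq_mul_shift cl hcl, mul_comm r s]

theorem Tint_norm [NeZero N] (cl : 𝔐 → K) (hcl : ∀ a b, cl (a * b) = cl (b * a))
    (b : MonoidAlgebra ℤ (ZMod N → 𝔐)) (hb : ∑ i, rho i b = 0) : Tint cl b = 0 := by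
  have h1 : ∀ x : MonoidAlgebra ℤ (ZMod N → 𝔐), Tint cl (rho 1 x) = Tint cl x := fun x => by
    have h := Tint_mul cl hcl x 1
    rw [mul_one, one_mul] at h
    exact h.symm
  have h2 : ∀ (n : ℕ) (x : MonoidAlgebra ℤ (ZMod N → 𝔐)),
      Tint cl (rho (n : ZMod N) x) = Tint cl x := by
    intro n
    induction n with
    | zero => intro x; rw [Nat.cast_zero, rho_zero]
    | succ n ih => intro x; rw [Nat.cast_succ, rho_add, ih, h1]
  have h3 : ∀ (i : ZMod N), Tint cl (rho i b) = Tint cl b := by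
    intro i
    have h := h2 i.val b
    rwa [ZMod.natCast_zmod_val] at h
  have h4 := congrArg (Tint cl) hb
  rw [map_sum, Finset.sum_congr rfl fun i _ => h3 i, Finset.sum_const, map_zero,
    Finset.card_univ, ZMod.card] at h4
  ext k
  have h5 := DFunLike.congr_fun h4 k
  rw [Finsupp.smul_apply, Finsupp.zero_apply, nsmul_eq_mul] at h5
  rcases mul_eq_zero.1 h5 with h | h
  · exact absurd h (Nat.cast_ne_zero.2 (NeZero.ne N))
  · exact h

/-- the twisted trace modulo `N` -/
noncomputable def Tmod (cl : 𝔐 → K) : MonoidAlgebra ℤ (ZMod N → 𝔐) →+ (K →₀ ZMod N) :=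
  (Finsupp.mapRange.addMonoidHom (Int.castAddHom (ZMod N))).comp (Tint cl)

theorem Tmod_apply (cl : 𝔐 → K) (x : MonoidAlgebra ℤ (ZMod N → 𝔐)) :
    Tmod cl x = Finsupp.mapRange.addMonoidHom (Int.castAddHom (ZMod N)) (Tint cl x) := rfl

/-- the cyclic data of a monoid with a class function -/
noncomputable def cycData (N : ℕ) [NeZero N] (cl : 𝔐 → K) (hcl : ∀ a b, cl (a * b) = cl (b * a)) :
    CycData N (MonoidAlgebra ℤ (ZMod N → 𝔐)) (K →₀ ZMod N) where
  ρ := rho
  ρ_zero := rho_zero
  ρ_add := rho_add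
  T := Tmod cl
  T_mul a b := by rw [Tmod_apply, Tmod_apply, Tint_mul cl hcl]
  T_norm b hb := by rw [Tmod_apply, Tint_norm cl hcl b hb, map_zero]

end Shift

end Pool.Agent.WhK
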