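import Mathlib
import Pool.Agent.Lib_helper44.Wh.Shift

/-!
# The difference `extPow u - Wof u` is a norm
-/

set_option autoImplicit false

namespace Pool.Agent.WhK

open Finset

section General

variable {𝔐 : Type*} [Monoid 𝔐] {N : ℕ} [NeZero N]

open Classical in
/-- number of shifts fixing a cyclic sequence -/
noncomputable def stabCard (x : ZMod N → 𝔐) : ℕ :=
  (univ.filter fun i : ZMod N => shiftHom i x = x).card

theorem exists_norm (F : MonoidAlgebra ℤ (ZMod N → 𝔐)) (hinv : ∀ i, rho i F = F)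
    (hdiv : ∀ x, (stabCard x : ℤ) ∣ F.coeff x) : ∃ z, ∑ i, rho i z = F := by
  classical
  let s : Setoid (ZMod N → 𝔐) :=
    { r := fun x y => ∃ i, shiftHom i x = y
      iseqv :=
        { refl := fun x => ⟨0, shiftHom_zero x⟩
          symm := by
            rintro x y ⟨i, rfl⟩
            exact ⟨-i, by rw [← shiftHom_add, neg_add_cancel, shiftHom_zero]⟩
          trans := by
            rintro x y z ⟨i, rfl⟩ ⟨j, rfl⟩
            exact ⟨j + i, shiftHom_add _ _ _⟩ } }
  let rep : (ZMod N → 𝔐) → (ZMod N → 𝔐) := fun x => Quotient.out (Quotient.mk s x)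
  have hrep : ∀ x, ∃ i, shiftHom i (rep x) = x := fun x => Quotient.mk_out (s := s) x
  have hrep2 : ∀ i x, rep (shiftHom i x) = rep x := by
    intro i x
    have : Quotient.mk s (shiftHom i x) = Quotient.mk s x :=
      Quotient.sound (s := s) ⟨-i, by rw [← shiftHom_add, neg_add_cancel, shiftHom_zero]⟩
    show Quotient.out _ = Quotient.out _
    rw [this]
  have hF : ∀ i x, F.coeff (shiftHom i x) = F.coeff x := by
    intro i x
    have := coeff_rho (-i) F x
    rw [hinv, neg_neg] at this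
    exact this.symm
  let z : MonoidAlgebra ℤ (ZMod N → 𝔐) := .ofCoeff (Finsupp.onFinset F.coeff.support
    (fun x => if rep x = x then F.coeff x / (stabCard x : ℤ) else 0) (by
      intro x hx
      rw [Finsupp.mem_support_iff]
      intro h0
      apply hx
      rw [h0, Int.zero_ediv, ite_self]))
  have hz : ∀ x, z.coeff x = if rep x = x then F.coeff x / (stabCard x : ℤ) else 0 := fun x => rfl
  refine ⟨z, ?_⟩
  ext x
  rw [MonoidAlgebra.coeff_sum, Finsupp.finsetSum_apply]
  have h1 : ∀ i, (rho i z).coeff x =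
      if shiftHom (-i) x = rep x then F.coeff (rep x) / (stabCard (rep x) : ℤ) else 0 := by
    intro i
    rw [coeff_rho, hz, hrep2]
    by_cases h : shiftHom (-i) x = rep x
    · rw [if_pos h, if_pos h.symm, h]
    · rw [if_neg h, if_neg (fun h' => h h'.symm)]
  rw [Finset.sum_congr rfl fun i _ => h1 i, ← Finset.sum_filter, Finset.sum_const, nsmul_eq_mul]
  obtain ⟨i0, hi0⟩ := hrep x
  have h2 : (univ.filter fun i : ZMod N => shiftHom (-i) x = rep x).card = stabCard (rep x) := by
    unfold stabCard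
    refine Finset.card_bij' (fun i _ => i0 - i) (fun i _ => i0 - i) ?_ ?_ ?_ ?_
    · intro i hi
      simp only [Finset.mem_filter, Finset.mem_univ, true_and] at hi ⊢
      conv_rhs => rw [← hi]
      conv_rhs => rw [← hi0]
      rw [← shiftHom_add, neg_add_eq_sub]
    · intro i hi
      simp only [Finset.mem_filter, Finset.mem_univ, true_and] at hi ⊢
      conv_lhs => rw [← hi0]
      rw [← shiftHom_add]
      have e : -(i0 - i) + i0 = i := by ring
      rw [e, hi]
    · intro i _; ring
    · intro i _; ring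
  rw [h2, Int.mul_ediv_cancel' (hdiv _)]
  conv_rhs => rw [← hi0]
  exact (hF _ _).symm

theorem prod_zmod_eq_range {R : Type*} [CommMonoid R] (f : ZMod N → R) :
    ∏ i, f i = ∏ k ∈ Finset.range N, f (k : ZMod N) := by
  symm
  refine Finset.prod_bij' (fun (k : ℕ) _ => (k : ZMod N)) (fun (i : ZMod N) _ => i.val)
    ?_ ?_ ?_ ?_ ?_
  · intro k _; exact Finset.mem_univ _
  · intro i _; exact Finset.mem_range.2 (ZMod.val_lt i)
  · intro k hk; exact ZMod.val_cast_of_lt (Finset.mem_range.1 hk)
  · intro i _; exact ZMod.natCast_zmod_val i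
  · intro k _; rfl

theorem prod_range_periodic {R : Type*} [CommMonoid R] (f : ℕ → R) (d : ℕ)
    (hf : ∀ k, f (k + d) = f k) (c : ℕ) :
    ∏ k ∈ Finset.range (d * c), f k = (∏ k ∈ Finset.range d, f k) ^ c := by
  have hper : ∀ c k, f (d * c + k) = f k := by
    intro c k
    induction c with
    | zero => simp
    | succ c ih2 => rw [mul_add, mul_one, add_right_comm, hf, ih2]
  induction c with
  | zero => simp
  | succ c ih =>
    rw [mul_add, mul_one, Finset.prod_range_add, ih, pow_succ]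
    congr 1
    exact Finset.prod_congr rfl fun k _ => hper c k

end General

section Prime

variable {𝔐 : Type*} [Monoid 𝔐] (p m : ℕ) [Fact p.Prime]

instance : NeZero (p ^ m) := ⟨pow_ne_zero _ (Nat.Prime.ne_zero Fact.out)⟩

omit [Fact p.Prime] in
theorem pdvd : p ^ m ∣ p ^ (m + 1) := pow_dvd_pow p (Nat.le_succ m)

/-- periodic extension -/
def diagHom : (ZMod (p ^ m) → 𝔐) →* (ZMod (p ^ (m + 1)) → 𝔐) where
  toFun y i := y (ZMod.castHom (pdvd p m) (ZMod (p ^ m)) i)
  map_one' := rfl
  map_mul' _ _ := rfl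

omit [Fact p.Prime] in
theorem diagHom_apply (y : ZMod (p ^ m) → 𝔐) (i : ZMod (p ^ (m + 1))) :
    diagHom p m y i = y (ZMod.castHom (pdvd p m) (ZMod (p ^ m)) i) := rfl

omit [Fact p.Prime] in
theorem diagHom_injective : Function.Injective (diagHom (𝔐 := 𝔐) p m) := by
  intro y y' h
  funext j
  obtain ⟨i, rfl⟩ := ZMod.castHom_surjective (pdvd p m) j
  exact congrFun h i

/-- the Frobenius companion of the external power -/
noncomputable def Wof : MonoidAlgebra ℤ 𝔐 →* MonoidAlgebra ℤ (ZMod (p ^ (m + 1)) → 𝔐) :=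
  (MonoidAlgebra.mapDomainRingHom ℤ (diagHom p m)).toMonoidHom.comp (extPowHom (ZMod (p ^ m)))

theorem Wof_eq (u : MonoidAlgebra ℤ 𝔐) :
    Wof p m u = MonoidAlgebra.mapDomain (diagHom p m) (extPow (ZMod (p ^ m)) u) := rfl

theorem mapDomain_comp' {X Y Z : Type*} (f : X → Y) (g : Y → Z) (x : MonoidAlgebra ℤ X) :
    MonoidAlgebra.mapDomain g (MonoidAlgebra.mapDomain f x) =
      MonoidAlgebra.mapDomain (fun a => g (f a)) x := by
  rw [← MonoidAlgebra.coeff_inj]
  exact Finsupp.mapDomain_comp.symm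

theorem rho_Wof (i : ZMod (p ^ (m + 1))) (u : MonoidAlgebra ℤ 𝔐) :
    rho i (Wof p m u) = Wof p m u := by
  rw [Wof_eq, rho_eq, mapDomain_comp']
  have : (fun a : ZMod (p ^ m) → 𝔐 => shiftHom i (diagHom p m a)) =
      fun a => diagHom p m (shiftHom (ZMod.castHom (pdvd p m) (ZMod (p ^ m)) i) a) := by
    funext a j
    rw [shiftHom_apply, diagHom_apply, diagHom_apply, shiftHom_apply, map_add]
  rw [this, ← mapDomain_comp' (fun a => shiftHom (ZMod.castHom (pdvd p m) (ZMod (p ^ m)) i) a)
    (fun a => diagHom p m a)]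
  congr 1
  exact rho_extPow _ u

theorem stab_period (x : ZMod (p ^ (m + 1)) → 𝔐) :
    ∃ j ≤ m + 1, stabCard x = p ^ j ∧ shiftHom ((p ^ (m + 1 - j) : ℕ) : ZMod (p ^ (m + 1))) x = x := by
  classical
  let H : AddSubgroup (ZMod (p ^ (m + 1))) :=
    { carrier := {i | shiftHom i x = x}
      add_mem' := by
        intro a b ha hb
        show shiftHom (a + b) x = x
        rw [shiftHom_add, hb, ha]
      zero_mem' := shiftHom_zero x
      neg_mem' := by
        intro a ha
        show shiftHom (-a) x = x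
        have ha' : shiftHom a x = x := ha
        conv_lhs => rw [← ha']
        rw [← shiftHom_add, neg_add_cancel, shiftHom_zero] }
  have hH : ∀ i, i ∈ H ↔ shiftHom i x = x := fun i => Iff.rfl
  have hcard : Nat.card H = stabCard x := by
    rw [stabCard, Nat.card_eq_fintype_card, Fintype.card_of_subtype]
    intro i
    rw [Finset.mem_filter, hH]
    simp
  have hdvd : Nat.card H ∣ p ^ (m + 1) := by
    have := AddSubgroup.card_addSubgroup_dvd_card H
    rwa [Nat.card_zmod] at this
  obtain ⟨j, hj, hjc⟩ := (Nat.dvd_prime_pow Fact.out).1 hdvd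
  refine ⟨j, hj, by rw [← hcard, hjc], ?_⟩
  -- the elements killed by `p ^ j`
  have hsub : (univ.filter fun i : ZMod (p ^ (m + 1)) => i ∈ H) ⊆
      univ.filter fun i : ZMod (p ^ (m + 1)) => p ^ j • i = 0 := by
    intro i hi
    simp only [Finset.mem_filter, Finset.mem_univ, true_and] at hi ⊢
    have := card_nsmul_eq_zero' (x := (⟨i, hi⟩ : H))
    rw [hjc] at this
    exact congrArg Subtype.val this
  have hle : (univ.filter fun i : ZMod (p ^ (m + 1)) => p ^ j • i = 0).card ≤ p ^ j :=
    IsAddCyclic.card_nsmul_eq_zero_le (pow_pos (Nat.Prime.pos Fact.out) j)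
  have hcardH : (univ.filter fun i : ZMod (p ^ (m + 1)) => i ∈ H).card = p ^ j := by
    rw [← hjc, Nat.card_eq_fintype_card, Fintype.card_of_subtype]
    intro i
    simp
  have heq := Finset.eq_of_subset_of_card_le hsub (by rw [hcardH]; exact hle)
  have hmem : ((p ^ (m + 1 - j) : ℕ) : ZMod (p ^ (m + 1))) ∈
      univ.filter fun i : ZMod (p ^ (m + 1)) => p ^ j • i = 0 := by
    simp only [Finset.mem_filter, Finset.mem_univ, true_and]
    rw [nsmul_eq_mul, ← Nat.cast_mul, ← pow_add, Nat.add_sub_cancel' hj, ZMod.natCast_self]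
  rw [← heq] at hmem
  exact (hH _).1 (Finset.mem_filter.1 hmem).2

theorem exists_z (u : MonoidAlgebra ℤ 𝔐) :
    ∃ z : MonoidAlgebra ℤ (ZMod (p ^ (m + 1)) → 𝔐),
      ∑ i, rho i z = extPow (ZMod (p ^ (m + 1))) u - Wof p m u := by
  refine exists_norm _ (fun i => by rw [map_sub, rho_extPow, rho_Wof]) fun x => ?_
  obtain ⟨j, hj, hc, hper⟩ := stab_period p m x
  rw [hc]
  rcases Nat.eq_zero_or_pos j with rfl | hjpos
  · simp
  -- the periodic sequence of coefficients
  set d := p ^ (m + 1 - j) with hd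
  let f : ℕ → ℤ := fun k => u.coeff (x (k : ZMod (p ^ (m + 1))))
  have hfx : ∀ k : ℕ, x ((k + d : ℕ) : ZMod (p ^ (m + 1))) = x (k : ZMod (p ^ (m + 1))) := by
    intro k
    rw [Nat.cast_add]
    exact congrFun hper (k : ZMod (p ^ (m + 1)))
  have hf : ∀ k, f (k + d) = f k := by
    intro k
    show u.coeff (x ((k + d : ℕ) : ZMod (p ^ (m + 1)))) = _
    rw [hfx]
  have hdm : d * p ^ (j - 1) = p ^ m := by
    rw [hd, ← pow_add]
    congr 1
    omega
  have hdm1 : d * p ^ j = p ^ (m + 1) := by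
    rw [hd, ← pow_add]
    congr 1
    omega
  set w : ℤ := ∏ k ∈ Finset.range d, f k with hw
  have hU : (extPow (ZMod (p ^ (m + 1))) u).coeff x = w ^ p ^ j := by
    rw [coeff_extPow, prod_zmod_eq_range]
    have e : ∏ k ∈ Finset.range (p ^ (m + 1)), f k = ∏ k ∈ Finset.range (d * p ^ j), f k := by
      rw [hdm1]
    exact e.trans (prod_range_periodic f d hf _)
  have hxper : ∀ k c : ℕ, x ((k + d * c : ℕ) : ZMod (p ^ (m + 1))) = x (k : ZMod (p ^ (m + 1))) := by
    intro k c
    induction c with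
    | zero => simp
    | succ c ih => rw [mul_add, mul_one, ← add_assoc, hfx, ih]
  let y : ZMod (p ^ m) → 𝔐 := fun i => x ((i.val : ℕ) : ZMod (p ^ (m + 1)))
  have hy : ∀ k : ℕ, y (k : ZMod (p ^ m)) = x (k : ZMod (p ^ (m + 1))) := by
    intro k
    show x (((k : ZMod (p ^ m)).val : ℕ) : ZMod (p ^ (m + 1))) = _
    rw [ZMod.val_natCast]
    conv_rhs => rw [← Nat.mod_add_div k (p ^ m)]
    rw [← hdm, mul_assoc, hxper]
  have hxy : diagHom p m y = x := by
    funext i
    rw [diagHom_apply]
    have : ZMod.castHom (pdvd p m) (ZMod (p ^ m)) i = ((i.val : ℕ) : ZMod (p ^ m)) := by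
      rw [ZMod.castHom_apply, ZMod.natCast_val]
    rw [this, hy, ZMod.natCast_zmod_val]
  have hW : (Wof p m u).coeff x = w ^ p ^ (j - 1) := by
    rw [Wof_eq, ← hxy, coeff_mapDomain_inj (diagHom_injective p m), coeff_extPow,
      prod_zmod_eq_range, ← prod_range_periodic f d hf, hdm]
    exact Finset.prod_congr rfl fun k _ => by rw [hy]
  rw [MonoidAlgebra.coeff_sub, Finsupp.sub_apply, hU, hW]
  have hfermat : (p : ℤ) ∣ w ^ p - w := by
    have := (ZMod.intCast_eq_intCast_iff_dvd_sub w (w ^ p) p).1 (by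
      rw [Int.cast_pow, ZMod.pow_card])
    exact this
  have := dvd_sub_pow_of_dvd_sub hfermat (j - 1)
  rw [← pow_mul, ← pow_succ', Nat.sub_add_cancel hjpos] at this
  exact_mod_cast this

end Prime

end Pool.Agent.WhK
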