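import Mathlib
import Pool.Agent.Lib_helper44.Wh.Norm

/-!
# The integral logarithm modulo `p ^ (m + 1)` of the unit group of a monoid ring
-/

set_option autoImplicit false

namespace Pool.Agent.WhK

open Finset

section Gamma

variable {𝔐 : Type*} [Monoid 𝔐] {K : Type*} (cl : 𝔐 → K) (hcl : ∀ a b, cl (a * b) = cl (b * a))
  (p m : ℕ) [Fact p.Prime]

/-- a chosen norm representative -/
noncomputable def zOf (u : MonoidAlgebra ℤ 𝔐) : MonoidAlgebra ℤ (ZMod (p ^ (m + 1)) → 𝔐) :=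
  (exists_z p m u).choose

theorem zOf_spec (u : MonoidAlgebra ℤ 𝔐) :
    ∑ i, rho i (zOf p m u) = extPow (ZMod (p ^ (m + 1))) u - Wof p m u :=
  (exists_z p m u).choose_spec

theorem isTrip_of (u v : MonoidAlgebra ℤ 𝔐) (huv : u * v = 1) (hvu : v * u = 1)
    {z : MonoidAlgebra ℤ (ZMod (p ^ (m + 1)) → 𝔐)}
    (hz : ∑ i, rho i z = extPow (ZMod (p ^ (m + 1))) u - Wof p m u) :
    (cycData (p ^ (m + 1)) cl hcl).IsTrip (extPow (ZMod (p ^ (m + 1))) u)
      (extPow (ZMod (p ^ (m + 1))) v) (Wof p m u) (Wof p m v) z where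
  U_inv i := rho_extPow i u
  W_inv i := rho_Wof p m i u
  Ui_inv i := rho_extPow i v
  Wi_inv i := rho_Wof p m i v
  h1 := by rw [← extPow_mul, huv, extPow_one]
  h2 := by rw [← extPow_mul, hvu, extPow_one]
  h3 := by rw [← map_mul, huv, map_one]
  h4 := by rw [← map_mul, hvu, map_one]
  hz := hz

/-- the value of the integral logarithm -/
noncomputable def gamVal (u : (MonoidAlgebra ℤ 𝔐)ˣ) : K →₀ ZMod (p ^ (m + 1)) :=
  (cycData (p ^ (m + 1)) cl hcl).gam (extPow (ZMod (p ^ (m + 1))) (u⁻¹ : (MonoidAlgebra ℤ 𝔐)ˣ).val)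
    (Wof p m (u⁻¹ : (MonoidAlgebra ℤ 𝔐)ˣ).val) (zOf p m u.val)

variable {cl hcl p m}

theorem gamVal_eq (hp : p ≠ 2) (u : (MonoidAlgebra ℤ 𝔐)ˣ)
    {z : MonoidAlgebra ℤ (ZMod (p ^ (m + 1)) → 𝔐)}
    (hz : ∑ i, rho i z = extPow (ZMod (p ^ (m + 1))) u.val - Wof p m u.val) :
    gamVal cl hcl p m u = (cycData (p ^ (m + 1)) cl hcl).gam
      (extPow (ZMod (p ^ (m + 1))) (u⁻¹ : (MonoidAlgebra ℤ 𝔐)ˣ).val)
      (Wof p m (u⁻¹ : (MonoidAlgebra ℤ 𝔐)ˣ).val) z := by
  have hodd : Odd (p ^ (m + 1)) := (Nat.Prime.odd_of_ne_two Fact.out hp).pow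
  exact CycData.IsTrip.gam_indep hodd
    (isTrip_of cl hcl p m u.val (u⁻¹ : (MonoidAlgebra ℤ 𝔐)ˣ).val u.mul_inv u.inv_mul hz)
    (isTrip_of cl hcl p m u.val (u⁻¹ : (MonoidAlgebra ℤ 𝔐)ˣ).val u.mul_inv u.inv_mul
      (zOf_spec p m u.val))

theorem gamVal_mul (hp : p ≠ 2) (u v : (MonoidAlgebra ℤ 𝔐)ˣ) :
    gamVal cl hcl p m (u * v) = gamVal cl hcl p m u + gamVal cl hcl p m v := by
  have t1 := isTrip_of cl hcl p m u.val (u⁻¹ : (MonoidAlgebra ℤ 𝔐)ˣ).val u.mul_inv u.inv_mul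
      (zOf_spec p m u.val)
  have t2 := isTrip_of cl hcl p m v.val (v⁻¹ : (MonoidAlgebra ℤ 𝔐)ˣ).val v.mul_inv v.inv_mul
      (zOf_spec p m v.val)
  have hz : ∑ i, rho i (extPow (ZMod (p ^ (m + 1))) u.val * zOf p m v.val +
      zOf p m u.val * Wof p m v.val) =
      extPow (ZMod (p ^ (m + 1))) (u * v).val - Wof p m (u * v).val := by
    have h : ∀ i, rho i (extPow (ZMod (p ^ (m + 1))) u.val * zOf p m v.val +
        zOf p m u.val * Wof p m v.val) = extPow (ZMod (p ^ (m + 1))) u.val * rho i (zOf p m v.val) +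
        rho i (zOf p m u.val) * Wof p m v.val := fun i => by
      rw [map_add, map_mul, map_mul, rho_extPow, rho_Wof]
    rw [Finset.sum_congr rfl fun i _ => h i, Finset.sum_add_distrib, ← Finset.mul_sum,
      ← Finset.sum_mul, zOf_spec, zOf_spec, Units.val_mul, extPow_mul, map_mul, mul_sub, sub_mul]
    abel
  rw [gamVal_eq hp (u * v) hz]
  have h := t1.gam_mul t2
  rw [← extPow_mul, ← map_mul, ← Units.val_mul, ← mul_inv_rev] at h
  exact h

variable (cl hcl p m) in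
/-- the integral logarithm -/
noncomputable def Gam (hp : p ≠ 2) :
    (MonoidAlgebra ℤ 𝔐)ˣ →* Multiplicative (K →₀ ZMod (p ^ (m + 1))) :=
  MonoidHom.mk' (fun u => Multiplicative.ofAdd (gamVal cl hcl p m u)) fun u v => by
    rw [gamVal_mul hp, ofAdd_add]

theorem Gam_apply (hp : p ≠ 2) (u : (MonoidAlgebra ℤ 𝔐)ˣ) :
    (Gam cl hcl p m hp u).toAdd = gamVal cl hcl p m u := rfl

end Gamma

section Comm

theorem sum_zmod_odd {N : ℕ} [NeZero N] (hN : Odd N) : ∑ j : ZMod N, (1 - j) = 0 := by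
  have h1 : ∑ j : ZMod N, (1 - j) = ∑ j : ZMod N, j :=
    Fintype.sum_equiv (Equiv.subLeft 1) _ _ fun j => by rw [Equiv.subLeft_apply]
  have h2 : ∑ j : ZMod N, j = -∑ j : ZMod N, j := by
    rw [← Finset.sum_neg_distrib]
    exact Fintype.sum_equiv (Equiv.neg _) _ _ fun j => by simp
  rw [h1]
  have h3 : (2 : ZMod N) * ∑ j : ZMod N, j = 0 := by
    rw [two_mul]
    nth_rw 1 [h2]
    exact neg_add_cancel _
  have hu : IsUnit (2 : ZMod N) := by
    have := (ZMod.isUnit_iff_coprime 2 N).2 (by rw [Nat.coprime_two_left]; exact hN)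
    simpa using this
  exact (hu.mul_right_eq_zero).1 h3

variable {C : Type*} [CommMonoid C] {N : ℕ} [NeZero N]

omit [NeZero N] in
theorem prodSeq_comm [NeZero N] (g : ZMod N → C) : prodSeq g = ∏ i, g i := by
  rw [prod_zmod_eq_range, prodSeq, Finset.prod_range]
  rw [← List.prod_ofFn, List.ofFn_eq_map, ← List.map_coe_finRange_eq_range, List.map_map]
  rfl

/-- the multiplication map of a commutative monoid, on monoid rings -/
noncomputable def muHom (C : Type*) [CommMonoid C] (N : ℕ) [NeZero N] :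
    MonoidAlgebra ℤ (ZMod N → C) →+* MonoidAlgebra ℤ C :=
  MonoidAlgebra.mapDomainRingHom ℤ
    ({ toFun := fun g => ∏ i, g i
       map_one' := by simp
       map_mul' := fun g h => by simp [Finset.prod_mul_distrib] } : (ZMod N → C) →* C)

theorem muHom_eq (x : MonoidAlgebra ℤ (ZMod N → C)) :
    muHom C N x = MonoidAlgebra.mapDomain (fun g : ZMod N → C => ∏ i, g i) x := rfl

theorem muHom_rho (j : ZMod N) (x : MonoidAlgebra ℤ (ZMod N → C)) :
    muHom C N (rho j x) = muHom C N x := by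
  rw [muHom_eq, muHom_eq, rho_eq, mapDomain_comp']
  congr 1
  funext g
  exact Fintype.prod_equiv (Equiv.addRight j) _ _ fun i => rfl

theorem muHom_extPow (u : MonoidAlgebra ℤ C) : muHom C N (extPow (ZMod N) u) = u ^ N := by
  rw [muHom_eq, mapDomain_extPow_prod, ZMod.card]

/-- the Frobenius of the monoid ring of a commutative monoid -/
noncomputable def Phi (C : Type*) [CommMonoid C] (p : ℕ) : MonoidAlgebra ℤ C →+* MonoidAlgebra ℤ C :=
  MonoidAlgebra.mapDomainRingHom ℤ (powMonoidHom p)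

theorem muHom_Wof (p m : ℕ) [Fact p.Prime] (u : MonoidAlgebra ℤ C) :
    muHom C (p ^ (m + 1)) (Wof p m u) = (Phi C p u) ^ (p ^ m) := by
  rw [muHom_eq, Wof_eq, mapDomain_comp']
  have h1 : (fun y : ZMod (p ^ m) → C => ∏ i, diagHom p m y i) =
      fun y => (powMonoidHom p) (∏ j, y j) := by
    funext y
    rw [prod_zmod_eq_range, prod_zmod_eq_range]
    let f : ℕ → C := fun k => y (k : ZMod (p ^ m))
    have hf : ∀ k, f (k + p ^ m) = f k := fun k => by
      show y ((k + p ^ m : ℕ) : ZMod (p ^ m)) = _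
      rw [Nat.cast_add, ZMod.natCast_self, add_zero]
    have h2 := prod_range_periodic f (p ^ m) hf p
    rw [← pow_succ] at h2
    show _ = (∏ k ∈ Finset.range (p ^ m), f k) ^ p
    rw [← h2]
    refine Finset.prod_congr rfl fun k _ => ?_
    rw [diagHom_apply, map_natCast]
  rw [h1, ← mapDomain_comp' (fun y : ZMod (p ^ m) → C => ∏ j, y j) (powMonoidHom p)]
  have h3 : MonoidAlgebra.mapDomain (fun y : ZMod (p ^ m) → C => ∏ j, y j)
      (extPow (ZMod (p ^ m)) u) = u ^ (p ^ m) := by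
    rw [mapDomain_extPow_prod, ZMod.card]
  rw [h3]
  exact map_pow (Phi C p) u (p ^ m)

variable {𝔐 : Type*} [Monoid 𝔐] {K : Type*} {cl : 𝔐 → K} {hcl : ∀ a b, cl (a * b) = cl (b * a)}
  {p m : ℕ} [Fact p.Prime]

/-- push forward of an element of `ℤ[C]` to class functions modulo `N` -/
noncomputable def kap (N : ℕ) (c : C → K) : MonoidAlgebra ℤ C →+ (K →₀ ZMod N) :=
  ((Finsupp.mapRange.addMonoidHom (Int.castAddHom (ZMod N))).comp
    (Finsupp.mapDomain.addMonoidHom c)).comp MonoidAlgebra.coeffAddEquiv.toAddMonoidHom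

omit [NeZero N] in
theorem kap_single (c : C → K) (a : C) (r : ℤ) :
    kap N c (MonoidAlgebra.single a r) = Finsupp.single (c a) (r : ZMod N) := by
  simp [kap]

/-- entrywise extension of a monoid homomorphism -/
def entHom (N : ℕ) (f : C →* 𝔐) : (ZMod N → C) →* (ZMod N → 𝔐) where
  toFun g i := f (g i)
  map_one' := by funext i; exact map_one f
  map_mul' g h := by funext i; exact map_mul f _ _

theorem Tmod_ent (f : C →* 𝔐) (x : MonoidAlgebra ℤ (ZMod N → C)) :
    Tmod cl (MonoidAlgebra.mapDomain (entHom N f) x) = kap N (fun a => cl (f a)) (muHom C N x) := by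
  have h1 : Tint cl (MonoidAlgebra.mapDomain (entHom N f) x) =
      Finsupp.mapDomain (fun a => cl (f a)) (muHom C N x).coeff := by
    rw [Tint_apply, muHom_eq]
    show Finsupp.mapDomain _ (Finsupp.mapDomain _ x.coeff) =
      Finsupp.mapDomain _ (Finsupp.mapDomain _ x.coeff)
    rw [← Finsupp.mapDomain_comp, ← Finsupp.mapDomain_comp]
    congr 1
    funext g
    simp only [Function.comp_apply]
    rw [← prodSeq_comm]
    congr 1
    unfold prodSeq
    rw [map_list_prod, List.map_map]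
    rfl
  rw [Tmod_apply, h1]
  rfl

theorem ent_extPow {f : C →* 𝔐} (hf : Function.Injective f) (u : MonoidAlgebra ℤ C) :
    extPow (ZMod N) (MonoidAlgebra.mapDomain f u) =
      MonoidAlgebra.mapDomain (entHom N f) (extPow (ZMod N) u) :=
  extPow_mapDomain (ZMod N) hf u

theorem ent_Wof {f : C →* 𝔐} (hf : Function.Injective f) (u : MonoidAlgebra ℤ C) :
    Wof p m (MonoidAlgebra.mapDomain f u) =
      MonoidAlgebra.mapDomain (entHom (p ^ (m + 1)) f) (Wof p m u) := by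
  rw [Wof_eq, Wof_eq, ent_extPow hf, mapDomain_comp', mapDomain_comp']
  rfl

theorem ent_rho (f : C →* 𝔐) (i : ZMod N) (x : MonoidAlgebra ℤ (ZMod N → C)) :
    rho i (MonoidAlgebra.mapDomain (entHom N f) x) =
      MonoidAlgebra.mapDomain (entHom N f) (rho i x) := by
  rw [rho_eq, rho_eq, mapDomain_comp', mapDomain_comp']
  rfl

theorem gamVal_comm (hp : p ≠ 2) {f : C →* 𝔐} (hf : Function.Injective f)
    (u : (MonoidAlgebra ℤ C)ˣ) :
    ∃ y : MonoidAlgebra ℤ C,
      (p ^ (m + 1)) • y = 1 - ((u⁻¹ : (MonoidAlgebra ℤ C)ˣ) : MonoidAlgebra ℤ C) ^ p ^ (m + 1) *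
        (Phi C p (u : MonoidAlgebra ℤ C)) ^ p ^ m ∧
      gamVal cl hcl p m (Units.map (MonoidAlgebra.mapDomainRingHom ℤ f).toMonoidHom u) =
        kap (p ^ (m + 1)) (fun a => cl (f a)) y := by
  have hodd : Odd (p ^ (m + 1)) := (Nat.Prime.odd_of_ne_two Fact.out hp).pow
  set z := zOf p m (u : MonoidAlgebra ℤ C) with hz
  set ui : MonoidAlgebra ℤ C := ((u⁻¹ : (MonoidAlgebra ℤ C)ˣ) : MonoidAlgebra ℤ C) with hui
  refine ⟨ui ^ p ^ (m + 1) * muHom C (p ^ (m + 1)) z, ?_, ?_⟩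
  · have h1 : muHom C (p ^ (m + 1)) (∑ i, rho i z) = (p ^ (m + 1)) • muHom C (p ^ (m + 1)) z := by
      rw [map_sum, Finset.sum_congr rfl fun i _ => muHom_rho i z, Finset.sum_const,
        Finset.card_univ, ZMod.card]
    rw [zOf_spec, map_sub, muHom_extPow, muHom_Wof] at h1
    rw [mul_comm (ui ^ _), ← smul_mul_assoc, ← h1, sub_mul, ← mul_pow, hui, Units.mul_inv, one_pow,
      mul_comm (_ ^ p ^ m)]
  · set F := MonoidAlgebra.mapDomainRingHom ℤ (entHom (p ^ (m + 1)) f) with hF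
    have hFa : ∀ x, F x = MonoidAlgebra.mapDomain (entHom (p ^ (m + 1)) f) x := fun x => rfl
    have e1 : extPow (ZMod (p ^ (m + 1))) (MonoidAlgebra.mapDomain f (u : MonoidAlgebra ℤ C)) =
        F (extPow (ZMod (p ^ (m + 1))) (u : MonoidAlgebra ℤ C)) := ent_extPow hf _
    have e2 : Wof p m (MonoidAlgebra.mapDomain f (u : MonoidAlgebra ℤ C)) =
        F (Wof p m (u : MonoidAlgebra ℤ C)) := ent_Wof hf _
    have e1' : extPow (ZMod (p ^ (m + 1))) (MonoidAlgebra.mapDomain f ui) =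
        F (extPow (ZMod (p ^ (m + 1))) ui) := ent_extPow hf _
    have e2' : Wof p m (MonoidAlgebra.mapDomain f ui) = F (Wof p m ui) := ent_Wof hf _
    have hzz : ∑ i, rho i (F z) = extPow (ZMod (p ^ (m + 1)))
        (Units.map (MonoidAlgebra.mapDomainRingHom ℤ f).toMonoidHom u).val -
        Wof p m (Units.map (MonoidAlgebra.mapDomainRingHom ℤ f).toMonoidHom u).val := by
      show _ = extPow (ZMod (p ^ (m + 1))) (MonoidAlgebra.mapDomain f (u : MonoidAlgebra ℤ C)) -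
        Wof p m (MonoidAlgebra.mapDomain f (u : MonoidAlgebra ℤ C))
      rw [e1, e2, ← map_sub, ← zOf_spec, map_sum]
      exact Finset.sum_congr rfl fun i _ => ent_rho f i z
    rw [gamVal_eq hp _ hzz]
    have hinv : ((Units.map (MonoidAlgebra.mapDomainRingHom ℤ f).toMonoidHom u)⁻¹ :
        (MonoidAlgebra ℤ 𝔐)ˣ).val = MonoidAlgebra.mapDomain f ui := rfl
    rw [hinv, e1', e2']
    unfold CycData.gam
    have hT : ∀ x, (cycData (p ^ (m + 1)) cl hcl).T (F x) =
        kap (p ^ (m + 1)) (fun a => cl (f a)) (muHom C (p ^ (m + 1)) x) := fun x =>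
      Tmod_ent f x
    have hr : ∀ j x, (cycData (p ^ (m + 1)) cl hcl).ρ j (F x) = F (rho j x) := fun j x =>
      ent_rho f j x
    have h3 : ∀ j : ZMod (p ^ (m + 1)), (1 - j) • (cycData (p ^ (m + 1)) cl hcl).T
        (F (extPow (ZMod (p ^ (m + 1))) ui) * F z * F (Wof p m ui) *
          (cycData (p ^ (m + 1)) cl hcl).ρ j (F z)) =
        (1 - j) • kap (p ^ (m + 1)) (fun a => cl (f a)) (muHom C (p ^ (m + 1))
          (extPow (ZMod (p ^ (m + 1))) ui * z * Wof p m ui * z)) := by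
      intro j
      rw [hr, ← map_mul, ← map_mul, ← map_mul, hT, map_mul _ _ (rho j z), muHom_rho, ← map_mul]
    rw [Finset.sum_congr rfl fun j _ => h3 j, ← Finset.sum_smul, sum_zmod_odd hodd, zero_smul,
      add_zero, ← map_mul, hT, map_mul, muHom_extPow]

end Comm

end Pool.Agent.WhK
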