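import Mathlib
import Pool.Agent.Lib_helper44.Wh.Gamma

/-!
# Units of the group ring of a finite cyclic group: norms and the integral logarithm
-/

set_option autoImplicit false

namespace Pool.Agent.WhK

open Finset

section Padic

variable {R : Type*} [CommRing R] {p : ℕ}

theorem one_add_pow_prime (hp : p.Prime) (h2 : p ≠ 2) (t : ℕ) (ht : 1 ≤ t) (x : R) :
    ∃ w, (1 + (p : R) ^ t * x) ^ p = 1 + (p : R) ^ (t + 1) * (x + p * w) := by
  set b : R := (p : R) ^ t * x with hb
  have hp3 : 3 ≤ p := by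
    have := hp.two_le
    omega
  have h := add_pow_prime_eq hp b 1
  have hS : ∃ s, ∑ k ∈ Ioo 0 p, b ^ (k - 1) * (1 : R) ^ (p - k - 1) * ((p.choose k / p : ℕ) : R) =
      1 + b * s := by
    have hI : Ioo 0 p = insert 1 (Ioo 1 p) := by
      ext k
      simp only [Finset.mem_Ioo, Finset.mem_insert]
      omega
    rw [hI, Finset.sum_insert (by simp)]
    have h1 : b ^ (1 - 1) * (1 : R) ^ (p - 1 - 1) * ((p.choose 1 / p : ℕ) : R) = 1 := by
      rw [Nat.choose_one_right, Nat.div_self hp.pos]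
      simp
    rw [h1]
    have h2 : b ∣ ∑ k ∈ Ioo 1 p, b ^ (k - 1) * (1 : R) ^ (p - k - 1) *
        ((p.choose k / p : ℕ) : R) := by
      refine Finset.dvd_sum fun k hk => ?_
      rw [Finset.mem_Ioo] at hk
      have : b ^ (k - 1) = b * b ^ (k - 2) := by
        rw [← pow_succ']
        congr 1
        omega
      rw [this, mul_assoc, mul_assoc]
      exact dvd_mul_right _ _
    obtain ⟨s, hs⟩ := h2
    exact ⟨s, by rw [hs]⟩
  obtain ⟨s, hs⟩ := hS
  rw [hs, one_pow, mul_one] at h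
  have e1 : b ^ p = (p : R) ^ (t + 2) * ((p : R) ^ (t * p - (t + 2)) * x ^ p) := by
    rw [hb, mul_pow, ← pow_mul, ← mul_assoc, ← pow_add]
    congr 2
    have : t + 2 ≤ t * p := by nlinarith
    omega
  have e2 : b * b = (p : R) ^ (t + 1) * ((p : R) ^ (t - 1) * x ^ 2) := by
    rw [hb, ← mul_assoc ((p : R) ^ (t + 1)), ← pow_add]
    have : t + 1 + (t - 1) = t + t := by omega
    rw [this, pow_add]
    ring
  refine ⟨(p : R) ^ (t - 1) * x ^ 2 * s + (p : R) ^ (t * p - (t + 2)) * x ^ p, ?_⟩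
  have e3 : b ^ p + 1 + p * b * (1 + b * s) = 1 + p * b + p * (b * b) * s + b ^ p := by ring
  rw [add_comm 1 b, h, e3, e2, e1, hb]
  ring

theorem one_add_pow_prime_pow (hp : p.Prime) (h2 : p ≠ 2) (t : ℕ) (ht : 1 ≤ t) (x : R) (m : ℕ) :
    ∃ w, (1 + (p : R) ^ t * x) ^ p ^ m = 1 + (p : R) ^ (t + m) * (x + p * w) := by
  induction m with
  | zero => exact ⟨0, by simp⟩
  | succ m ih =>
    obtain ⟨w, hw⟩ := ih
    obtain ⟨w', hw'⟩ := one_add_pow_prime hp h2 (t + m) (by omega) (x + p * w)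
    refine ⟨w + w', ?_⟩
    rw [pow_succ, pow_mul, hw, hw', add_assoc t m 1]
    ring

theorem eq_one_of_dvd (hp : p.Prime) (h2 : p ≠ 2)
    (htf : ∀ (k : ℕ) (x y : R), (p : R) ^ k * x = (p : R) ^ k * y → x = y)
    (hint : ∀ x : R, (∀ t : ℕ, (p : R) ^ t ∣ x) → x = 0)
    (a : R) (ha : (p : R) ∣ a - 1) (h : ∀ m : ℕ, (p : R) ^ (2 * m + 2) ∣ a ^ p ^ m - 1) : a = 1 := by
  have key : ∀ t : ℕ, (p : R) ^ (t + 1) ∣ a - 1 := by
    intro t
    induction t with
    | zero => simpa using ha
    | succ t ih =>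
      obtain ⟨x, hx⟩ := ih
      have hax : a = 1 + (p : R) ^ (t + 1) * x := by rw [← hx]; ring
      obtain ⟨w, hw⟩ := one_add_pow_prime_pow hp h2 (t + 1) (by omega) x (t + 1)
      obtain ⟨c, hc⟩ := h (t + 1)
      rw [hax, hw, add_sub_cancel_left] at hc
      have e : 2 * (t + 1) + 2 = (t + 1 + (t + 1)) + 2 := by ring
      rw [e, pow_add _ _ 2, mul_assoc] at hc
      have h3 := htf _ _ _ hc
      have hxd : (p : R) ∣ x := ⟨p * c - w, by rw [mul_sub, ← mul_assoc, ← pow_two, ← h3]; ring⟩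
      obtain ⟨x', hx'⟩ := hxd
      exact ⟨x', by rw [hx, hx', pow_succ _ (t + 1)]; ring⟩
  have h0 : a - 1 = 0 := hint _ fun t => (pow_dvd_pow _ (Nat.le_succ t)).trans (key t)
  exact sub_eq_zero.1 h0

end Padic

section Lam

variable {C : Type*} [CommGroup C] (p m : ℕ) [Fact p.Prime]

/-- the integral logarithm of units of the group ring of a commutative group -/
noncomputable def lamVal (u : (MonoidAlgebra ℤ C)ˣ) : C →₀ ZMod (p ^ (m + 1)) :=
  gamVal (fun a : C => a) (fun a b => mul_comm a b) p m u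

variable {p m}

theorem lamVal_mul (hp : p ≠ 2) (u v : (MonoidAlgebra ℤ C)ˣ) :
    lamVal p m (u * v) = lamVal p m u + lamVal p m v := gamVal_mul hp u v

theorem lamVal_one (hp : p ≠ 2) : lamVal p m (1 : (MonoidAlgebra ℤ C)ˣ) = 0 := by
  have h := lamVal_mul (m := m) hp (1 : (MonoidAlgebra ℤ C)ˣ) 1
  rw [mul_one] at h
  exact left_eq_add.1 h

theorem lamVal_inv (hp : p ≠ 2) (u : (MonoidAlgebra ℤ C)ˣ) :
    lamVal p m u⁻¹ = -lamVal p m u := by
  have h := lamVal_mul (m := m) hp u⁻¹ u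
  rw [inv_mul_cancel, lamVal_one hp] at h
  exact eq_neg_of_add_eq_zero_left h.symm

theorem lamVal_pow (hp : p ≠ 2) (u : (MonoidAlgebra ℤ C)ˣ) (k : ℕ) :
    lamVal p m (u ^ k) = k • lamVal p m u := by
  induction k with
  | zero => rw [pow_zero, lamVal_one hp, zero_smul]
  | succ k ih => rw [pow_succ u, lamVal_mul hp, ih, succ_nsmul]

theorem lamVal_spec (hp : p ≠ 2) (u : (MonoidAlgebra ℤ C)ˣ) :
    ∃ y : MonoidAlgebra ℤ C,
      (p ^ (m + 1)) • y = 1 - ((u⁻¹ : (MonoidAlgebra ℤ C)ˣ) : MonoidAlgebra ℤ C) ^ p ^ (m + 1) *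
        (Phi C p (u : MonoidAlgebra ℤ C)) ^ p ^ m ∧
      lamVal p m u = kap (p ^ (m + 1)) (fun a => a) y := by
  obtain ⟨y, hy, hy2⟩ := gamVal_comm (cl := fun a : C => a) (hcl := fun a b => mul_comm a b)
    (m := m) hp (f := MonoidHom.id C) Function.injective_id u
  refine ⟨y, hy, ?_⟩
  have : Units.map (MonoidAlgebra.mapDomainRingHom ℤ (MonoidHom.id C)).toMonoidHom u = u := by
    ext1
    show MonoidAlgebra.mapDomainRingHom ℤ (MonoidHom.id C) (u : MonoidAlgebra ℤ C) = u
    rw [MonoidAlgebra.mapDomainRingHom_id]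
    rfl
  rw [this] at hy2
  exact hy2

theorem smul_inj' {X : Type*} {a : ℕ} (ha : a ≠ 0) {x y : MonoidAlgebra ℤ X}
    (h : a • x = a • y) : x = y := by
  ext g
  have := congrArg (fun z : MonoidAlgebra ℤ X => z.coeff g) h
  simp only [MonoidAlgebra.coeff_smul, Finsupp.smul_apply, nsmul_eq_mul] at this
  exact mul_left_cancel₀ (Nat.cast_ne_zero.2 ha) this

/-- naturality of the logarithm, for injective homomorphisms -/
theorem lamVal_map (hp : p ≠ 2) {D : Type*} [CommGroup D] {f : C →* D}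
    (hf : Function.Injective f) (u : (MonoidAlgebra ℤ C)ˣ) :
    lamVal p m (Units.map (MonoidAlgebra.mapDomainRingHom ℤ f).toMonoidHom u) =
      Finsupp.mapDomain f (lamVal p m u) := by
  have hp0 : p ≠ 0 := (Nat.Prime.pos Fact.out).ne'
  obtain ⟨y, hy, hy2⟩ := lamVal_spec (m := m) hp u
  obtain ⟨y', hy', hy2'⟩ := gamVal_comm (cl := fun a : D => a) (hcl := fun a b => mul_comm a b)
    (m := m) hp hf u
  have hyy : y' = y := smul_inj' (pow_ne_zero (m + 1) hp0) (hy'.trans hy.symm)
  rw [lamVal, hy2', hyy, hy2]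
  -- kap naturality
  have h : ∀ y : MonoidAlgebra ℤ C, kap (p ^ (m + 1)) (fun a : C => f a) y =
      Finsupp.mapDomain f (kap (p ^ (m + 1)) (fun a : C => a) y) := by
    intro y
    induction y using MonoidAlgebra.induction_linear with
    | zero => simp
    | add x x' hx hx' => rw [map_add, hx, hx', map_add, Finsupp.mapDomain_add]
    | single g r => rw [kap_single, kap_single, Finsupp.mapDomain_single]
  exact h y

omit [Fact p.Prime] in
theorem Phi_eq_self (hC : ∀ c : C, c ^ p = c) (x : MonoidAlgebra ℤ C) : Phi C p x = x := by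
  have h : powMonoidHom p = MonoidHom.id C := by
    ext c
    exact hC c
  rw [Phi, h, MonoidAlgebra.mapDomainRingHom_id]
  rfl

theorem lamVal_spec' (hp : p ≠ 2) (hC : ∀ c : C, c ^ p = c) (u : (MonoidAlgebra ℤ C)ˣ) :
    ∃ y : MonoidAlgebra ℤ C,
      (p ^ (m + 1)) • y = 1 - ((u⁻¹ : (MonoidAlgebra ℤ C)ˣ) : MonoidAlgebra ℤ C) ^
        ((p - 1) * p ^ m) ∧
      lamVal p m u = kap (p ^ (m + 1)) (fun a => a) y := by
  obtain ⟨y, hy, hy2⟩ := lamVal_spec (m := m) hp u
  refine ⟨y, ?_, hy2⟩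
  rw [hy, Phi_eq_self hC]
  congr 1
  have hp1 : 1 ≤ p := (Nat.Prime.pos Fact.out)
  have e : p ^ (m + 1) = (p - 1) * p ^ m + p ^ m := by
    conv_rhs => rw [← Nat.succ_mul]
    rw [pow_succ', Nat.succ_eq_add_one, Nat.sub_add_cancel hp1]
  rw [e, pow_add, mul_assoc, ← mul_pow, Units.inv_mul, one_pow, mul_one]

theorem kap_coeff {X : Type*} (N : ℕ) (y : MonoidAlgebra ℤ X) (c : X) :
    kap N (fun a => a) y c = ((y.coeff c : ℤ) : ZMod N) := by
  have h : ∀ y : MonoidAlgebra ℤ X, kap N (fun a => a) y =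
      Finsupp.mapRange.addMonoidHom (Int.castAddHom (ZMod N)) y.coeff := by
    intro y
    simp only [kap, AddMonoidHom.comp_apply]
    congr 1
    exact Finsupp.mapDomain_id
  rw [h]
  rfl

theorem pow_dvd_iff {X : Type*} [Monoid X] (a : ℕ) (x : MonoidAlgebra ℤ X)
    (h : ∀ c, (a : ℤ) ∣ x.coeff c) : ∃ y, x = a • y := by
  refine ⟨.ofCoeff (Finsupp.mapRange (fun r => r / (a : ℤ)) (Int.zero_ediv _) x.coeff), ?_⟩
  ext c
  rw [MonoidAlgebra.coeff_smul, Finsupp.smul_apply, nsmul_eq_mul]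
  exact (Int.mul_ediv_cancel' (h c)).symm

/-- the logarithm detects non-torsion units -/
theorem pow_eq_one_of_lamVal (hp : p ≠ 2) (hC : ∀ c : C, c ^ p = c) (u : (MonoidAlgebra ℤ C)ˣ)
    (h : ∀ m, lamVal p m u = 0) : u ^ (p - 1) = 1 := by
  have hprime : p.Prime := Fact.out
  have hp0 : p ≠ 0 := hprime.pos.ne'
  set a : MonoidAlgebra ℤ C := ((u⁻¹ : (MonoidAlgebra ℤ C)ˣ) : MonoidAlgebra ℤ C) ^ (p - 1) with ha
  have hdvd : ∀ m : ℕ, (p : MonoidAlgebra ℤ C) ^ (2 * m + 2) ∣ a ^ p ^ m - 1 := by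
    intro m
    obtain ⟨y, hy, hy2⟩ := lamVal_spec' (m := m) hp hC u
    rw [h m] at hy2
    obtain ⟨y', hy'⟩ := pow_dvd_iff (p ^ (m + 1)) y fun c => by
      have h3 := DFunLike.congr_fun hy2.symm c
      rw [kap_coeff, Finsupp.zero_apply] at h3
      exact (ZMod.intCast_zmod_eq_zero_iff_dvd _ _).1 h3
    rw [hy', ← mul_smul, ← pow_add, pow_mul, ← ha, nsmul_eq_mul, Nat.cast_pow] at hy
    have e : m + 1 + (m + 1) = 2 * m + 2 := by ring
    rw [e] at hy
    exact ⟨-y', by rw [mul_neg, hy]; ring⟩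
  have hap : (p : MonoidAlgebra ℤ C) ∣ a - 1 := by
    have := hdvd 0
    rw [pow_zero, pow_one, mul_zero, zero_add] at this
    exact (dvd_pow_self _ two_ne_zero).trans this
  have ha1 : a = 1 := by
    refine eq_one_of_dvd hprime hp ?_ ?_ a hap hdvd
    · intro k x y hxy
      refine smul_inj' (pow_ne_zero k hp0) ?_
      rwa [nsmul_eq_mul, nsmul_eq_mul, Nat.cast_pow]
    · intro x hx
      ext c
      have hc : ∀ t : ℕ, (p : ℤ) ^ t ∣ x.coeff c := by
        intro t
        obtain ⟨z, hz⟩ := hx t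
        refine ⟨z.coeff c, ?_⟩
        rw [hz, ← Nat.cast_pow, ← nsmul_eq_mul, MonoidAlgebra.coeff_smul, Finsupp.smul_apply,
          nsmul_eq_mul, Nat.cast_pow]
      rw [MonoidAlgebra.coeff_zero, Finsupp.zero_apply]
      by_contra hne
      have h1 := Int.natAbs_dvd_natAbs.2 (hc (x.coeff c).natAbs)
      rw [Int.natAbs_pow, Int.natAbs_natCast] at h1
      exact absurd (Nat.le_of_dvd (Int.natAbs_pos.2 hne) h1)
        (not_le.2 (Nat.lt_pow_self hprime.one_lt))
  ext1
  have h2 : ((u⁻¹ : (MonoidAlgebra ℤ C)ˣ) ^ (p - 1) : (MonoidAlgebra ℤ C)ˣ) = 1 := by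
    ext1
    rw [Units.val_pow_eq_pow_val]
    exact ha1
  rw [inv_pow, inv_eq_one] at h2
  rw [h2]

end Lam

section NormMap

variable {C : Type*} [CommGroup C] {q : ℕ} [NeZero q] (δ : C →* Multiplicative (ZMod q))

/-- homogeneous component -/
noncomputable def pc (d : ZMod q) : MonoidAlgebra ℤ C →+ MonoidAlgebra ℤ C :=
  (MonoidAlgebra.coeffAddEquiv.symm.toAddMonoidHom.comp
    (Finsupp.filterAddHom fun c => (δ c).toAdd = d)).comp
    MonoidAlgebra.coeffAddEquiv.toAddMonoidHom

theorem coeff_pc (d : ZMod q) (x : MonoidAlgebra ℤ C) (c : C) :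
    (pc δ d x).coeff c = if (δ c).toAdd = d then x.coeff c else 0 :=
  Finsupp.filter_apply _ _ _

theorem pc_single (d : ZMod q) (c : C) (r : ℤ) : pc δ d (MonoidAlgebra.single c r) =
    if (δ c).toAdd = d then MonoidAlgebra.single c r else 0 := by
  classical
  ext a
  rw [coeff_pc]
  split_ifs with h1 h2 h2
  · rfl
  · rw [MonoidAlgebra.coeff_single, Finsupp.single_apply, if_neg]
    · rfl
    · rintro rfl; exact h2 h1
  · rw [MonoidAlgebra.coeff_single, Finsupp.single_apply, if_neg]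
    rintro rfl; exact h1 h2
  · rfl

/-- multiplication matrix with respect to the grading -/
noncomputable def Mm : MonoidAlgebra ℤ C →+* Matrix (ZMod q) (ZMod q) (MonoidAlgebra ℤ C) where
  toFun u := Matrix.of fun i j => pc δ (i - j) u
  map_zero' := by
    refine Matrix.ext fun i j => ?_
    rw [Matrix.of_apply, map_zero, Matrix.zero_apply]
  map_add' x y := by
    refine Matrix.ext fun i j => ?_
    rw [Matrix.of_apply, map_add, Matrix.add_apply, Matrix.of_apply, Matrix.of_apply]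
  map_one' := by
    refine Matrix.ext fun i j => ?_
    rw [Matrix.of_apply, MonoidAlgebra.one_def, pc_single, map_one, toAdd_one, Matrix.one_apply]
    by_cases h : i = j
    · rw [if_pos h, if_pos (by rw [h, sub_self]), MonoidAlgebra.one_def]
    · rw [if_neg h, if_neg]
      intro h'
      exact h (sub_eq_zero.1 h'.symm)
  map_mul' x y := by
    refine Matrix.ext fun i k => ?_
    rw [Matrix.mul_apply]
    simp only [Matrix.of_apply]
    induction x using MonoidAlgebra.induction_linear with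
    | zero => simp
    | add x x' hx hx' => rw [add_mul, map_add, hx, hx', ← Finset.sum_add_distrib]
                         exact Finset.sum_congr rfl fun j _ => by rw [map_add, add_mul]
    | single g r =>
      induction y using MonoidAlgebra.induction_linear with
      | zero => simp
      | add y y' hy hy' => rw [mul_add, map_add, hy, hy', ← Finset.sum_add_distrib]
                           exact Finset.sum_congr rfl fun j _ => by rw [map_add, mul_add]
      | single h s =>
        rw [MonoidAlgebra.single_mul_single, pc_single, map_mul, toAdd_mul]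
        rw [Finset.sum_eq_single (i - (δ g).toAdd)]
        · have e1 : (δ g).toAdd = i - (i - (δ g).toAdd) := by ring
          rw [pc_single, pc_single, if_pos e1]
          by_cases hh : (δ g).toAdd + (δ h).toAdd = i - k
          · have e2 : (δ h).toAdd = i - (δ g).toAdd - k := by
              rw [← sub_eq_zero] at hh ⊢
              rw [← hh]
              ring
            rw [if_pos hh, if_pos e2, MonoidAlgebra.single_mul_single]
          · have e2 : ¬ (δ h).toAdd = i - (δ g).toAdd - k := by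
              intro h'
              apply hh
              rw [← sub_eq_zero] at h' ⊢
              rw [← h']
              ring
            rw [if_neg hh, if_neg e2, mul_zero]
        · intro j _ hj
          rw [pc_single, if_neg, zero_mul]
          intro h'
          apply hj
          rw [h']
          ring
        · intro h'
          exact absurd (Finset.mem_univ _) h'

theorem Mm_apply (u : MonoidAlgebra ℤ C) (i j : ZMod q) : Mm δ u i j = pc δ (i - j) u := rfl

/-- the norm of an element of the group ring to the kernel of `δ` -/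
noncomputable def Nd : MonoidAlgebra ℤ C →* MonoidAlgebra ℤ C :=
  Matrix.detMonoidHom.comp (Mm δ).toMonoidHom

theorem Nd_apply (u : MonoidAlgebra ℤ C) : Nd δ u = (Mm δ u).det := rfl

/-- homogeneous elements -/
def Homog (d : ZMod q) (x : MonoidAlgebra ℤ C) : Prop := pc δ d x = x

theorem homog_pc (d : ZMod q) (x : MonoidAlgebra ℤ C) : Homog δ d (pc δ d x) := by
  ext c
  rw [coeff_pc, coeff_pc]
  split_ifs <;> rfl

theorem homog_add {d : ZMod q} {x y : MonoidAlgebra ℤ C} (hx : Homog δ d x) (hy : Homog δ d y) :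
    Homog δ d (x + y) := by
  unfold Homog at *
  rw [map_add, hx, hy]

theorem homog_zsmul {d : ZMod q} {x : MonoidAlgebra ℤ C} (hx : Homog δ d x) (n : ℤ) :
    Homog δ d (n • x) := by
  unfold Homog at *
  rw [map_zsmul, hx]

theorem homog_mul {d e : ZMod q} {x y : MonoidAlgebra ℤ C} (hx : Homog δ d x)
    (hy : Homog δ e y) : Homog δ (d + e) (x * y) := by
  have h1 : ∀ x y : MonoidAlgebra ℤ C, pc δ (d + e) (pc δ d x * pc δ e y) = pc δ d x * pc δ e y := by
    intro x y
    induction x using MonoidAlgebra.induction_linear with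
    | zero => simp
    | add x x' hx hx' => rw [map_add, add_mul, map_add, hx, hx']
    | single g r =>
      induction y using MonoidAlgebra.induction_linear with
      | zero => simp
      | add y y' hy hy' => rw [map_add, mul_add, map_add, hy, hy']
      | single h s =>
        rw [pc_single, pc_single]
        split_ifs with h1 h2
        · rw [MonoidAlgebra.single_mul_single, pc_single, if_pos]
          rw [map_mul, toAdd_mul, h1, h2]
        · simp
        · simp
        · simp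
  unfold Homog at *
  rw [← hx, ← hy]
  exact h1 x y

theorem homog_Nd (u : MonoidAlgebra ℤ C) : Homog δ 0 (Nd δ u) := by
  rw [Nd_apply, Matrix.det_apply]
  have hsum : ∀ (s : Finset (Equiv.Perm (ZMod q))) (F : Equiv.Perm (ZMod q) → MonoidAlgebra ℤ C),
      (∀ σ, Homog δ 0 (F σ)) → Homog δ 0 (∑ σ ∈ s, F σ) := by
    intro s F hF
    induction s using Finset.induction_on with
    | empty => exact map_zero _
    | insert a s ha ih => rw [Finset.sum_insert ha]; exact homog_add δ (hF a) ih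
  apply hsum
  intro σ
  have hprod : ∀ s : Finset (ZMod q), Homog δ (∑ i ∈ s, (σ i - i)) (∏ i ∈ s, Mm δ u (σ i) i) := by
    intro s
    induction s using Finset.induction_on with
    | empty =>
      rw [Finset.sum_empty, Finset.prod_empty]
      unfold Homog
      rw [MonoidAlgebra.one_def, pc_single, map_one, toAdd_one, if_pos rfl]
    | insert a s ha ih =>
      rw [Finset.sum_insert ha, Finset.prod_insert ha]
      exact homog_mul δ (homog_pc δ _ u) ih
  have h0 : ∑ i : ZMod q, (σ i - i) = 0 := by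
    rw [Finset.sum_sub_distrib, Equiv.sum_comp σ (fun i => i), sub_self]
  have h1 := hprod Finset.univ
  rw [h0] at h1
  rw [Units.smul_def]
  exact homog_zsmul δ h1 _

variable {p m : ℕ} [Fact p.Prime]

/-- the logarithm of the norm -/
theorem lamVal_Nd (hp : p ≠ 2) (hC : ∀ c : C, c ^ p = c) (u : (MonoidAlgebra ℤ C)ˣ) (c : C) :
    lamVal p m (Units.map (Nd δ) u) c = if (δ c).toAdd = 0 then q • lamVal p m u c else 0 := by
  have hp0 : p ≠ 0 := (Nat.Prime.pos Fact.out).ne'
  obtain ⟨y, hy, hy2⟩ := lamVal_spec' (m := m) hp hC u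
  obtain ⟨y', hy', hy2'⟩ := lamVal_spec' (m := m) hp hC (Units.map (Nd δ) u)
  have e1 : (((Units.map (Nd δ) u)⁻¹ : (MonoidAlgebra ℤ C)ˣ) : MonoidAlgebra ℤ C) =
      Nd δ ((u⁻¹ : (MonoidAlgebra ℤ C)ˣ) : MonoidAlgebra ℤ C) := rfl
  rw [e1, ← map_pow] at hy'
  have e2 : ((u⁻¹ : (MonoidAlgebra ℤ C)ˣ) : MonoidAlgebra ℤ C) ^ ((p - 1) * p ^ m) =
      1 - (p ^ (m + 1)) • y := by rw [hy]; ring
  have e3 : Nd δ (1 - (p ^ (m + 1)) • y) = (1 + (-((p ^ (m + 1) : ℕ) : MonoidAlgebra ℤ C)) •
      Mm δ y).det := by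
    rw [Nd_apply, map_sub, map_one, map_nsmul, neg_smul, ← sub_eq_add_neg, Nat.cast_smul_eq_nsmul]
  obtain ⟨w, hw⟩ : ∃ w, (1 + (-((p ^ (m + 1) : ℕ) : MonoidAlgebra ℤ C)) • Mm δ y).det =
      1 + (Mm δ y).trace * (-((p ^ (m + 1) : ℕ) : MonoidAlgebra ℤ C)) +
        w * (-((p ^ (m + 1) : ℕ) : MonoidAlgebra ℤ C)) ^ 2 := ⟨_, Matrix.det_one_add_smul _ _⟩
  rw [e2, e3, hw] at hy'
  have e4 : (Mm δ y).trace = q • pc δ 0 y := by
    unfold Matrix.trace
    have : ∀ i, (Mm δ y).diag i = pc δ 0 y := fun i => by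
      rw [Matrix.diag_apply, Mm_apply, sub_self]
    rw [Finset.sum_congr rfl fun i _ => this i, Finset.sum_const, Finset.card_univ, ZMod.card]
  rw [e4] at hy'
  have e5 : y' = q • pc δ 0 y - (p ^ (m + 1)) • w := by
    apply smul_inj' (pow_ne_zero (m + 1) hp0)
    rw [hy']
    simp only [nsmul_eq_mul]
    ring
  rw [hy2', hy2, kap_coeff, kap_coeff, e5, MonoidAlgebra.coeff_sub, Finsupp.sub_apply,
    MonoidAlgebra.coeff_smul, MonoidAlgebra.coeff_smul, Finsupp.smul_apply, Finsupp.smul_apply,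
    coeff_pc]
  push_cast
  simp only [nsmul_eq_mul]
  push_cast
  have hN : ((p : ZMod (p ^ (m + 1))) ^ (m + 1)) = 0 := by
    rw [← Nat.cast_pow, ZMod.natCast_self]
  rw [hN, zero_mul, sub_zero]
  split_ifs <;> simp

end NormMap

end Pool.Agent.WhK
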