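import Mathlib
import Pool.Agent.Lib_helper44.Wh.UnitNorm

/-!
# Units of the group ring of a finite cyclic group with vanishing logarithm on generators
-/

set_option autoImplicit false

namespace Pool.Agent.WhK

open Finset

section Proper

variable (C : Type*) [CommGroup C]

/-- the subgroup generated by the units coming from proper subgroups -/
noncomputable def properUnits : Subgroup (MonoidAlgebra ℤ C)ˣ :=
  Subgroup.closure {w | ∃ (D : Subgroup C) (_ : D ≠ ⊤) (v : (MonoidAlgebra ℤ D)ˣ),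
    w = Units.map (MonoidAlgebra.mapDomainRingHom ℤ D.subtype).toMonoidHom v}

variable {C}

theorem homog_ker {q : ℕ} [NeZero q] (δ : C →* Multiplicative (ZMod q)) {x : MonoidAlgebra ℤ C}
    (hx : Homog δ 0 x) : ∃ x' : MonoidAlgebra ℤ δ.ker,
      MonoidAlgebra.mapDomain δ.ker.subtype x' = x := by
  refine ⟨MonoidAlgebra.comapDomain δ.ker.subtype δ.ker.subtype_injective x, ?_⟩
  refine MonoidAlgebra.mapDomain_comapDomain ?_ _
  intro c hc
  have h1 : x.coeff c ≠ 0 := Finsupp.mem_support_iff.1 hc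
  rw [← hx, coeff_pc] at h1
  have h2 : (δ c).toAdd = 0 := by
    by_contra h
    exact h1 (if_neg h)
  refine ⟨⟨c, ?_⟩, rfl⟩
  rw [MonoidHom.mem_ker]
  exact h2

theorem Nd_mem_proper {q : ℕ} [NeZero q] (δ : C →* Multiplicative (ZMod q)) (hδ : δ.ker ≠ ⊤)
    (u : (MonoidAlgebra ℤ C)ˣ) : Units.map (Nd δ) u ∈ properUnits C := by
  obtain ⟨x, hx⟩ := homog_ker δ (homog_Nd δ (u : MonoidAlgebra ℤ C))
  obtain ⟨y, hy⟩ := homog_ker δ (homog_Nd δ ((u⁻¹ : (MonoidAlgebra ℤ C)ˣ) : MonoidAlgebra ℤ C))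
  have hinj : Function.Injective (MonoidAlgebra.mapDomainRingHom ℤ δ.ker.subtype) :=
    MonoidAlgebra.mapDomain_injective δ.ker.subtype_injective
  have h1 : x * y = 1 := by
    apply hinj
    rw [map_mul, map_one]
    show MonoidAlgebra.mapDomain δ.ker.subtype x * MonoidAlgebra.mapDomain δ.ker.subtype y = 1
    rw [hx, hy, ← map_mul, Units.mul_inv, map_one]
  have h2 : y * x = 1 := by
    apply hinj
    rw [map_mul, map_one]
    show MonoidAlgebra.mapDomain δ.ker.subtype y * MonoidAlgebra.mapDomain δ.ker.subtype x = 1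
    rw [hx, hy, ← map_mul, Units.inv_mul, map_one]
  refine Subgroup.subset_closure ⟨δ.ker, hδ, ⟨x, y, h1, h2⟩, ?_⟩
  ext1
  exact hx.symm

variable {p : ℕ} [Fact p.Prime]

theorem exists_pow_mem_proper (hp : p ≠ 2) (hC : ∀ c : C, c ^ p = c)
    (δ : ∀ q : ℕ, C →* Multiplicative (ZMod q)) (S : Finset ℕ)
    (hS : ∀ q ∈ S, 0 < q ∧ (δ q).ker ≠ ⊤) (u : (MonoidAlgebra ℤ C)ˣ)
    (hu : ∀ m c, (∀ q ∈ S, δ q c ≠ 1) → lamVal p m u c = 0) :
    ∃ K : ℕ, 0 < K ∧ u ^ K ∈ properUnits C := by
  classical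
  induction S using Finset.induction_on generalizing u with
  | empty =>
    refine ⟨p - 1, ?_, ?_⟩
    · have := (Fact.out : p.Prime).two_le
      omega
    · rw [pow_eq_one_of_lamVal hp hC u fun m => by
        ext c
        exact hu m c fun q hq => absurd hq (Finset.notMem_empty q)]
      exact Subgroup.one_mem _
  | insert q S hq ih =>
    obtain ⟨hq0, hker⟩ := hS q (Finset.mem_insert_self q S)
    haveI : NeZero q := ⟨hq0.ne'⟩
    obtain ⟨K, hK, hmem⟩ := ih (fun q' hq' => hS q' (Finset.mem_insert_of_mem hq'))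
      (u ^ q * (Units.map (Nd (δ q)) u)⁻¹) (by
        intro m c hc
        rw [lamVal_mul hp, lamVal_pow hp, lamVal_inv hp, Finsupp.add_apply, Finsupp.smul_apply,
          Finsupp.neg_apply, lamVal_Nd (δ q) hp hC]
        by_cases h : (δ q c).toAdd = 0
        · rw [if_pos h, add_neg_cancel]
        · rw [if_neg h, neg_zero, add_zero, hu m c, smul_zero]
          intro q' hq'
          rcases Finset.mem_insert.1 hq' with rfl | h'
          · exact h
          · exact hc q' h')
    refine ⟨q * K, Nat.mul_pos hq0 hK, ?_⟩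
    have e : u ^ (q * K) = (u ^ q * (Units.map (Nd (δ q)) u)⁻¹) ^ K *
        (Units.map (Nd (δ q)) u) ^ K := by
      rw [← mul_pow, inv_mul_cancel_right, pow_mul]
    rw [e]
    exact Subgroup.mul_mem _ hmem (Subgroup.pow_mem _ (Nd_mem_proper (δ q) hker u) K)

end Proper

section Cyclic

variable {C : Type*} [CommGroup C] [Finite C] [IsCyclic C]

open Classical in
/-- the projection of a cyclic group of order divisible by `q` onto `ZMod q` -/
noncomputable def delta (C : Type*) [CommGroup C] [IsCyclic C] (q : ℕ) :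
    C →* Multiplicative (ZMod q) :=
  if h : q ∣ Nat.card C then
    ((ZMod.castHom h (ZMod q)).toAddMonoidHom.toMultiplicative).comp
      (zmodCyclicMulEquiv (G := C) inferInstance).symm.toMonoidHom
  else 1

theorem delta_apply {q : ℕ} (h : q ∣ Nat.card C) (k : ZMod (Nat.card C)) :
    delta C q (zmodCyclicMulEquiv (G := C) inferInstance (Multiplicative.ofAdd k)) =
      Multiplicative.ofAdd (ZMod.castHom h (ZMod q) k) := by
  unfold delta
  rw [dif_pos h]
  simp only [MonoidHom.comp_apply]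
  show Multiplicative.ofAdd (ZMod.castHom h (ZMod q) (Multiplicative.toAdd
    ((zmodCyclicMulEquiv (G := C) inferInstance).symm
      (zmodCyclicMulEquiv (G := C) inferInstance (Multiplicative.ofAdd k))))) = _
  rw [MulEquiv.symm_apply_apply]
  rfl

theorem delta_ker {q : ℕ} (h : q ∣ Nat.card C) (hq : q.Prime) : (delta C q).ker ≠ ⊤ := by
  intro h0
  have h1 : zmodCyclicMulEquiv (G := C) inferInstance (Multiplicative.ofAdd 1) ∈
      (delta C q).ker := by rw [h0]; trivial
  rw [MonoidHom.mem_ker, delta_apply h, map_one] at h1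
  haveI : Fact q.Prime := ⟨hq⟩
  exact one_ne_zero (α := ZMod q) h1

theorem zpowers_of_delta (c : C) (hc : ∀ q ∈ (Nat.card C).primeFactors, delta C q c ≠ 1) :
    Subgroup.zpowers c = ⊤ := by
  set e := zmodCyclicMulEquiv (G := C) inferInstance with he
  haveI : NeZero (Nat.card C) := ⟨Nat.card_pos.ne'⟩
  obtain ⟨k, hk⟩ : ∃ k : ZMod (Nat.card C), e (Multiplicative.ofAdd k) = c :=
    ⟨(e.symm c).toAdd, e.apply_symm_apply c⟩
  have hcop : Nat.Coprime k.val (Nat.card C) := by
    rw [Nat.coprime_iff_gcd_eq_one]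
    by_contra hne
    obtain ⟨q, hq, hqd⟩ := Nat.exists_prime_and_dvd hne
    have hqk : q ∣ k.val := hqd.trans (Nat.gcd_dvd_left _ _)
    have hqr : q ∣ Nat.card C := hqd.trans (Nat.gcd_dvd_right _ _)
    apply hc q (Nat.mem_primeFactors.2 ⟨hq, hqr, Nat.card_pos.ne'⟩)
    rw [← hk, delta_apply hqr]
    have h1 : ZMod.castHom hqr (ZMod q) k = 0 := by
      rw [ZMod.castHom_apply, ← ZMod.natCast_val, ZMod.natCast_eq_zero_iff]
      exact hqk
    rw [h1]
    rfl
  have hunit : IsUnit k := by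
    have := (ZMod.isUnit_iff_coprime k.val (Nat.card C)).2 hcop
    rwa [ZMod.natCast_zmod_val] at this
  obtain ⟨v, hv⟩ := hunit
  rw [eq_top_iff]
  intro x _
  obtain ⟨j, hj⟩ : ∃ j : ZMod (Nat.card C), e (Multiplicative.ofAdd j) = x :=
    ⟨(e.symm x).toAdd, e.apply_symm_apply x⟩
  rw [Subgroup.mem_zpowers_iff]
  refine ⟨((j * ((v⁻¹ : (ZMod (Nat.card C))ˣ) : ZMod (Nat.card C))).val : ℤ), ?_⟩
  rw [← hk, ← hj, ← map_zpow, ← ofAdd_zsmul, natCast_zsmul, nsmul_eq_mul, ZMod.natCast_zmod_val,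
    mul_assoc, ← hv, Units.inv_mul, mul_one]

variable {p : ℕ} [Fact p.Prime]

/-- a unit whose logarithm vanishes on the generators is, up to a power, a product of units coming
from proper subgroups -/
theorem exists_pow_mem_proper_of_gen (hp : p ≠ 2) (hC : ∀ c : C, c ^ p = c)
    (u : (MonoidAlgebra ℤ C)ˣ)
    (hu : ∀ m c, Subgroup.zpowers c = ⊤ → lamVal p m u c = 0) :
    ∃ K : ℕ, 0 < K ∧ u ^ K ∈ properUnits C :=
  exists_pow_mem_proper hp hC (delta C) (Nat.card C).primeFactors
    (fun q hq => ⟨(Nat.prime_of_mem_primeFactors hq).pos,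
      delta_ker (Nat.dvd_of_mem_primeFactors hq) (Nat.prime_of_mem_primeFactors hq)⟩) u
    fun m c hc => hu m c (zpowers_of_delta c hc)

end Cyclic

end Pool.Agent.WhK
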