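import Mathlib
import Pool.Agent.Lib_helper44.Wh.Gamma

/-!
# Matrices over a group ring inside the ring of a monoid of matrix units
-/

set_option autoImplicit false

namespace Pool.Agent.WhK

open Finset

/-- matrix units over a group, with a unit and a zero adjoined -/
inductive MM (G : Type*) (n : ℕ) : Type _
  | one : MM G n
  | zero : MM G n
  | unit (i j : Fin n) (g : G) : MM G n

namespace MM

variable {G : Type*} [Group G] {n : ℕ}

/-- multiplication of matrix units -/
def mul : MM G n → MM G n → MM G n
  | one, x => x
  | zero, _ => zero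
  | unit i j g, one => unit i j g
  | unit _ _ _, zero => zero
  | unit i j g, unit k l h => if j = k then unit i l (g * h) else zero

instance : Mul (MM G n) := ⟨mul⟩
instance : One (MM G n) := ⟨one⟩

theorem zero_mul' (x : MM G n) : zero * x = zero := by cases x <;> rfl
theorem mul_zero' (x : MM G n) : x * zero = zero := by cases x <;> rfl
theorem one_mul' (x : MM G n) : one * x = x := by cases x <;> rfl
theorem mul_one' (x : MM G n) : x * one = x := by cases x <;> rfl
theorem unit_mul (i j k l : Fin n) (g h : G) :
    (unit i j g : MM G n) * unit k l h = if j = k then unit i l (g * h) else zero := rfl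

instance : Monoid (MM G n) where
  one_mul := one_mul'
  mul_one := mul_one'
  mul_assoc := by
    intro a b c
    cases a with
    | one => rw [one_mul', one_mul']
    | zero => rw [zero_mul', zero_mul', zero_mul']
    | unit i j g =>
      cases b with
      | one => rw [one_mul', mul_one']
      | zero => rw [zero_mul', mul_zero', zero_mul']
      | unit k l h =>
        cases c with
        | one => rw [mul_one', mul_one']
        | zero => rw [mul_zero', mul_zero', mul_zero']
        | unit r s t =>
          rw [unit_mul, unit_mul]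
          by_cases h1 : j = k <;> by_cases h2 : l = r
          · rw [if_pos h1, if_pos h2, unit_mul, unit_mul, if_pos h1, if_pos h2, mul_assoc]
          · rw [if_pos h1, if_neg h2, unit_mul, if_neg h2, mul_zero']
          · rw [if_neg h1, if_pos h2, unit_mul, if_neg h1, zero_mul']
          · rw [if_neg h1, if_neg h2, zero_mul', mul_zero']

/-- the class function of the monoid of matrix units -/
def cl : MM G n → Option (ConjClasses G)
  | one => none
  | zero => none
  | unit i j g => if i = j then some (ConjClasses.mk g) else none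

theorem cl_comm (a b : MM G n) : cl (a * b) = cl (b * a) := by
  cases a with
  | one => rw [one_mul', mul_one']
  | zero => rw [zero_mul', mul_zero']
  | unit i j g =>
    cases b with
    | one => rw [one_mul', mul_one']
    | zero => rw [zero_mul', mul_zero']
    | unit k l h =>
      rw [unit_mul, unit_mul]
      by_cases h1 : j = k <;> by_cases h2 : l = i
      · rw [if_pos h1, if_pos h2]
        simp only [cl]
        rw [if_pos h2.symm, if_pos h1.symm]
        congr 1
        rw [ConjClasses.mk_eq_mk_iff_isConj, isConj_iff]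
        exact ⟨h, by group⟩
      · rw [if_pos h1, if_neg h2]
        simp only [cl]
        rw [if_neg (fun h => h2 h.symm)]
      · rw [if_neg h1, if_pos h2]
        simp only [cl]
        rw [if_neg (fun h => h1 h.symm)]
      · rw [if_neg h1, if_neg h2]

end MM

section Psi

/-- additive version of `mapDomain` -/
noncomputable def mdAdd {X Y : Type*} (f : X → Y) : MonoidAlgebra ℤ X →+ MonoidAlgebra ℤ Y where
  toFun := MonoidAlgebra.mapDomain f
  map_zero' := MonoidAlgebra.mapDomain_zero f
  map_add' := MonoidAlgebra.mapDomain_add f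

theorem mdAdd_apply {X Y : Type*} (f : X → Y) (x : MonoidAlgebra ℤ X) :
    mdAdd f x = MonoidAlgebra.mapDomain f x := rfl

variable {G : Type*} [Group G] {n : ℕ}

/-- `x ↦ x • (E_ij - 0)` -/
noncomputable def psi (i j : Fin n) : MonoidAlgebra ℤ G →+ MonoidAlgebra ℤ (MM G n) :=
  mdAdd (MM.unit i j) - mdAdd fun _ => MM.zero

theorem psi_single (i j : Fin n) (g : G) (r : ℤ) : psi i j (MonoidAlgebra.single g r) =
    MonoidAlgebra.single (MM.unit i j g) r - MonoidAlgebra.single MM.zero r := by
  simp [psi, mdAdd_apply]

theorem psi_mul (i j k l : Fin n) (x y : MonoidAlgebra ℤ G) :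
    psi i j x * psi k l y = if j = k then psi i l (x * y) else 0 := by
  induction x using MonoidAlgebra.induction_linear with
  | zero => simp
  | add x x' hx hx' =>
    rw [map_add, add_mul, hx, hx', add_mul, map_add]
    split_ifs <;> simp
  | single g r =>
    induction y using MonoidAlgebra.induction_linear with
    | zero => simp
    | add y y' hy hy' =>
      rw [map_add, mul_add, hy, hy', mul_add, map_add]
      split_ifs <;> simp
    | single h s =>
      rw [psi_single, psi_single, MonoidAlgebra.single_mul_single, psi_single, mul_sub, sub_mul,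
        sub_mul, MonoidAlgebra.single_mul_single, MonoidAlgebra.single_mul_single,
        MonoidAlgebra.single_mul_single, MonoidAlgebra.single_mul_single, MM.mul_zero',
        MM.zero_mul', MM.zero_mul', MM.unit_mul]
      split_ifs
      · abel
      · abel

/-- matrices over the group ring in the monoid ring (non-unital ring homomorphism) -/
noncomputable def Psi : Matrix (Fin n) (Fin n) (MonoidAlgebra ℤ G) →+ MonoidAlgebra ℤ (MM G n) where
  toFun X := ∑ i, ∑ j, psi i j (X i j)
  map_zero' := by simp
  map_add' X Y := by simp [Finset.sum_add_distrib]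

theorem Psi_apply (X : Matrix (Fin n) (Fin n) (MonoidAlgebra ℤ G)) :
    Psi X = ∑ i, ∑ j, psi i j (X i j) := rfl

theorem Psi_mul (X Y : Matrix (Fin n) (Fin n) (MonoidAlgebra ℤ G)) :
    Psi (X * Y) = Psi X * Psi Y := by
  rw [Psi_apply, Psi_apply, Psi_apply, Finset.sum_mul]
  refine Finset.sum_congr rfl fun i _ => ?_
  rw [Finset.sum_mul]
  have h1 : ∀ j, psi i j (X i j) * ∑ k, ∑ l, psi k l (Y k l) = ∑ l, psi i l (X i j * Y j l) := by
    intro j
    rw [Finset.mul_sum]
    have h2 : ∀ k, psi i j (X i j) * ∑ l, psi k l (Y k l) =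
        if j = k then ∑ l, psi i l (X i j * Y k l) else 0 := by
      intro k
      rw [Finset.mul_sum]
      split_ifs with h
      · exact Finset.sum_congr rfl fun l _ => by rw [psi_mul, if_pos h]
      · exact Finset.sum_eq_zero fun l _ => by rw [psi_mul, if_neg h]
    rw [Finset.sum_congr rfl fun k _ => h2 k, Finset.sum_ite_eq, if_pos (Finset.mem_univ _)]
  rw [Finset.sum_congr rfl fun j _ => h1 j, Finset.sum_comm]
  refine Finset.sum_congr rfl fun l _ => ?_
  rw [Matrix.mul_apply, map_sum]

/-- the multiplicative embedding of matrices -/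
noncomputable def Fhom (G : Type*) [Group G] (n : ℕ) :
    Matrix (Fin n) (Fin n) (MonoidAlgebra ℤ G) →* MonoidAlgebra ℤ (MM G n) where
  toFun X := 1 + Psi (X - 1)
  map_one' := by rw [sub_self, map_zero, add_zero]
  map_mul' X Y := by
    have : X * Y - 1 = (X - 1) + (Y - 1) + (X - 1) * (Y - 1) := by noncomm_ring
    rw [this, map_add, map_add, Psi_mul]
    noncomm_ring

theorem Fhom_apply (X : Matrix (Fin n) (Fin n) (MonoidAlgebra ℤ G)) :
    Fhom G n X = 1 + Psi (X - 1) := rfl

end Psi

section CM

/-- a commutative group with a unit and a zero adjoined -/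
inductive CM (C : Type*) : Type _
  | one : CM C
  | zero : CM C
  | el (c : C) : CM C

namespace CM

variable {C : Type*} [CommGroup C]

/-- multiplication -/
def mul : CM C → CM C → CM C
  | one, x => x
  | zero, _ => zero
  | el c, one => el c
  | el _, zero => zero
  | el c, el d => el (c * d)

instance : Mul (CM C) := ⟨mul⟩
instance : One (CM C) := ⟨one⟩

theorem zero_mul' (x : CM C) : zero * x = zero := by cases x <;> rfl
theorem mul_zero' (x : CM C) : x * zero = zero := by cases x <;> rfl
theorem one_mul' (x : CM C) : one * x = x := by cases x <;> rfl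
theorem mul_one' (x : CM C) : x * one = x := by cases x <;> rfl
theorem el_mul (c d : C) : (el c : CM C) * el d = el (c * d) := rfl

instance : CommMonoid (CM C) where
  one_mul := one_mul'
  mul_one := mul_one'
  mul_comm := by
    intro a b
    cases a with
    | one => exact (one_mul' b).trans (mul_one' b).symm
    | zero => exact (zero_mul' b).trans (mul_zero' b).symm
    | el c =>
      cases b with
      | one => rfl
      | zero => rfl
      | el d => exact congrArg el (mul_comm c d)
  mul_assoc := by
    intro a b c
    cases a with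
    | one => rw [one_mul', one_mul']
    | zero => rw [zero_mul', zero_mul', zero_mul']
    | el g =>
      cases b with
      | one => rw [one_mul', mul_one']
      | zero => rw [zero_mul', mul_zero', zero_mul']
      | el h =>
        cases c with
        | one => rw [mul_one', mul_one']
        | zero => rw [mul_zero', mul_zero', mul_zero']
        | el t => rw [el_mul, el_mul, el_mul, el_mul, mul_assoc]

theorem el_pow (c : C) (k : ℕ) (hk : k ≠ 0) : (el c : CM C) ^ k = el (c ^ k) := by
  induction k with
  | zero => exact absurd rfl hk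
  | succ k ih =>
    rcases Nat.eq_zero_or_pos k with rfl | h
    · simp
    · rw [pow_succ, ih h.ne', el_mul, pow_succ]

theorem zero_pow' (k : ℕ) (hk : k ≠ 0) : (zero : CM C) ^ k = zero := by
  obtain ⟨l, rfl⟩ := Nat.exists_eq_succ_of_ne_zero hk
  rw [pow_succ, mul_zero']

/-- the inclusion in the monoid of matrix units -/
def toMM {G : Type*} [Group G] {n : ℕ} (i : Fin n) (f : C →* G) : CM C →* MM G n where
  toFun x := match x with
    | one => MM.one
    | zero => MM.zero
    | el c => MM.unit i i (f c)
  map_one' := rfl
  map_mul' := by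
    intro a b
    cases a with
    | one => cases b <;> rfl
    | zero => cases b <;> rfl
    | el c =>
      cases b with
      | one => rfl
      | zero => rfl
      | el d =>
        show MM.unit i i (f (c * d)) = MM.unit i i (f c) * MM.unit i i (f d)
        rw [MM.unit_mul, if_pos rfl, map_mul]

theorem toMM_injective {G : Type*} [Group G] {n : ℕ} (i : Fin n) {f : C →* G}
    (hf : Function.Injective f) : Function.Injective (toMM i f) := by
  intro a b h
  cases a with
  | one => cases b with
    | one => rfl
    | zero => exact absurd (show (MM.one : MM G n) = MM.zero from h) (by simp)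
    | el d => exact absurd (show (MM.one : MM G n) = MM.unit i i (f d) from h) (by simp)
  | zero => cases b with
    | one => exact absurd (show (MM.zero : MM G n) = MM.one from h) (by simp)
    | zero => rfl
    | el d => exact absurd (show (MM.zero : MM G n) = MM.unit i i (f d) from h) (by simp)
  | el c => cases b with
    | one => exact absurd (show (MM.unit i i (f c) : MM G n) = MM.one from h) (by simp)
    | zero => exact absurd (show (MM.unit i i (f c) : MM G n) = MM.zero from h) (by simp)
    | el d =>
      have h' : (MM.unit i i (f c) : MM G n) = MM.unit i i (f d) := h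
      rw [MM.unit.injEq] at h'
      rw [hf h'.2.2]

end CM

variable {C : Type*} [CommGroup C]

/-- `x ↦ x • (E - 0)` for a commutative group -/
noncomputable def psiC : MonoidAlgebra ℤ C →+ MonoidAlgebra ℤ (CM C) :=
  mdAdd CM.el - mdAdd fun _ => CM.zero

theorem psiC_single (g : C) (r : ℤ) : psiC (MonoidAlgebra.single g r) =
    MonoidAlgebra.single (CM.el g) r - MonoidAlgebra.single CM.zero r := by
  simp [psiC, mdAdd_apply]

theorem psiC_mul (x y : MonoidAlgebra ℤ C) : psiC (x * y) = psiC x * psiC y := by
  induction x using MonoidAlgebra.induction_linear with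
  | zero => simp
  | add x x' hx hx' => rw [add_mul, map_add, hx, hx', map_add, add_mul]
  | single g r =>
    induction y using MonoidAlgebra.induction_linear with
    | zero => simp
    | add y y' hy hy' => rw [mul_add, map_add, hy, hy', map_add, mul_add]
    | single h s =>
      rw [psiC_single, psiC_single, MonoidAlgebra.single_mul_single, psiC_single, mul_sub, sub_mul,
        sub_mul, MonoidAlgebra.single_mul_single, MonoidAlgebra.single_mul_single,
        MonoidAlgebra.single_mul_single, MonoidAlgebra.single_mul_single, CM.mul_zero',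
        CM.zero_mul', CM.zero_mul', CM.el_mul]
      abel

/-- multiplicative version -/
noncomputable def FC (C : Type*) [CommGroup C] : MonoidAlgebra ℤ C →* MonoidAlgebra ℤ (CM C) where
  toFun x := 1 + psiC (x - 1)
  map_one' := by rw [sub_self, map_zero, add_zero]
  map_mul' x y := by
    have : x * y - 1 = (x - 1) + (y - 1) + (x - 1) * (y - 1) := by ring
    rw [this, map_add, map_add, psiC_mul]
    ring

theorem FC_apply (x : MonoidAlgebra ℤ C) : FC C x = 1 + psiC (x - 1) := rfl

theorem Phi_psiC (p : ℕ) (hp : p ≠ 0) (x : MonoidAlgebra ℤ C) :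
    Phi (CM C) p (psiC x) = psiC (Phi C p x) := by
  induction x using MonoidAlgebra.induction_linear with
  | zero => simp
  | add x x' hx hx' => rw [map_add, map_add, hx, hx', map_add, map_add]
  | single g r =>
    rw [psiC_single, map_sub]
    simp only [Phi, MonoidAlgebra.mapDomainRingHom_apply, MonoidAlgebra.mapDomain_single,
      powMonoidHom_apply]
    rw [CM.el_pow _ _ hp, CM.zero_pow' _ hp, psiC_single]

theorem Phi_FC (p : ℕ) (hp : p ≠ 0) (x : MonoidAlgebra ℤ C) :
    Phi (CM C) p (FC C x) = FC C (Phi C p x) := by
  rw [FC_apply, FC_apply, map_add, map_one, Phi_psiC p hp, map_sub, map_one]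

/-- the matrix with entry `x` at `(i, i)`, and the identity elsewhere -/
noncomputable def dg {G : Type*} [Group G] {n : ℕ} (i : Fin n) :
    MonoidAlgebra ℤ G →* Matrix (Fin n) (Fin n) (MonoidAlgebra ℤ G) where
  toFun x := Matrix.diagonal (Function.update 1 i x)
  map_one' := by
    rw [show Function.update (1 : Fin n → MonoidAlgebra ℤ G) i 1 = 1 from
      Function.update_eq_self i _]
    exact Matrix.diagonal_one
  map_mul' x y := by
    rw [Matrix.diagonal_mul_diagonal]
    congr 1
    funext j
    by_cases h : j = i
    · subst h; simp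
    · simp [Function.update_of_ne h]

theorem mapDomain_toMM_psiC {G : Type*} [Group G] {n : ℕ} (i : Fin n) (f : C →* G)
    (x : MonoidAlgebra ℤ C) : MonoidAlgebra.mapDomain (CM.toMM i f) (psiC x) =
      psi (n := n) i i (MonoidAlgebra.mapDomain f x) := by
  have h : ∀ y, MonoidAlgebra.mapDomain (CM.toMM i f) y = mdAdd (CM.toMM (n := n) i f) y :=
    fun y => rfl
  induction x using MonoidAlgebra.induction_linear with
  | zero => simp
  | add x x' hx hx' =>
    rw [map_add, MonoidAlgebra.mapDomain_add, hx, hx', MonoidAlgebra.mapDomain_add, map_add]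
  | single g r =>
    rw [psiC_single, MonoidAlgebra.mapDomain_single, psi_single, h, map_sub, mdAdd_apply,
      mdAdd_apply, MonoidAlgebra.mapDomain_single, MonoidAlgebra.mapDomain_single]
    rfl

theorem mapDomain_toMM_FC {G : Type*} [Group G] {n : ℕ} (i : Fin n) (f : C →* G)
    (x : MonoidAlgebra ℤ C) : MonoidAlgebra.mapDomain (CM.toMM i f) (FC C x) =
      Fhom G n (dg i (MonoidAlgebra.mapDomain f x)) := by
  have h1 : MonoidAlgebra.mapDomain (CM.toMM (n := n) i f) (FC C x) =
      MonoidAlgebra.mapDomainRingHom ℤ (CM.toMM i f) (FC C x) := rfl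
  rw [h1, FC_apply, map_add, map_one, Fhom_apply]
  congr 1
  show MonoidAlgebra.mapDomain (CM.toMM i f) (psiC (x - 1)) = _
  rw [mapDomain_toMM_psiC]
  have h2 : MonoidAlgebra.mapDomain f (x - 1) = MonoidAlgebra.mapDomain f x - 1 := by
    have := map_sub (MonoidAlgebra.mapDomainRingHom ℤ f) x 1
    rw [map_one] at this
    exact this
  rw [h2, Psi_apply]
  have h3 : ∀ k l, (dg i (MonoidAlgebra.mapDomain f x) - 1 :
      Matrix (Fin n) (Fin n) (MonoidAlgebra ℤ G)) k l =
      if k = i then (if l = i then MonoidAlgebra.mapDomain f x - 1 else 0) else 0 := by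
    intro k l
    show Matrix.diagonal _ k l - (1 : Matrix (Fin n) (Fin n) (MonoidAlgebra ℤ G)) k l = _
    rw [Matrix.diagonal_apply, Matrix.one_apply]
    by_cases hkl : k = l
    · subst hkl
      by_cases hk : k = i
      · subst hk; simp
      · simp [hk]
    · rw [if_neg hkl, if_neg hkl, sub_self]
      by_cases hk : k = i
      · subst hk
        rw [if_pos rfl, if_neg (fun h => hkl h.symm)]
      · rw [if_neg hk]
  have h4 : ∀ k l, psi k l ((dg i (MonoidAlgebra.mapDomain f x) - 1 :
      Matrix (Fin n) (Fin n) (MonoidAlgebra ℤ G)) k l) =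
      if k = i then (if l = i then psi k l (MonoidAlgebra.mapDomain f x - 1) else 0) else 0 := by
    intro k l
    rw [h3]
    split_ifs <;> simp
  rw [Finset.sum_congr rfl fun k _ => Finset.sum_congr rfl fun l _ => h4 k l]
  simp

end CM

section Eval

variable {G : Type*} [Group G] {n : ℕ} {p m : ℕ} [Fact p.Prime]

/-- the integral logarithm of `GL_n(ℤ[G])`, with values in functions on conjugacy classes -/
noncomputable def GamGL (G : Type*) [Group G] (n p m : ℕ) [Fact p.Prime] (hp : p ≠ 2) :
    (Matrix (Fin n) (Fin n) (MonoidAlgebra ℤ G))ˣ →*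
      Multiplicative (Option (ConjClasses G) →₀ ZMod (p ^ (m + 1))) :=
  (Gam MM.cl MM.cl_comm p m hp).comp (Units.map (Fhom G n))

theorem smul_inj {X : Type*} {a : ℕ} (ha : a ≠ 0) {x y : MonoidAlgebra ℤ X} (h : a • x = a • y) :
    x = y := by
  ext g
  have := congrArg (fun z : MonoidAlgebra ℤ X => z.coeff g) h
  simp only [MonoidAlgebra.coeff_smul, Finsupp.smul_apply, nsmul_eq_mul] at this
  exact mul_left_cancel₀ (Nat.cast_ne_zero.2 ha) this

theorem kap_toMM_psiC {C : Type*} [CommGroup C] (N : ℕ) (i : Fin n) (f : C →* G)
    (y : MonoidAlgebra ℤ C) (κ : ConjClasses G) :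
    kap N (fun a => MM.cl (CM.toMM i f a)) (psiC y) (some κ) =
      kap N (fun a => ConjClasses.mk (f a)) y κ := by
  classical
  induction y using MonoidAlgebra.induction_linear with
  | zero => simp
  | add x x' hx hx' => rw [map_add, map_add, Finsupp.add_apply, hx, hx', map_add, Finsupp.add_apply]
  | single g r =>
    rw [psiC_single, map_sub, kap_single, kap_single, kap_single]
    have h1 : MM.cl (CM.toMM (n := n) i f (CM.el g)) = some (ConjClasses.mk (f g)) := by
      show MM.cl (MM.unit i i (f g)) = _
      simp only [MM.cl, if_true]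
    have h2 : MM.cl (CM.toMM (n := n) i f CM.zero) = none := rfl
    rw [h1, h2, Finsupp.sub_apply, Finsupp.single_apply, Finsupp.single_apply,
      Finsupp.single_apply]
    simp

/-- evaluation of the integral logarithm on units of commutative subgroups -/
theorem GamGL_dg (hp : p ≠ 2) {C : Type*} [CommGroup C] {f : C →* G} (hf : Function.Injective f)
    (i : Fin n) (u : (MonoidAlgebra ℤ C)ˣ) :
    ∃ y : MonoidAlgebra ℤ C,
      (p ^ (m + 1)) • y = 1 - ((u⁻¹ : (MonoidAlgebra ℤ C)ˣ) : MonoidAlgebra ℤ C) ^ p ^ (m + 1) *
        (Phi C p (u : MonoidAlgebra ℤ C)) ^ p ^ m ∧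
      ∀ κ : ConjClasses G, (GamGL G n p m hp
        (Units.map (dg i) (Units.map (MonoidAlgebra.mapDomainRingHom ℤ f).toMonoidHom u))).toAdd
          (some κ) = kap (p ^ (m + 1)) (fun a => ConjClasses.mk (f a)) y κ := by
  have hp0 : p ≠ 0 := (Nat.Prime.pos Fact.out).ne'
  obtain ⟨y, hy, -⟩ := gamVal_comm (cl := fun _ : C => ()) (hcl := fun _ _ => rfl) (m := m) hp
    (f := MonoidHom.id C) Function.injective_id u
  refine ⟨y, hy, fun κ => ?_⟩
  obtain ⟨Y, hY, hY2⟩ := gamVal_comm (cl := MM.cl) (hcl := MM.cl_comm) (m := m) hp
    (CM.toMM_injective i hf) (Units.map (FC C) u)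
  have hYy : Y = psiC y := by
    apply smul_inj (pow_ne_zero (m + 1) hp0)
    rw [hY]
    have e1 : (((Units.map (FC C) u)⁻¹ : (MonoidAlgebra ℤ (CM C))ˣ) : MonoidAlgebra ℤ (CM C)) =
        FC C ((u⁻¹ : (MonoidAlgebra ℤ C)ˣ) : MonoidAlgebra ℤ C) := rfl
    have e2 : ((Units.map (FC C) u : (MonoidAlgebra ℤ (CM C))ˣ) : MonoidAlgebra ℤ (CM C)) =
        FC C (u : MonoidAlgebra ℤ C) := rfl
    rw [e1, e2, Phi_FC p hp0, ← map_pow, ← map_pow, ← map_mul, FC_apply, ← map_nsmul, hy,
      sub_add_cancel_left, ← map_neg, neg_sub]
  have e3 : Units.map (Fhom G n) (Units.map (dg i)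
      (Units.map (MonoidAlgebra.mapDomainRingHom ℤ f).toMonoidHom u)) =
      Units.map (MonoidAlgebra.mapDomainRingHom ℤ (CM.toMM i f)).toMonoidHom
        (Units.map (FC C) u) := by
    ext1
    exact (mapDomain_toMM_FC i f (u : MonoidAlgebra ℤ C)).symm
  show gamVal MM.cl MM.cl_comm p m (Units.map (Fhom G n) (Units.map (dg i)
      (Units.map (MonoidAlgebra.mapDomainRingHom ℤ f).toMonoidHom u))) (some κ) = _
  rw [e3, hY2, hYy, kap_toMM_psiC]

end Eval

end Pool.Agent.WhK
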