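import Mathlib
import Pool.Agent.Lib_helper44.Wh.KDefs
import Pool.Agent.Lib_helper44.Wh.CycUnits
import Pool.Agent.Lib_helper44.Wh.MatMon

/-!
# Elements of the kernel of the assembly map have vanishing integral logarithm
-/

set_option autoImplicit false

universe u

namespace Pool.Agent.WhK

section Stable

open scoped commutatorElement

theorem map_mem_commutator {A B : Type*} [Group A] [Group B] (f : A →* B) {x : A}
    (hx : x ∈ commutator A) : f x ∈ commutator B := by
  have h : (commutator A).map f ≤ commutator B := by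
    rw [commutator_def, Subgroup.map_commutator, commutator_def]
    exact Subgroup.commutator_mono le_top le_top
  exact h (Subgroup.mem_map_of_mem f hx)

variable {R : Type u} [Ring R]

theorem GLinf_exists₂ (a b : GLinf R) : ∃ (n : ℕ) (X Y : GLn R n),
    a = GLinf.mk n X ∧ b = GLinf.mk n Y := DirectLimit.exists_eq_mk₂ (stabGL R) a b

/-- an element of the commutator subgroup of the stable general linear group comes from the
commutator subgroup at some finite level -/
theorem exists_level (z : GLinf R) (hz : z ∈ commutator (GLinf R)) :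
    ∃ (n : ℕ) (X : GLn R n), z = GLinf.mk n X ∧ X ∈ commutator (GLn R n) := by
  rw [commutator_eq_closure] at hz
  induction hz using Subgroup.closure_induction with
  | mem z hz =>
    obtain ⟨a, b, rfl⟩ := hz
    obtain ⟨i, x, y, rfl, rfl⟩ := GLinf_exists₂ a b
    refine ⟨i, ⁅x, y⁆, ?_, Subgroup.commutator_mem_commutator (Subgroup.mem_top _)
      (Subgroup.mem_top _)⟩
    rw [commutatorElement_def, commutatorElement_def, GLinf.mk_mul, GLinf.mk_mul, GLinf.mk_mul]
    rfl
  | one => exact ⟨0, 1, (GLinf.mk_one 0).symm, Subgroup.one_mem _⟩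
  | mul a b ha hb iha ihb =>
    obtain ⟨n, X, rfl, hX⟩ := iha
    obtain ⟨k, Y, rfl, hY⟩ := ihb
    refine ⟨max n k, stabGL R n (max n k) (le_max_left _ _) X *
      stabGL R k (max n k) (le_max_right _ _) Y, ?_, ?_⟩
    · rw [GLinf_eq_of_le (le_max_left n k) X, GLinf_eq_of_le (le_max_right n k) Y, GLinf.mk_mul]
    · exact Subgroup.mul_mem _ (map_mem_commutator _ hX) (map_mem_commutator _ hY)
  | inv a ha iha =>
    obtain ⟨n, X, rfl, hX⟩ := iha
    exact ⟨n, X⁻¹, rfl, Subgroup.inv_mem _ hX⟩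

/-- if the class of an invertible matrix in `K₁` is trivial then some stabilisation of the matrix
lies in the commutator subgroup -/
theorem exists_stab_mem_commutator {n : ℕ} {X : GLn R n}
    (h : K1.mk n X = 0) : ∃ (k : ℕ) (hk : n ≤ k) (_ : 0 < k),
      stabGL R n k hk X ∈ commutator (GLn R k) := by
  have h1 : GLinf.mk n X ∈ commutator (GLinf R) :=
    (QuotientGroup.eq_one_iff _).1 (K1.ab_eq_one h)
  obtain ⟨j, Y, hY, hYc⟩ := exists_level _ h1
  obtain ⟨k, hk1, hk2, e⟩ := Quotient.exact hY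
  change stabGL R n k hk1 X = stabGL R j k hk2 Y at e
  refine ⟨k + 1, hk1.trans (Nat.le_succ k), Nat.succ_pos k, ?_⟩
  have e2 : stabGL R n (k + 1) (hk1.trans (Nat.le_succ k)) X =
      stabGL R k (k + 1) (Nat.le_succ k) (stabGL R n k hk1 X) :=
    Units.ext (stabMat_stabMat R hk1 X.val).symm
  rw [e2, e]
  exact map_mem_commutator _ (map_mem_commutator _ hYc)

end Stable

section Values

variable {G : Type u} [Group G]

theorem stabGL_scalar (k : ℕ) (hk : 1 ≤ k + 1) (v : (MonoidAlgebra ℤ G)ˣ) :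
    stabGL (MonoidAlgebra ℤ G) 1 (k + 1) hk
      (Units.map (Matrix.scalar (Fin 1)).toMonoidHom v) =
    (Units.map (dg (G := G) (0 : Fin (k + 1))) v :
      (Matrix (Fin (k + 1)) (Fin (k + 1)) (MonoidAlgebra ℤ G))ˣ) := by
  refine Units.ext ?_
  show stabMat (MonoidAlgebra ℤ G) 1 (k + 1) (Matrix.scalar (Fin 1) (v : MonoidAlgebra ℤ G)) =
    Matrix.diagonal (Function.update 1 0 (v : MonoidAlgebra ℤ G))
  ext1 i j
  rw [stabMat, Matrix.of_apply, Matrix.diagonal_apply]
  by_cases h : i.val < 1 ∧ j.val < 1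
  · have hi : i = 0 := Fin.ext (Nat.lt_one_iff.1 h.1)
    have hj : j = 0 := Fin.ext (Nat.lt_one_iff.1 h.2)
    subst hi
    subst hj
    rw [dif_pos h, if_pos rfl, Function.update_self, Matrix.scalar_apply, Matrix.diagonal_apply,
      if_pos rfl]
  · rw [dif_neg h]
    by_cases hij : i = j
    · subst hij
      have hi : i ≠ 0 := by
        rintro rfl
        exact h ⟨Nat.zero_lt_one, Nat.zero_lt_one⟩
      rw [if_pos rfl, if_pos rfl, Function.update_of_ne hi, Pi.one_apply]
    · rw [if_neg hij, if_neg hij]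

variable {n p m : ℕ} [Fact p.Prime]

/-- the value of the integral logarithm on a unit coming from a commutative subgroup -/
theorem GamGL_dg_lam (hp : p ≠ 2) {C : Type*} [CommGroup C] {f : C →* G}
    (hf : Function.Injective f) (i : Fin n) (u : (MonoidAlgebra ℤ C)ˣ) (κ : ConjClasses G) :
    (GamGL G n p m hp (Units.map (dg i) (unitsMap f u))).toAdd (some κ) =
      Finsupp.mapDomain (fun c => ConjClasses.mk (f c)) (lamVal p m u) κ := by
  have hp0 : p ≠ 0 := (Nat.Prime.pos Fact.out).ne'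
  obtain ⟨y, hy, h⟩ := GamGL_dg (n := n) (p := p) (m := m) hp hf i u
  obtain ⟨y', hy', h'⟩ := lamVal_spec (p := p) (m := m) hp u
  have hyy : y' = y := smul_inj' (pow_ne_zero (m + 1) hp0) (hy'.trans hy.symm)
  refine (h κ).trans ?_
  rw [h', hyy]
  have key : ∀ y : MonoidAlgebra ℤ C, kap (p ^ (m + 1)) (fun a => ConjClasses.mk (f a)) y =
      Finsupp.mapDomain (fun c => ConjClasses.mk (f c)) (kap (p ^ (m + 1)) (fun a : C => a) y) := by
    intro y
    induction y using MonoidAlgebra.induction_linear with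
    | zero => simp
    | add x x' hx hx' => rw [map_add, hx, hx', map_add, Finsupp.mapDomain_add]
    | single g r => rw [kap_single, kap_single, Finsupp.mapDomain_single]
  rw [key]

theorem lamVal_of_Phi (hp : p ≠ 2) {C : Type*} [CommGroup C] (u : (MonoidAlgebra ℤ C)ˣ)
    (hu : Phi C p (u : MonoidAlgebra ℤ C) = (u : MonoidAlgebra ℤ C) ^ p) :
    lamVal p m u = 0 := by
  have hp0 : p ≠ 0 := (Nat.Prime.pos Fact.out).ne'
  obtain ⟨y, hy, h⟩ := lamVal_spec (p := p) (m := m) hp u
  have hy0 : y = 0 := by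
    apply smul_inj' (pow_ne_zero (m + 1) hp0)
    rw [hy, smul_zero, hu, ← pow_mul, ← pow_succ', ← mul_pow, Units.inv_mul, one_pow, sub_self]
  rw [h, hy0, map_zero]

theorem lamVal_gUnit (hp : p ≠ 2) {C : Type u} [CommGroup C] (c : C) :
    lamVal p m (gUnit c) = 0 := by
  apply lamVal_of_Phi hp
  show MonoidAlgebra.mapDomain (powMonoidHom p) (MonoidAlgebra.single c 1) =
    (MonoidAlgebra.single c 1) ^ p
  rw [MonoidAlgebra.mapDomain_single, MonoidAlgebra.single_pow, one_pow]
  rfl

theorem lamVal_neg_one (hp : p ≠ 2) {C : Type u} [CommGroup C] :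
    lamVal p m (-1 : (MonoidAlgebra ℤ C)ˣ) = 0 := by
  apply lamVal_of_Phi hp
  have hodd : Odd p := (Fact.out : p.Prime).odd_of_ne_two hp
  rw [Units.val_neg, Units.val_one, map_neg, map_one, hodd.neg_one_pow]

theorem lamVal_neg (hp : p ≠ 2) {C : Type u} [CommGroup C] (u : (MonoidAlgebra ℤ C)ˣ) :
    lamVal p m (-u) = lamVal p m u := by
  rw [← neg_one_mul, lamVal_mul hp, lamVal_neg_one hp, zero_add]

variable (G) in
/-- the units all of whose integral logarithms vanish -/
noncomputable def Wtriv : Subgroup (MonoidAlgebra ℤ G)ˣ where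
  carrier := {w | ∀ (k p m : ℕ) [Fact p.Prime] (hp : p ≠ 2) (κ : ConjClasses G),
    (GamGL G (k + 1) p m hp (Units.map (dg 0) w)).toAdd (some κ) = 0}
  mul_mem' := by
    intro a b ha hb k p m _ hp κ
    rw [map_mul, map_mul, toAdd_mul, Finsupp.add_apply, ha k p m hp κ, hb k p m hp κ, add_zero]
  one_mem' := by
    intro k p m _ hp κ
    rw [map_one, map_one, toAdd_one, Finsupp.zero_apply]
  inv_mem' := by
    intro a ha k p m _ hp κ
    rw [map_inv, map_inv, toAdd_inv, Finsupp.neg_apply, ha k p m hp κ, neg_zero]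

theorem mem_Wtriv_of_zpowers (g : G) (ε : Bool) :
    (if ε then gUnit g else -gUnit g) ∈ Wtriv G := by
  intro k p m _ hp κ
  letI : CommGroup (Subgroup.zpowers g) := IsCyclic.commGroup
  let c : Subgroup.zpowers g := ⟨g, Subgroup.mem_zpowers g⟩
  have h : ∀ u : (MonoidAlgebra ℤ (Subgroup.zpowers g))ˣ, lamVal p m u = 0 →
      (GamGL G (k + 1) p m hp (Units.map (dg 0) (unitsMap (Subgroup.zpowers g).subtype u))).toAdd
        (some κ) = 0 := by
    intro u hu
    have := GamGL_dg_lam (n := k + 1) (p := p) (m := m) hp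
      (f := (Subgroup.zpowers g).subtype) (Subgroup.zpowers g).subtype_injective 0 u κ
    rw [this, hu, Finsupp.mapDomain_zero, Finsupp.zero_apply]
  have e1 : unitsMap (Subgroup.zpowers g).subtype (gUnit c) = gUnit g := by
    ext1
    show MonoidAlgebra.mapDomain (Subgroup.zpowers g).subtype (MonoidAlgebra.single c 1) =
      MonoidAlgebra.single g 1
    rw [MonoidAlgebra.mapDomain_single]
    rfl
  have e2 : unitsMap (Subgroup.zpowers g).subtype (-gUnit c) = -gUnit g := by
    rw [← e1]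
    ext1
    exact map_neg (MonoidAlgebra.mapDomainRingHom ℤ (Subgroup.zpowers g).subtype) _
  cases ε with
  | true =>
    rw [if_pos rfl, ← e1]
    exact h _ (lamVal_gUnit hp c)
  | false =>
    rw [if_neg Bool.false_ne_true, ← e2]
    exact h _ ((lamVal_neg hp _).trans (lamVal_gUnit hp c))

theorem exists_total (x : ColimK1 G) : ∃ v : (MonoidAlgebra ℤ G)ˣ,
    ∀ (A : Type u) [AddCommGroup A] (φ : (MonoidAlgebra ℤ G)ˣ →* Multiplicative A),
      liftColim φ x = (φ v).toAdd := by
  induction x using QuotientAddGroup.induction_on with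
  | H z =>
    induction z using FreeAbelianGroup.induction_on with
    | zero =>
      refine ⟨1, fun A _ φ => ?_⟩
      rw [map_one, toAdd_one]
      exact map_zero (liftColim φ)
    | of x => exact ⟨unitsMap x.1.1.subtype x.2, fun A _ φ => liftColim_mk φ x.1 x.2⟩
    | neg x hx =>
      obtain ⟨v, hv⟩ := hx
      refine ⟨v⁻¹, fun A _ φ => ?_⟩
      rw [map_inv, toAdd_inv, ← hv A φ]
      exact map_neg (liftColim φ) (QuotientAddGroup.mk (FreeAbelianGroup.of x))
    | add x y hx hy =>
      obtain ⟨v, hv⟩ := hx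
      obtain ⟨w, hw⟩ := hy
      refine ⟨v * w, fun A _ φ => ?_⟩
      rw [map_mul, toAdd_mul, ← hv A φ, ← hw A φ]
      exact map_add (liftColim φ) (QuotientAddGroup.mk x) (QuotientAddGroup.mk y)

variable (G) in
/-- the integral logarithm on the colimit -/
noncomputable def Lmap (k p m : ℕ) [Fact p.Prime] (hp : p ≠ 2) :
    ColimK1 G →+ (Option (ConjClasses G) →₀ ZMod (p ^ (m + 1))) :=
  liftColim ((GamGL G (k + 1) p m hp).comp (Units.map (dg 0)))

/-- **Step A.** On the kernel of the assembly map the integral logarithm vanishes. -/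
theorem Lmap_eq_zero (x : ColimK1 G) (hx : assembly G x = 0) :
    ∃ k : ℕ, ∀ (p m : ℕ) [Fact p.Prime] (hp : p ≠ 2) (κ : ConjClasses G),
      Lmap G k p m hp x (some κ) = 0 := by
  obtain ⟨v, hv⟩ := exists_total x
  have h1 : (unitToWh G v).toAdd = 0 := by
    rw [← hv (Wh G) (unitToWh G), ← assembly_eq, hx]
  have h2 : K1.ofUnit v ∈ trivUnits G := (QuotientAddGroup.eq_zero_iff _).1 h1
  have h3 : trivUnits G ≤
      AddSubgroup.map (K1.unitHom (MonoidAlgebra ℤ G)).toAdditiveLeft (Wtriv G).toAddSubgroup := by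
    unfold trivUnits
    rw [AddSubgroup.closure_le]
    rintro y ⟨g, rfl | rfl⟩
    · exact ⟨Additive.ofMul (gUnit g), mem_Wtriv_of_zpowers g true, rfl⟩
    · exact ⟨Additive.ofMul (-gUnit g), mem_Wtriv_of_zpowers g false, rfl⟩
  obtain ⟨w, hw, hvw⟩ := h3 h2
  have h4 : K1.ofUnit (v * w.toMul⁻¹) = 0 := by
    have e : K1.ofUnit w.toMul = K1.ofUnit v := hvw
    have e2 : K1.ofUnit (w.toMul * w.toMul⁻¹) = K1.ofUnit w.toMul + K1.ofUnit w.toMul⁻¹ :=
      K1.ofUnit_mul _ _
    have e3 : K1.ofUnit (1 : (MonoidAlgebra ℤ G)ˣ) = 0 := by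
      have := K1.ofUnit_mul (1 : (MonoidAlgebra ℤ G)ˣ) 1
      rw [mul_one] at this
      exact left_eq_add.1 this
    rw [mul_inv_cancel, e3] at e2
    rw [K1.ofUnit_mul, ← e, ← e2]
  obtain ⟨k, hk, hk0, hc⟩ := exists_stab_mem_commutator h4
  obtain ⟨k, rfl⟩ : ∃ k', k = k' + 1 := ⟨k - 1, by omega⟩
  refine ⟨k, fun p m _ hp κ => ?_⟩
  have hc' : Units.map (dg (G := G) (0 : Fin (k + 1))) (v * w.toMul⁻¹) ∈
      commutator (Matrix (Fin (k + 1)) (Fin (k + 1)) (MonoidAlgebra ℤ G))ˣ := by
    rw [← stabGL_scalar k hk]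
    exact hc
  have h5 : GamGL G (k + 1) p m hp (Units.map (dg 0) (v * w.toMul⁻¹)) = 1 :=
    Abelianization.commutator_subset_ker (GamGL G (k + 1) p m hp) hc'
  rw [map_mul, map_mul, map_inv, map_inv, mul_inv_eq_one] at h5
  show liftColim ((GamGL G (k + 1) p m hp).comp (Units.map (dg 0))) x (some κ) = 0
  rw [hv]
  show (GamGL G (k + 1) p m hp (Units.map (dg 0) v)).toAdd (some κ) = 0
  rw [h5]
  exact hw k p m hp κ

end Values

end Pool.Agent.WhK
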