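import Mathlib
import Pool.Agent.Lib_helper44.Wh.StepA

/-!
# Elements of the colimit with vanishing integral logarithm are torsion
-/

set_option autoImplicit false

universe u

namespace Pool.Agent.WhK

variable {G : Type u} [Group G]

theorem unitsMap_comp {A B C : Type*} [Group A] [Group B] [Group C] (g : B →* C) (f : A →* B)
    (u : (MonoidAlgebra ℤ A)ˣ) : unitsMap g (unitsMap f u) = unitsMap (g.comp f) u := by
  ext1
  show MonoidAlgebra.mapDomainRingHom ℤ g (MonoidAlgebra.mapDomainRingHom ℤ f u.val) =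
    MonoidAlgebra.mapDomainRingHom ℤ (g.comp f) u.val
  generalize u.val = x
  induction x using MonoidAlgebra.induction_linear with
  | zero => simp
  | add x y hx hy => rw [map_add, map_add, hx, hy, map_add]
  | single c r =>
    simp only [MonoidAlgebra.mapDomainRingHom_apply, MonoidAlgebra.mapDomain_single]
    rfl

theorem ColimK1.mk_mul (C : Cyc G) (u v : (MonoidAlgebra ℤ C.1)ˣ) :
    ColimK1.mk C (u * v) = ColimK1.mk C u + ColimK1.mk C v := by
  have h : (QuotientAddGroup.mk (FreeAbelianGroup.of ⟨C, u * v⟩ -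
      FreeAbelianGroup.of ⟨C, u⟩ - FreeAbelianGroup.of ⟨C, v⟩) : ColimK1 G) = 0 :=
    (QuotientAddGroup.eq_zero_iff _).2 (AddSubgroup.subset_closure (Or.inl ⟨C, u, v, rfl⟩))
  exact sub_eq_zero.1 ((sub_sub _ _ _).symm.trans h)

theorem ColimK1.mk_conj (C D : Cyc G) (g : G) (h : ∀ c ∈ C.1, g * c * g⁻¹ ∈ D.1)
    (u : (MonoidAlgebra ℤ C.1)ˣ) :
    ColimK1.mk C u = ColimK1.mk D (unitsMap (conjHom C.1 D.1 g h) u) := by
  have h : (QuotientAddGroup.mk (FreeAbelianGroup.of ⟨C, u⟩ -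
      FreeAbelianGroup.of ⟨D, unitsMap (conjHom C.1 D.1 g h) u⟩) : ColimK1 G) = 0 :=
    (QuotientAddGroup.eq_zero_iff _).2 (AddSubgroup.subset_closure (Or.inr ⟨C, D, g, h, u, rfl⟩))
  exact sub_eq_zero.1 h

theorem ColimK1.mk_one (C : Cyc G) : ColimK1.mk C 1 = 0 := by
  have h := ColimK1.mk_mul C 1 1
  rw [mul_one] at h
  exact left_eq_add.1 h

theorem ColimK1.mk_inv (C : Cyc G) (u : (MonoidAlgebra ℤ C.1)ˣ) :
    ColimK1.mk C u⁻¹ = -ColimK1.mk C u := by
  have h := ColimK1.mk_mul C u⁻¹ u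
  rw [inv_mul_cancel, ColimK1.mk_one] at h
  exact eq_neg_of_add_eq_zero_left h.symm

theorem ColimK1.mk_pow (C : Cyc G) (u : (MonoidAlgebra ℤ C.1)ˣ) (k : ℕ) :
    ColimK1.mk C (u ^ k) = k • ColimK1.mk C u := by
  induction k with
  | zero => rw [pow_zero, ColimK1.mk_one, zero_smul]
  | succ k ih => rw [pow_succ, ColimK1.mk_mul, ih, succ_nsmul]

variable (G) in
/-- the subgroup of the colimit generated by the cyclic subgroups of order less than `r` and
dividing `p - 1` -/
noncomputable def Alow (p r : ℕ) : AddSubgroup (ColimK1 G) :=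
  AddSubgroup.closure {x | ∃ (C : Cyc G) (u : (MonoidAlgebra ℤ C.1)ˣ),
    Nat.card C.1 < r ∧ Nat.card C.1 ∣ p - 1 ∧ x = ColimK1.mk C u}

theorem Alow_mono {p r r' : ℕ} (h : r ≤ r') : Alow G p r ≤ Alow G p r' := by
  refine AddSubgroup.closure_mono ?_
  rintro x ⟨C, u, h1, h2, h3⟩
  exact ⟨C, u, h1.trans_le h, h2, h3⟩

theorem exists_mem_Alow (x : ColimK1 G) :
    ∃ N : ℕ, 0 < N ∧ ∀ p, N ∣ p - 1 → x ∈ Alow G p (N + 1) := by
  induction x using QuotientAddGroup.induction_on with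
  | H z =>
    induction z using FreeAbelianGroup.induction_on with
    | zero => exact ⟨1, Nat.one_pos, fun p _ => AddSubgroup.zero_mem _⟩
    | of x =>
      haveI := x.1.fin
      exact ⟨Nat.card x.1.1, Nat.card_pos, fun p hp =>
        AddSubgroup.subset_closure ⟨x.1, x.2, Nat.lt_succ_self _, hp, rfl⟩⟩
    | neg x hx =>
      obtain ⟨N, hN, h⟩ := hx
      exact ⟨N, hN, fun p hp => AddSubgroup.neg_mem _ (h p hp)⟩
    | add x y hx hy =>
      obtain ⟨N, hN, h⟩ := hx
      obtain ⟨N', hN', h'⟩ := hy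
      refine ⟨N * N', Nat.mul_pos hN hN', fun p hp => ?_⟩
      exact AddSubgroup.add_mem _
        (Alow_mono (Nat.succ_le_succ (Nat.le_mul_of_pos_right N hN'))
          (h p ((Dvd.intro _ rfl).trans hp)))
        (Alow_mono (Nat.succ_le_succ (Nat.le_mul_of_pos_left N' hN))
          (h' p ((Dvd.intro_left _ rfl).trans hp)))

variable (G) in
/-- conjugacy of finite cyclic subgroups -/
def cycSetoid : Setoid (Cyc G) where
  r C D := ∃ g : G, ∀ c, c ∈ C.1 ↔ g * c * g⁻¹ ∈ D.1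
  iseqv := by
    refine ⟨fun C => ⟨1, fun c => by simp⟩, ?_, ?_⟩
    · rintro C D ⟨g, hg⟩
      refine ⟨g⁻¹, fun c => ?_⟩
      rw [hg]
      simp [mul_assoc]
    · rintro C D E ⟨g, hg⟩ ⟨h, hh⟩
      refine ⟨h * g, fun c => ?_⟩
      rw [hg, hh]
      simp [mul_assoc]

theorem card_of_rel {C D : Cyc G} (h : (cycSetoid G).r C D) : Nat.card C.1 = Nat.card D.1 := by
  obtain ⟨g, hg⟩ := h
  refine Nat.card_congr ⟨fun c => ⟨g * c.1 * g⁻¹, (hg _).1 c.2⟩,
    fun d => ⟨g⁻¹ * d.1 * g, (hg _).2 (by simpa [mul_assoc] using d.2)⟩, ?_, ?_⟩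
  · intro c
    ext1
    simp [mul_assoc]
  · intro c
    ext1
    simp [mul_assoc]

/-- every element of `Alow` is a sum over pairwise non-conjugate subgroups -/
theorem exists_rep {p r : ℕ} {x : ColimK1 G} (hx : x ∈ Alow G p r) :
    ∃ (S : Finset (Quotient (cycSetoid G)))
      (w : ∀ q : Quotient (cycSetoid G), (MonoidAlgebra ℤ q.out.1)ˣ),
      (∀ q ∈ S, Nat.card q.out.1 < r ∧ Nat.card q.out.1 ∣ p - 1) ∧
      (∀ q ∉ S, w q = 1) ∧ x = ∑ q ∈ S, ColimK1.mk q.out (w q) := by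
  classical
  induction hx using AddSubgroup.closure_induction with
  | mem x hx =>
    obtain ⟨C, u, h1, h2, rfl⟩ := hx
    have hrel : (cycSetoid G).r C (⟦C⟧ : Quotient (cycSetoid G)).out :=
      (cycSetoid G).symm (Quotient.exact (Quotient.out_eq (⟦C⟧ : Quotient (cycSetoid G))))
    have hcard := card_of_rel hrel
    obtain ⟨g, hg⟩ := hrel
    refine ⟨{⟦C⟧}, Function.update 1 ⟦C⟧
      (unitsMap (conjHom C.1 (⟦C⟧ : Quotient (cycSetoid G)).out.1 g fun c hc => (hg c).1 hc) u),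
      ?_, ?_, ?_⟩
    · intro q hq
      rw [Finset.mem_singleton] at hq
      subst hq
      rw [← hcard]
      exact ⟨h1, h2⟩
    · intro q hq
      rw [Finset.mem_singleton] at hq
      rw [Function.update_of_ne hq]
      rfl
    · rw [Finset.sum_singleton, Function.update_self]
      exact ColimK1.mk_conj _ _ g _ u
  | zero => exact ⟨∅, 1, by simp, fun q _ => rfl, by simp⟩
  | add x y _ _ hx hy =>
    obtain ⟨S, w, h1, h2, rfl⟩ := hx
    obtain ⟨T, v, h3, h4, rfl⟩ := hy
    refine ⟨S ∪ T, fun q => w q * v q, ?_, ?_, ?_⟩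
    · intro q hq
      rcases Finset.mem_union.1 hq with hq | hq
      · exact h1 q hq
      · exact h3 q hq
    · intro q hq
      rw [Finset.mem_union, not_or] at hq
      show w q * v q = 1
      rw [h2 q hq.1, h4 q hq.2, mul_one]
    · simp only [ColimK1.mk_mul]
      rw [Finset.sum_add_distrib]
      congr 1
      · refine Finset.sum_subset Finset.subset_union_left fun q _ hq => ?_
        rw [h2 q hq, ColimK1.mk_one]
      · refine Finset.sum_subset Finset.subset_union_right fun q _ hq => ?_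
        rw [h4 q hq, ColimK1.mk_one]
  | neg x _ hx =>
    obtain ⟨S, w, h1, h2, rfl⟩ := hx
    refine ⟨S, fun q => (w q)⁻¹, h1, ?_, ?_⟩
    · intro q hq
      show (w q)⁻¹ = 1
      rw [h2 q hq, inv_one]
    · simp only [ColimK1.mk_inv]
      rw [Finset.sum_neg_distrib]

end Pool.Agent.WhK
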