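import Mathlib
import Pool.Agent.Lib_helper44.Wh.StepB

/-!
# The contribution of a single cyclic subgroup
-/

set_option autoImplicit false

universe u

namespace Pool.Agent.WhK

variable {G : Type u} [Group G]

/-- the commutative group structure of a cyclic subgroup -/
@[reducible] noncomputable def commC (C : Cyc G) : CommGroup C.1 := @IsCyclic.commGroup C.1 _ C.cyc

/-- the integral logarithm of units of `ℤ[C]` -/
noncomputable def lamC (C : Cyc G) (p m : ℕ) [Fact p.Prime] (u : (MonoidAlgebra ℤ C.1)ˣ) :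
    C.1 →₀ ZMod (p ^ (m + 1)) :=
  @lamVal C.1 (commC C) p m _ u

theorem Lmap_mk {p : ℕ} [Fact p.Prime] (hp : p ≠ 2) (k m : ℕ) (C : Cyc G)
    (u : (MonoidAlgebra ℤ C.1)ˣ) (κ : ConjClasses G) :
    Lmap G k p m hp (ColimK1.mk C u) (some κ) =
      Finsupp.mapDomain (fun c : C.1 => ConjClasses.mk (c : G)) (lamC C p m u) κ := by
  letI := commC C
  have h := GamGL_dg_lam (n := k + 1) (p := p) (m := m) hp
    (f := C.1.subtype) C.1.subtype_injective 0 u κ
  rw [Lmap, liftColim_mk]
  exact h

theorem mk_mem_Alow_of_proper (R : Cyc G) {p : ℕ} (hR : Nat.card R.1 ∣ p - 1)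
    (z : (MonoidAlgebra ℤ R.1)ˣ) (hz : z ∈ @properUnits R.1 (commC R)) :
    ColimK1.mk R z ∈ Alow G p (Nat.card R.1) := by
  letI := commC R
  haveI := R.fin
  haveI := R.cyc
  unfold properUnits at hz
  induction hz using Subgroup.closure_induction with
  | mem z hz =>
    obtain ⟨D, hD, v, rfl⟩ := hz
    let e : D ≃* D.map R.1.subtype := D.equivMapOfInjective R.1.subtype R.1.subtype_injective
    haveI : Finite (D.map R.1.subtype) := Finite.of_equiv _ e.toEquiv
    haveI : IsCyclic (D.map R.1.subtype) :=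
      isCyclic_of_surjective e.toMonoidHom e.surjective
    let D' : Cyc G := ⟨D.map R.1.subtype, inferInstance, inferInstance⟩
    have hcard : Nat.card D'.1 = Nat.card D := (Nat.card_congr e.toEquiv).symm
    have hle : ∀ c ∈ D'.1, (1 : G) * c * 1⁻¹ ∈ R.1 := by
      rintro c ⟨d, -, rfl⟩
      simp
    have h1 : ColimK1.mk R (Units.map (MonoidAlgebra.mapDomainRingHom ℤ D.subtype).toMonoidHom v) =
        ColimK1.mk D' (unitsMap e.toMonoidHom v) := by
      rw [ColimK1.mk_conj D' R 1 hle, unitsMap_comp]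
      have : (conjHom D'.1 R.1 1 hle).comp e.toMonoidHom = D.subtype := by
        ext d
        show (1 : G) * (e d : G) * 1⁻¹ = ((d : R.1) : G)
        rw [one_mul, inv_one, mul_one]
        rfl
      rw [this]
      rfl
    rw [h1]
    refine AddSubgroup.subset_closure ⟨D', _, ?_, ?_, rfl⟩
    · rw [hcard]
      refine lt_of_le_of_ne (Subgroup.card_le_card_group D) fun h => hD ?_
      exact Subgroup.eq_top_of_card_eq D h
    · rw [hcard]
      exact (Subgroup.card_subgroup_dvd_card D).trans hR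
  | one =>
    have := ColimK1.mk_one R
    exact this ▸ AddSubgroup.zero_mem _
  | mul a b _ _ ha hb =>
    have := ColimK1.mk_mul R a b
    exact this ▸ AddSubgroup.add_mem _ ha hb
  | inv a _ ha =>
    have := ColimK1.mk_inv R a
    exact this ▸ AddSubgroup.neg_mem _ ha

theorem lamVal_prod {C : Type*} [CommGroup C] {p m : ℕ} [Fact p.Prime] (hp : p ≠ 2)
    {ι : Type*} (s : Finset ι) (f : ι → (MonoidAlgebra ℤ C)ˣ) :
    lamVal p m (∏ i ∈ s, f i) = ∑ i ∈ s, lamVal p m (f i) := by
  classical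
  induction s using Finset.induction_on with
  | empty => rw [Finset.prod_empty, Finset.sum_empty, lamVal_one hp]
  | insert a s ha ih => rw [Finset.prod_insert ha, Finset.sum_insert ha, lamVal_mul hp, ih]

theorem mapDomain_eq_sum {X Y : Type*} [Fintype X] [DecidableEq Y] {M : Type*} [AddCommMonoid M]
    (F : X → Y) (l : X →₀ M) (y : Y) :
    Finsupp.mapDomain F l y = ∑ x, if F x = y then l x else 0 := by
  rw [Finsupp.mapDomain, Finsupp.sum_fintype _ _ (fun _ => Finsupp.single_zero _),
    Finsupp.finsetSum_apply]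
  refine Finset.sum_congr rfl fun x _ => ?_
  rw [Finsupp.single_apply]

/-- the averaging argument in a commutative group with a group of automorphisms -/
theorem lamVal_average {C : Type u} [CommGroup C] [Finite C] {f : C →* G}
    (hf : Function.Injective f) {p m : ℕ} [Fact p.Prime] (hp : p ≠ 2)
    (w : (MonoidAlgebra ℤ C)ˣ) (c : C) (hc : Subgroup.zpowers c = ⊤)
    (W : Finset (C ≃* C)) (hW : ∀ α : C ≃* C, α ∈ W ↔ ∃ g : G, ∀ x, f (α x) = g * f x * g⁻¹)
    (hw : Finsupp.mapDomain (fun x => ConjClasses.mk (f x)) (lamVal p m w)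
      (ConjClasses.mk (f c)) = 0) :
    lamVal p m (∏ α ∈ W, unitsMap α.toMonoidHom w) c = 0 := by
  classical
  haveI : Fintype C := Fintype.ofFinite C
  rw [lamVal_prod hp, Finsupp.finsetSum_apply]
  rw [mapDomain_eq_sum] at hw
  rw [← hw, ← Finset.sum_filter]
  have h1 : ∀ α ∈ W, lamVal p m (unitsMap α.toMonoidHom w) c = lamVal p m w (α.symm c) := by
    intro α _
    have h := lamVal_map (p := p) (m := m) hp (f := α.toMonoidHom) α.injective w
    change lamVal p m (unitsMap α.toMonoidHom w) = _ at h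
    rw [h]
    have e : c = α.toMonoidHom (α.symm c) := (α.apply_symm_apply c).symm
    conv_lhs => rw [e]
    exact Finsupp.mapDomain_apply α.injective _ _
  rw [Finset.sum_congr rfl h1]
  refine Finset.sum_nbij (fun α => α.symm c) ?_ ?_ ?_ (fun _ _ => rfl)
  · intro α hα
    obtain ⟨g, hg⟩ := (hW α).1 hα
    rw [Finset.mem_filter]
    refine ⟨Finset.mem_univ _, ?_⟩
    rw [ConjClasses.mk_eq_mk_iff_isConj, isConj_iff]
    refine ⟨g, ?_⟩
    rw [← hg, α.apply_symm_apply]
  · intro α _ β _ h
    have h' : α.symm c = β.symm c := h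
    have hs : ∀ x, α.symm x = β.symm x := by
      intro x
      obtain ⟨k, rfl⟩ : x ∈ Subgroup.zpowers c := by rw [hc]; trivial
      show α.symm (c ^ k) = β.symm (c ^ k)
      rw [map_zpow, map_zpow, h']
    ext x
    have := hs (β x)
    rw [β.symm_apply_apply, MulEquiv.symm_apply_eq] at this
    exact this.symm
  · intro d hd
    rw [Finset.mem_coe, Finset.mem_filter, ConjClasses.mk_eq_mk_iff_isConj, isConj_iff] at hd
    obtain ⟨g, hg⟩ := hd.2
    -- `d` generates `C`
    have ho : orderOf d = orderOf c := by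
      rw [← orderOf_injective f hf d, ← orderOf_injective f hf c, ← hg]
      exact (MulEquiv.orderOf_eq (MulAut.conj g) (f d)).symm
    have hd' : Subgroup.zpowers d = ⊤ := by
      apply Subgroup.eq_top_of_card_eq
      rw [Nat.card_zpowers, ho, ← Nat.card_zpowers, hc, Subgroup.card_top]
    have hmem : ∀ x : C, ∃ y : C, f y = g * f x * g⁻¹ := by
      intro x
      obtain ⟨k, rfl⟩ : x ∈ Subgroup.zpowers d := by rw [hd']; trivial
      refine ⟨c ^ k, ?_⟩
      show f (c ^ k) = g * f (d ^ k) * g⁻¹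
      rw [map_zpow, map_zpow, ← hg, conj_zpow]
    choose y hy using hmem
    let a : C →* C := MonoidHom.mk' y fun x x' => hf (by
      rw [hy, map_mul, map_mul, hy, hy]
      group)
    have ha : Function.Injective a := by
      intro x x' h
      have h2 : g * f x * g⁻¹ = g * f x' * g⁻¹ := by
        rw [← hy, ← hy]
        exact congrArg f h
      exact hf (mul_left_cancel (mul_right_cancel h2))
    let α : C ≃* C := MulEquiv.ofBijective a (Finite.injective_iff_bijective.1 ha)
    refine ⟨α, ?_, ?_⟩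
    · exact (hW α).2 ⟨g, hy⟩
    · show α.symm c = d
      rw [MulEquiv.symm_apply_eq]
      apply hf
      rw [← hg]
      exact (hy d).symm

theorem ColimK1.mk_prod (R : Cyc G) {ι : Type*} (s : Finset ι) :
    letI := commC R
    ∀ (f : ι → (MonoidAlgebra ℤ R.1)ˣ),
    ColimK1.mk R (∏ i ∈ s, f i) = ∑ i ∈ s, ColimK1.mk R (f i) := by
  classical
  letI := commC R
  intro f
  induction s using Finset.induction_on with
  | empty =>
    rw [Finset.prod_empty, Finset.sum_empty]
    exact ColimK1.mk_one R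
  | insert a s ha ih =>
    rw [Finset.prod_insert ha, Finset.sum_insert ha, ← ih]
    exact ColimK1.mk_mul R _ _

/-- **Main step.** -/
theorem main_step {p : ℕ} [Fact p.Prime] (hp : p ≠ 2) (R : Cyc G) (hR : Nat.card R.1 ∣ p - 1)
    (w : (MonoidAlgebra ℤ R.1)ˣ)
    (hw : ∀ (m : ℕ) (c : R.1), Subgroup.zpowers c = ⊤ →
      Finsupp.mapDomain (fun c : R.1 => ConjClasses.mk (c : G)) (lamC R p m w)
        (ConjClasses.mk (c : G)) = 0) :
    ∃ K : ℕ, 0 < K ∧ K • ColimK1.mk R w ∈ Alow G p (Nat.card R.1) := by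
  classical
  letI := commC R
  haveI := R.fin
  haveI := R.cyc
  haveI : Fintype (R.1 ≃* R.1) := Fintype.ofFinite _
  let W : Finset (R.1 ≃* R.1) := Finset.univ.filter fun α =>
    ∃ g : G, ∀ x, R.1.subtype (α x) = g * R.1.subtype x * g⁻¹
  have hW : ∀ α : R.1 ≃* R.1, α ∈ W ↔ ∃ g : G, ∀ x, R.1.subtype (α x) =
      g * R.1.subtype x * g⁻¹ := by
    intro α
    rw [Finset.mem_filter]
    exact ⟨fun h => h.2, fun h => ⟨Finset.mem_univ _, h⟩⟩
  have hC : ∀ c : R.1, c ^ p = c := by
    intro c
    have hp1 : p = (p - 1) + 1 := by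
      have := (Fact.out : p.Prime).two_le
      omega
    rw [hp1, pow_succ, orderOf_dvd_iff_pow_eq_one.1 ((orderOf_dvd_natCard c).trans hR), one_mul]
  obtain ⟨K, hK, hmem⟩ := exists_pow_mem_proper_of_gen (p := p) (C := R.1) hp hC
    (∏ α ∈ W, unitsMap α.toMonoidHom w) (fun m c hc =>
      lamVal_average R.1.subtype_injective hp w c hc W hW (hw m c hc))
  have h1 : ColimK1.mk R (∏ α ∈ W, unitsMap α.toMonoidHom w) = W.card • ColimK1.mk R w := by
    rw [ColimK1.mk_prod R W, ← Finset.sum_const]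
    refine Finset.sum_congr rfl fun α hα => ?_
    obtain ⟨g, hg⟩ := (hW α).1 hα
    have hle : ∀ c ∈ R.1, g * c * g⁻¹ ∈ R.1 := by
      intro c hc
      have := hg ⟨c, hc⟩
      change _ = g * c * g⁻¹ at this
      rw [← this]
      exact (α ⟨c, hc⟩).2
    have he : conjHom R.1 R.1 g hle = α.toMonoidHom := by
      ext x
      exact (hg x).symm
    rw [ColimK1.mk_conj R R g hle w, he]
  have h2 : 0 < W.card := Finset.card_pos.2 ⟨MulEquiv.refl _, (hW _).2 ⟨1, fun x => by simp⟩⟩
  refine ⟨K * W.card, Nat.mul_pos hK h2, ?_⟩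
  rw [mul_smul, ← h1]
  have h3 := mk_mem_Alow_of_proper R hR _ hmem
  have h4 := ColimK1.mk_pow R (∏ α ∈ W, unitsMap α.toMonoidHom w) K
  rw [← h4]
  exact h3

end Pool.Agent.WhK
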