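import Mathlib
import Pool.Agent.Lib_helper44.Wh.StepC

/-!
# The kernel of `colim_C K₁(ℤ[C]) → Wh(G)` is torsion
-/

set_option autoImplicit false

universe u

namespace Pool.Agent.WhK

variable {G : Type u} [Group G]

theorem exists_nsmul_sum_mem {A ι : Type*} [AddCommGroup A] (B : AddSubgroup A) (S : Finset ι)
    (f : ι → A) (h : ∀ i ∈ S, ∃ K : ℕ, 0 < K ∧ K • f i ∈ B) :
    ∃ K : ℕ, 0 < K ∧ K • ∑ i ∈ S, f i ∈ B := by
  classical
  induction S using Finset.induction_on with
  | empty => exact ⟨1, Nat.one_pos, by simp⟩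
  | insert a s ha ih =>
    obtain ⟨K, hK, h1⟩ := ih fun i hi => h i (Finset.mem_insert_of_mem hi)
    obtain ⟨K', hK', h2⟩ := h a (Finset.mem_insert_self a s)
    refine ⟨K * K', Nat.mul_pos hK hK', ?_⟩
    rw [Finset.sum_insert ha, smul_add]
    refine AddSubgroup.add_mem _ ?_ ?_
    · rw [mul_smul]
      exact AddSubgroup.nsmul_mem _ h2 K
    · rw [mul_comm, mul_smul]
      exact AddSubgroup.nsmul_mem _ h1 K'

/-- the terms of the other subgroups do not contribute to the coefficient at a generator -/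
theorem other_term {p m : ℕ} [Fact p.Prime] (q q' : Quotient (cycSetoid G)) (hne : q' ≠ q)
    (hle : Nat.card q'.out.1 ≤ Nat.card q.out.1) (c : q.out.1) (hc : Subgroup.zpowers c = ⊤)
    (l : q'.out.1 →₀ ZMod (p ^ (m + 1))) :
    Finsupp.mapDomain (fun c : q'.out.1 => ConjClasses.mk (c : G)) l
      (ConjClasses.mk (c : G)) = 0 := by
  classical
  haveI := q'.out.fin
  haveI := q.out.fin
  haveI : Fintype q'.out.1 := Fintype.ofFinite _
  rw [mapDomain_eq_sum]
  refine Finset.sum_eq_zero fun d _ => ?_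
  rw [if_neg]
  intro h
  rw [ConjClasses.mk_eq_mk_iff_isConj, isConj_iff] at h
  obtain ⟨g, hg⟩ := h
  apply hne
  -- orders
  have ho : orderOf d = orderOf c := by
    rw [← Subgroup.orderOf_coe d, ← Subgroup.orderOf_coe c, ← hg]
    exact (MulEquiv.orderOf_eq (MulAut.conj g) (d : G)).symm
  have hoc : orderOf c = Nat.card q.out.1 := by
    rw [← Nat.card_zpowers, hc, Subgroup.card_top]
  have hcard : Nat.card (Subgroup.zpowers d) = Nat.card q'.out.1 := by
    refine le_antisymm (Subgroup.card_le_card_group _) ?_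
    rw [Nat.card_zpowers, ho, hoc]
    exact hle
  have hd : Subgroup.zpowers d = ⊤ := Subgroup.eq_top_of_card_eq _ hcard
  -- conjugation by g maps `q'.out` onto `q.out`
  have hrel : (cycSetoid G).r q'.out q.out := by
    refine ⟨g, fun x => ⟨fun hx => ?_, fun hx => ?_⟩⟩
    · obtain ⟨k, hk⟩ : (⟨x, hx⟩ : q'.out.1) ∈ Subgroup.zpowers d := by rw [hd]; trivial
      have hk' : (d : G) ^ k = x := congrArg Subtype.val hk
      rw [← hk', ← conj_zpow, hg]
      exact (c ^ k).2
    · obtain ⟨k, hk⟩ : (⟨g * x * g⁻¹, hx⟩ : q.out.1) ∈ Subgroup.zpowers c := by rw [hc]; trivial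
      have hk' : (c : G) ^ k = g * x * g⁻¹ := congrArg Subtype.val hk
      have hx' : x = (d : G) ^ k := by
        rw [← hg, conj_zpow] at hk'
        exact (mul_left_cancel (mul_right_cancel hk')).symm
      rw [hx']
      exact (d ^ k).2
  calc q' = ⟦q'.out⟧ := (Quotient.out_eq q').symm
    _ = ⟦q.out⟧ := Quotient.sound hrel
    _ = q := Quotient.out_eq q

theorem torsion_of_Lmap {p : ℕ} [Fact p.Prime] (hp : p ≠ 2) (k r : ℕ) :
    ∀ x ∈ Alow G p r, (∀ m κ, Lmap G k p m hp x (some κ) = 0) → ∃ n : ℕ, 0 < n ∧ n • x = 0 := by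
  induction r with
  | zero =>
    intro x hx _
    have : Alow G p 0 = ⊥ := by
      rw [eq_bot_iff]
      refine (AddSubgroup.closure_le _).2 ?_
      rintro y ⟨C, u, h, -, -⟩
      exact absurd h (Nat.not_lt_zero _)
    rw [this] at hx
    exact ⟨1, Nat.one_pos, by rw [(AddSubgroup.mem_bot).1 hx, smul_zero]⟩
  | succ r ih =>
    intro x hx hL
    obtain ⟨S, w, h1, -, hxS⟩ := exists_rep hx
    have hq : ∀ q ∈ S, ∃ K : ℕ, 0 < K ∧ K • ColimK1.mk q.out (w q) ∈ Alow G p r := by
      intro q hqS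
      rcases (Nat.lt_succ_iff.1 (h1 q hqS).1).lt_or_eq with hlt | heq
      · exact ⟨1, Nat.one_pos, by
          rw [one_smul]
          exact AddSubgroup.subset_closure ⟨q.out, w q, hlt, (h1 q hqS).2, rfl⟩⟩
      · rw [← heq]
        refine main_step hp q.out (h1 q hqS).2 (w q) fun m c hc => ?_
        have h2 := hL m (ConjClasses.mk (c : G))
        rw [hxS, map_sum, Finsupp.finsetSum_apply, Finset.sum_eq_single q, Lmap_mk] at h2
        · exact h2
        · intro q' hq' hne
          rw [Lmap_mk]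
          exact other_term q q' hne ((Nat.lt_succ_iff.1 (h1 q' hq').1).trans heq.ge) c hc _
        · exact fun h => absurd hqS h
    obtain ⟨K, hK, hKx⟩ := exists_nsmul_sum_mem (Alow G p r) S _ hq
    rw [← hxS] at hKx
    obtain ⟨n, hn, h3⟩ := ih _ hKx fun m κ => by
      rw [map_nsmul, Finsupp.smul_apply, hL m κ, smul_zero]
    exact ⟨n * K, Nat.mul_pos hn hK, by rw [mul_smul, h3]⟩

/-- **Theorem.** The kernel of `colim_C K₁(ℤ[C]) → Wh(G)` is a torsion group, for every
group `G`. -/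
theorem assembly_ker_torsion (x : ColimK1 G) (hx : assembly G x = 0) :
    ∃ n : ℕ, 0 < n ∧ n • x = 0 := by
  obtain ⟨N, hN, hmem⟩ := exists_mem_Alow x
  obtain ⟨k, hk⟩ := Lmap_eq_zero x hx
  obtain ⟨p, hp, hp2, hmod⟩ := Nat.exists_prime_gt_modEq_one (k := N) 2 hN.ne'
  haveI : Fact p.Prime := ⟨hp⟩
  have hp2' : p ≠ 2 := hp2.ne'
  have hdvd : N ∣ p - 1 := (Nat.modEq_iff_dvd' hp.one_lt.le).1 hmod.symm
  exact torsion_of_Lmap hp2' k (N + 1) x (hmem p hdvd) fun m κ => hk p m hp2' κ

end Pool.Agent.WhK
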