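import Mathlib
import Pool.Agent.Lib_helper44.Wh.KMap

/-!
# The colimit of the Whitehead groups of the finite subgroups of a group

* `Wh.map f : Wh A → Wh B` for a group homomorphism `f : A → B`.
* `ColimWh G`: the colimit of the groups `Wh(H)` over the finite subgroups `H` of `G`, the maps
  being induced by the homomorphisms `H → K`, `h ↦ g h g⁻¹`, for `g ∈ G` with `g H g⁻¹ ⊆ K`.
* `assemblyWh G : ColimWh G → Wh G`.
-/

set_option autoImplicit false

universe u

namespace Pool.Agent.WhK

section Functor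

variable {A B C : Type u} [Group A] [Group B] [Group C]

/-- The ring homomorphism `ℤ[A] → ℤ[B]` induced by a group homomorphism. -/
noncomputable def ringMap (f : A →* B) : MonoidAlgebra ℤ A →+* MonoidAlgebra ℤ B :=
  MonoidAlgebra.mapDomainRingHom ℤ f

theorem ringMap_single (f : A →* B) (a : A) (r : ℤ) :
    ringMap f (MonoidAlgebra.single a r) = MonoidAlgebra.single (f a) r := by
  unfold ringMap
  rw [MonoidAlgebra.mapDomainRingHom_apply, MonoidAlgebra.mapDomain_single]

theorem ringHom_ext {R : Type*} [Ring R] {φ ψ : MonoidAlgebra ℤ A →+* R}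
    (h : ∀ a, φ (MonoidAlgebra.single a 1) = ψ (MonoidAlgebra.single a 1)) : φ = ψ := by
  refine RingHom.ext fun x => ?_
  induction x using MonoidAlgebra.induction_linear with
  | zero => rw [map_zero, map_zero]
  | add x y hx hy => rw [map_add, map_add, hx, hy]
  | single g r =>
    have e : (MonoidAlgebra.single g r : MonoidAlgebra ℤ A) = r • MonoidAlgebra.single g 1 := by
      rw [MonoidAlgebra.smul_single, smul_eq_mul, mul_one]
    rw [e, map_zsmul, map_zsmul, h]

theorem ringMap_comp (g : B →* C) (f : A →* B) :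
    (ringMap g).comp (ringMap f) = ringMap (g.comp f) :=
  ringHom_ext fun a => by
    rw [RingHom.comp_apply, ringMap_single, ringMap_single, ringMap_single]
    rfl

theorem K1.map_comp {R S T : Type u} [Ring R] [Ring S] [Ring T] (g : S →+* T) (f : R →+* S)
    (x : K1 R) : K1.map g (K1.map f x) = K1.map (g.comp f) x := by
  obtain ⟨n, X, rfl⟩ := K1.exists_mk x
  rw [K1.map_mk, K1.map_mk, K1.map_mk]
  rfl

theorem K1.ofUnit_map (f : A →* B) (g : A) (u : (MonoidAlgebra ℤ A)ˣ)
    (hu : u = gUnit g ∨ u = -gUnit g) :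
    K1.map (ringMap f) (K1.ofUnit u) ∈ trivUnits B := by
  rw [K1.map_ofUnit]
  have h1 : Units.map (ringMap f).toMonoidHom (gUnit g) = gUnit (f g) :=
    Units.ext (ringMap_single f g 1)
  rcases hu with rfl | rfl
  · rw [h1]
    exact AddSubgroup.subset_closure ⟨f g, Or.inl rfl⟩
  · have h2 : Units.map (ringMap f).toMonoidHom (-gUnit g) = -gUnit (f g) := by
      rw [← h1]
      refine Units.ext ?_
      exact map_neg (ringMap f) _
    rw [h2]
    exact AddSubgroup.subset_closure ⟨f g, Or.inr rfl⟩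

theorem trivUnits_le (f : A →* B) :
    trivUnits A ≤ (trivUnits B).comap (K1.map (ringMap f)) := by
  unfold trivUnits
  rw [AddSubgroup.closure_le]
  rintro x ⟨g, rfl | rfl⟩
  · exact K1.ofUnit_map f g _ (Or.inl rfl)
  · exact K1.ofUnit_map f g _ (Or.inr rfl)

/-- The homomorphism `Wh(A) → Wh(B)` induced by a group homomorphism `f : A → B`. -/
noncomputable def Wh.map (f : A →* B) : Wh A →+ Wh B :=
  QuotientAddGroup.map (trivUnits A) (trivUnits B) (K1.map (ringMap f)) (trivUnits_le f)

theorem Wh.map_mk (f : A →* B) (x : K1 (MonoidAlgebra ℤ A)) :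
    Wh.map f (Wh.mk x) = Wh.mk (K1.map (ringMap f) x) := rfl

theorem Wh.exists_mk (x : Wh A) : ∃ y, x = Wh.mk y := by
  obtain ⟨y, hy⟩ := QuotientAddGroup.mk_surjective x
  exact ⟨y, hy.symm⟩

theorem Wh.mk_add (x y : K1 (MonoidAlgebra ℤ A)) : Wh.mk (x + y) = Wh.mk x + Wh.mk y := rfl

theorem Wh.map_comp (g : B →* C) (f : A →* B) (x : Wh A) :
    Wh.map g (Wh.map f x) = Wh.map (g.comp f) x := by
  obtain ⟨y, rfl⟩ := Wh.exists_mk x
  rw [Wh.map_mk, Wh.map_mk, Wh.map_mk, K1.map_comp, ringMap_comp]

/-- inner automorphisms act trivially -/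
theorem Wh.map_conj (g : A) (x : Wh A) : Wh.map (MulAut.conj g).toMonoidHom x = x := by
  obtain ⟨y, rfl⟩ := Wh.exists_mk x
  rw [Wh.map_mk]
  congr 1
  obtain ⟨n, X, rfl⟩ := K1.exists_mk y
  rw [K1.map_mk]
  let D : (Matrix (Fin n) (Fin n) (MonoidAlgebra ℤ A))ˣ :=
    Units.map (Matrix.scalar (Fin n)).toMonoidHom (gUnit g)
  let X' : (Matrix (Fin n) (Fin n) (MonoidAlgebra ℤ A))ˣ := X
  have h1 : GLn.map (ringMap (MulAut.conj g).toMonoidHom) n X = D * X' * D⁻¹ := by
    refine Units.ext ?_
    have h2 : ∀ x : MonoidAlgebra ℤ A, ringMap (MulAut.conj g).toMonoidHom x =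
        MonoidAlgebra.single g 1 * x * MonoidAlgebra.single g⁻¹ 1 := by
      intro x
      induction x using MonoidAlgebra.induction_linear with
      | zero => simp
      | add x y hx hy => rw [map_add, hx, hy, mul_add, add_mul]
      | single c r =>
        rw [ringMap_single]
        simp only [MonoidAlgebra.single_mul_single, one_mul, mul_one]
        rfl
    show X.val.map (ringMap (MulAut.conj g).toMonoidHom) =
      Matrix.scalar (Fin n) (MonoidAlgebra.single g 1) * X.val *
        Matrix.scalar (Fin n) (MonoidAlgebra.single g⁻¹ 1)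
    refine Matrix.ext fun i j => ?_
    rw [Matrix.map_apply, h2, Matrix.scalar_apply, Matrix.scalar_apply, Matrix.mul_diagonal,
      Matrix.diagonal_mul]
  exact (congrArg (K1.mk n) h1).trans (K1.mk_conj n D X)

end Functor

section Colim

variable (G : Type u) [Group G]

/-- The finite subgroups of `G`. -/
structure FinSub : Type u where
  sub : Subgroup G
  fin : Finite sub

/-- Pairs of a finite subgroup `H` of `G` and an element of `Wh(H)`. -/
structure WhPair : Type u where
  H : FinSub G
  x : Wh H.sub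

variable {G}

/-- The generator `[H, x]` of the free abelian group on the pairs. -/
def ColimWh.gen (H : FinSub G) (x : Wh H.sub) : FreeAbelianGroup (WhPair G) :=
  FreeAbelianGroup.of ⟨H, x⟩

/-- The element `[H, x + y] - [H, x] - [H, y]`. -/
noncomputable def ColimWh.relAddElt (H : FinSub G) (x y : Wh H.sub) :
    FreeAbelianGroup (WhPair G) :=
  ColimWh.gen H (x + y) - ColimWh.gen H x - ColimWh.gen H y

/-- The element `[H, x] - [K, y]`, where `g H g⁻¹ ⊆ K` and `y` is the image of `x` under the map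
`Wh(H) → Wh(K)` induced by `h ↦ g h g⁻¹`. -/
noncomputable def ColimWh.relConjElt (H K : FinSub G) (g : G)
    (h : ∀ c ∈ H.sub, g * c * g⁻¹ ∈ K.sub) (x : Wh H.sub) : FreeAbelianGroup (WhPair G) :=
  ColimWh.gen H x - ColimWh.gen K (Wh.map (conjHom H.sub K.sub g h) x)

variable (G)

/-- The relations `[H, x + y] = [H, x] + [H, y]`. -/
def ColimWh.relAdd : Set (FreeAbelianGroup (WhPair G)) :=
  {z | ∃ (H : FinSub G) (x y : Wh H.sub), z = ColimWh.relAddElt H x y}

/-- The relations `[H, x] = [K, y]` when `g H g⁻¹ ⊆ K` and `y` is the image of `x` under the map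
`Wh(H) → Wh(K)` induced by `h ↦ g h g⁻¹`. -/
def ColimWh.relConj : Set (FreeAbelianGroup (WhPair G)) :=
  {z | ∃ (H K : FinSub G) (g : G) (h : ∀ c ∈ H.sub, g * c * g⁻¹ ∈ K.sub) (x : Wh H.sub),
    z = ColimWh.relConjElt H K g h x}

/-- The colimit of the abelian groups `Wh(H)` over the finite subgroups `H` of `G`, with respect to
the maps induced by inclusion and by conjugation in `G`. -/
def ColimWh : Type u :=
  FreeAbelianGroup (WhPair G) ⧸ AddSubgroup.closure (ColimWh.relAdd G ∪ ColimWh.relConj G)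

noncomputable instance : AddCommGroup (ColimWh G) :=
  (inferInstance : AddCommGroup
    (FreeAbelianGroup (WhPair G) ⧸ AddSubgroup.closure (ColimWh.relAdd G ∪ ColimWh.relConj G)))

variable {G}

/-- The image in `Wh(G)` of the element `x` of `Wh(H)`. -/
noncomputable def WhPair.toWh (p : WhPair G) : Wh G := Wh.map p.H.sub.subtype p.x

theorem WhPair.toWh_rel : AddSubgroup.closure (ColimWh.relAdd G ∪ ColimWh.relConj G) ≤
    (FreeAbelianGroup.lift (WhPair.toWh (G := G))).ker := by
  rw [AddSubgroup.closure_le]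
  rintro z (⟨H, x, y, rfl⟩ | ⟨H, K, g, h, x, rfl⟩)
  · rw [SetLike.mem_coe, AddMonoidHom.mem_ker, ColimWh.relAddElt, map_sub, map_sub, ColimWh.gen,
      ColimWh.gen, ColimWh.gen, FreeAbelianGroup.lift_apply_of, FreeAbelianGroup.lift_apply_of,
      FreeAbelianGroup.lift_apply_of, sub_sub, sub_eq_zero]
    exact map_add (Wh.map H.sub.subtype) x y
  · rw [SetLike.mem_coe, AddMonoidHom.mem_ker, ColimWh.relConjElt, map_sub, ColimWh.gen,
      ColimWh.gen, FreeAbelianGroup.lift_apply_of, FreeAbelianGroup.lift_apply_of, sub_eq_zero]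
    show Wh.map H.sub.subtype x = Wh.map K.sub.subtype (Wh.map (conjHom H.sub K.sub g h) x)
    rw [Wh.map_comp, ← Wh.map_conj g (Wh.map H.sub.subtype x), Wh.map_comp]
    rfl

variable (G) in
/-- The natural homomorphism `colim_H Wh(H) → Wh(G)`. -/
noncomputable def assemblyWh : ColimWh G →+ Wh G :=
  QuotientAddGroup.lift _ (FreeAbelianGroup.lift WhPair.toWh) WhPair.toWh_rel

end Colim

end Pool.Agent.WhK
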