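import Mathlib
import Pool.Agent.Lib_helper44.Wh.WhDefs
import Pool.Agent.Lib_helper44.Wh.ArtinK1
import Pool.Agent.Lib_helper44.Wh.Main

/-!
# The kernel of `colim_H Wh(H) → Wh(G)` is a torsion group, for every group `G`
-/

set_option autoImplicit false

universe u

namespace Pool.Agent.WhK

variable {G : Type u} [Group G]

/-- The class in the colimit of an element of `Wh(H)`. -/
def ColimWh.mk (H : FinSub G) (x : Wh H.sub) : ColimWh G := QuotientAddGroup.mk (ColimWh.gen H x)

theorem ColimWh.mk_add (H : FinSub G) (x y : Wh H.sub) :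
    ColimWh.mk H (x + y) = ColimWh.mk H x + ColimWh.mk H y := by
  have h : (QuotientAddGroup.mk (ColimWh.relAddElt H x y) : ColimWh G) = 0 :=
    (QuotientAddGroup.eq_zero_iff _).2 (AddSubgroup.subset_closure (Or.inl ⟨H, x, y, rfl⟩))
  exact sub_eq_zero.1 ((sub_sub _ _ _).symm.trans h)

theorem ColimWh.mk_conj (H K : FinSub G) (g : G) (h : ∀ c ∈ H.sub, g * c * g⁻¹ ∈ K.sub)
    (x : Wh H.sub) : ColimWh.mk H x = ColimWh.mk K (Wh.map (conjHom H.sub K.sub g h) x) := by
  have h : (QuotientAddGroup.mk (ColimWh.relConjElt H K g h x) : ColimWh G) = 0 :=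
    (QuotientAddGroup.eq_zero_iff _).2 (AddSubgroup.subset_closure (Or.inr ⟨H, K, g, h, x, rfl⟩))
  exact sub_eq_zero.1 h

/-- `ColimWh.mk` as a homomorphism -/
noncomputable def ColimWh.mkHom (H : FinSub G) : Wh H.sub →+ ColimWh G :=
  AddMonoidHom.mk' (ColimWh.mk H) (ColimWh.mk_add H)

/-- a finite cyclic subgroup is a finite subgroup -/
abbrev Cyc.toFin (C : Cyc G) : FinSub G := ⟨C.sub, C.fin⟩

/-- the class in `ColimWh G` of a unit of `ℤ[C]` -/
noncomputable def unitCls (C : Cyc G) (u : (MonoidAlgebra ℤ C.sub)ˣ) : ColimWh G :=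
  ColimWh.mk C.toFin (Wh.mk (K1.ofUnit u))

theorem unitCls_mul (C : Cyc G) (u v : (MonoidAlgebra ℤ C.sub)ˣ) :
    unitCls C (u * v) = unitCls C u + unitCls C v := by
  unfold unitCls
  rw [K1.ofUnit_mul, Wh.mk_add]
  exact ColimWh.mk_add _ _ _

theorem Wh.map_unit {A B : Type u} [Group A] [Group B] (f : A →* B) (u : (MonoidAlgebra ℤ A)ˣ) :
    Wh.map f (Wh.mk (K1.ofUnit u)) = Wh.mk (K1.ofUnit (unitsMap f u)) := by
  rw [Wh.map_mk, K1.map_ofUnit]
  rfl

theorem unitCls_conj (C D : Cyc G) (g : G) (h : ∀ c ∈ C.sub, g * c * g⁻¹ ∈ D.sub)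
    (u : (MonoidAlgebra ℤ C.sub)ˣ) :
    unitCls C u = unitCls D (unitsMap (conjHom C.sub D.sub g h) u) :=
  (ColimWh.mk_conj C.toFin D.toFin g h _).trans (congrArg (ColimWh.mk D.toFin) (Wh.map_unit _ u))

/-- the class in `ColimWh G` of a pair `(C, u)` -/
noncomputable def thetaPair (p : Pairs G) : ColimWh G := unitCls p.C p.u

theorem thetaPair_rel : AddSubgroup.closure (relMul G ∪ relConj G) ≤
    (FreeAbelianGroup.lift (thetaPair (G := G))).ker := by
  rw [AddSubgroup.closure_le]
  rintro x (⟨C, u, v, rfl⟩ | ⟨C, D, g, h, u, rfl⟩)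
  · rw [SetLike.mem_coe, AddMonoidHom.mem_ker, relMulElt, map_sub, map_sub, gen, gen, gen,
      FreeAbelianGroup.lift_apply_of, FreeAbelianGroup.lift_apply_of,
      FreeAbelianGroup.lift_apply_of, sub_sub, sub_eq_zero]
    exact unitCls_mul C u v
  · rw [SetLike.mem_coe, AddMonoidHom.mem_ker, relConjElt, map_sub, gen, gen,
      FreeAbelianGroup.lift_apply_of, FreeAbelianGroup.lift_apply_of, sub_eq_zero]
    exact unitCls_conj C D g h u

variable (G) in
/-- the natural homomorphism from the colimit over the finite cyclic subgroups -/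
noncomputable def theta : ColimK1 G →+ ColimWh G :=
  QuotientAddGroup.lift _ (FreeAbelianGroup.lift thetaPair) thetaPair_rel

theorem theta_mk (C : Cyc G) (u : (MonoidAlgebra ℤ C.sub)ˣ) :
    theta G (ColimK1.mk C u) = unitCls C u := by
  show QuotientAddGroup.lift _ _ _ (QuotientAddGroup.mk _) = _
  rw [QuotientAddGroup.lift_mk]
  exact FreeAbelianGroup.lift_apply_of _ _

theorem assemblyWh_mk (H : FinSub G) (x : Wh H.sub) :
    assemblyWh G (ColimWh.mk H x) = Wh.map H.sub.subtype x := by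
  show QuotientAddGroup.lift _ _ _ (QuotientAddGroup.mk _) = _
  rw [QuotientAddGroup.lift_mk]
  exact FreeAbelianGroup.lift_apply_of _ _

theorem assembly_mk (C : Cyc G) (u : (MonoidAlgebra ℤ C.sub)ˣ) :
    assembly G (ColimK1.mk C u) = Wh.mk (K1.ofUnit (unitsMap C.sub.subtype u)) := by
  rw [assembly_eq, liftColim_mk]
  rfl

theorem assemblyWh_theta_mk (C : Cyc G) (u : (MonoidAlgebra ℤ C.sub)ˣ) :
    assemblyWh G (theta G (ColimK1.mk C u)) = assembly G (ColimK1.mk C u) := by
  rw [theta_mk, assembly_mk]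
  exact (assemblyWh_mk C.toFin _).trans (Wh.map_unit _ u)

theorem assemblyWh_theta (x : ColimK1 G) : assemblyWh G (theta G x) = assembly G x := by
  have h : ((assemblyWh G).comp (theta G)).comp (QuotientAddGroup.mk' _) =
      (assembly G).comp (QuotientAddGroup.mk' _) := by
    ext y
    exact assemblyWh_theta_mk y.C y.u
  obtain ⟨z, rfl⟩ := QuotientAddGroup.mk'_surjective _ x
  exact DFunLike.congr_fun h z

theorem mk_unit_mem_range (H : FinSub G) (C : Subgroup H.sub) (hC : IsCyclic C)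
    (u : (MonoidAlgebra ℤ C)ˣ) :
    ColimWh.mk H (Wh.mk (K1.ofUnit (Units.map (zmap C.subtype).toMonoidHom u))) ∈
      (theta G).range := by
  have := H.fin
  let e : C ≃* C.map H.sub.subtype := C.equivMapOfInjective H.sub.subtype H.sub.subtype_injective
  have : Finite (C.map H.sub.subtype) := Finite.of_equiv _ e.toEquiv
  have : IsCyclic (C.map H.sub.subtype) := isCyclic_of_surjective e.toMonoidHom e.surjective
  let D' : Cyc G := ⟨C.map H.sub.subtype, inferInstance, inferInstance⟩
  have hle : ∀ c ∈ D'.toFin.sub, (1 : G) * c * 1⁻¹ ∈ H.sub := by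
    rintro c ⟨d, -, rfl⟩
    simp
  refine ⟨ColimK1.mk D' (unitsMap e.toMonoidHom u), ?_⟩
  rw [theta_mk]
  have h0 : unitCls D' (unitsMap e.toMonoidHom u) =
      ColimWh.mk D'.toFin (Wh.map e.toMonoidHom (Wh.mk (K1.ofUnit u))) :=
    congrArg (ColimWh.mk D'.toFin) (Wh.map_unit e.toMonoidHom u).symm
  rw [h0, ColimWh.mk_conj D'.toFin H 1 hle]
  congr 1
  have h2 : (conjHom D'.toFin.sub H.sub 1 hle).comp e.toMonoidHom = C.subtype := by
    ext d
    show (1 : G) * (e d : G) * 1⁻¹ = ((d : H.sub) : G)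
    rw [one_mul, inv_one, mul_one]
    rfl
  refine (Wh.map_comp (conjHom D'.toFin.sub H.sub 1 hle) e.toMonoidHom _).trans ?_
  rw [h2]
  exact Wh.map_unit C.subtype u

theorem mem_sat_range (x : ColimWh G) : x ∈ sat (theta G).range := by
  induction x using QuotientAddGroup.induction_on with
  | H z =>
    induction z using FreeAbelianGroup.induction_on with
    | zero => exact AddSubgroup.zero_mem _
    | of x =>
      obtain ⟨H, y⟩ := x
      have := H.fin
      letI := Fintype.ofFinite H.sub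
      obtain ⟨k, rfl⟩ := Wh.exists_mk y
      show ColimWh.mk H (Wh.mk k) ∈ sat (theta G).range
      obtain ⟨N, hN, hk⟩ := artin_K1 k
      refine ⟨N, hN, ?_⟩
      let F : K1 (MonoidAlgebra ℤ H.sub) →+ ColimWh G :=
        (ColimWh.mkHom H).comp (QuotientAddGroup.mk' (trivUnits H.sub))
      have h1 : cycUnits H.sub ≤ (theta G).range.comap F := by
        unfold cycUnits
        rw [AddSubgroup.closure_le]
        rintro y ⟨C, hC, u, rfl⟩
        exact mk_unit_mem_range H C hC u
      have h2 : F (N • k) ∈ (theta G).range := h1 hk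
      rw [map_nsmul] at h2
      exact h2
    | neg x hx => exact AddSubgroup.neg_mem _ hx
    | add x y hx hy => exact AddSubgroup.add_mem _ hx hy

/-- **Theorem.** The kernel of `colim_H Wh(H) → Wh(G)`, the colimit over the finite subgroups of
`G`, is a torsion group, for every group `G`. -/
theorem assemblyWh_ker_torsion (x : ColimWh G) (hx : assemblyWh G x = 0) :
    ∃ n : ℕ, 0 < n ∧ n • x = 0 := by
  obtain ⟨N, hN, y, hy⟩ := mem_sat_range x
  have h1 : assembly G y = 0 := by rw [← assemblyWh_theta, hy, map_nsmul, hx, smul_zero]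
  obtain ⟨n, hn, h2⟩ := assembly_ker_torsion y h1
  exact ⟨n * N, Nat.mul_pos hn hN, by rw [mul_smul, ← hy, ← map_nsmul, h2, map_zero]⟩

end Pool.Agent.WhK
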