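import Mathlib

/-!
# Homomorphisms with torsion kernel are rationally injective
-/

set_option autoImplicit false

namespace Pool.Agent.WhK

theorem lTensor_injective_of_ker_torsion {A B : Type*} [AddCommGroup A] [AddCommGroup B]
    (f : A →+ B) (h : ∀ x, f x = 0 → ∃ n : ℕ, 0 < n ∧ n • x = 0) :
    Function.Injective (LinearMap.lTensor ℚ f.toIntLinearMap) := by
  set F := f.toIntLinearMap with hF
  -- factor through the quotient by the kernel
  let K := LinearMap.ker F
  have hfac : F = (K.liftQ F le_rfl).comp K.mkQ := by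
    ext x
    rfl
  have hinj : Function.Injective (K.liftQ F le_rfl) := by
    rw [← LinearMap.ker_eq_bot]
    exact Submodule.ker_liftQ_eq_bot _ _ _ le_rfl
  rw [hfac, LinearMap.lTensor_comp]
  refine (Module.Flat.lTensor_preserves_injective_linearMap _ hinj).comp ?_
  rw [injective_iff_map_eq_zero]
  intro t ht
  have hex : Function.Exact K.subtype K.mkQ := by
    rw [LinearMap.exact_iff, Submodule.ker_mkQ, Submodule.range_subtype]
  obtain ⟨s, rfl⟩ := (lTensor_exact ℚ hex K.mkQ_surjective t).1 ht
  have hs : ∀ s : TensorProduct ℤ ℚ K, s = 0 := by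
    intro s
    induction s using TensorProduct.induction_on with
    | zero => rfl
    | add x y hx hy => rw [hx, hy, add_zero]
    | tmul q k =>
      obtain ⟨n, hn, hnk⟩ := h k.1 k.2
      have hn0 : (n : ℚ) ≠ 0 := Nat.cast_ne_zero.2 hn.ne'
      have hq : q = n • (q / n) := by
        rw [nsmul_eq_mul, mul_div_cancel₀ _ hn0]
      have hk : n • k = 0 := Subtype.ext hnk
      rw [hq, TensorProduct.smul_tmul, hk, TensorProduct.tmul_zero]
  rw [hs s, map_zero]

end Pool.Agent.WhK
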